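import Pool.Agent.Lib_helper17.QC.CBD

/-!
# The cable: the two matrices are inverse to each other
-/

namespace Pool.Agent.QC

section alg
variable {A E : Type} [Fintype A] [Fintype E] [DecidableEq A] [DecidableEq E]
variable {T : A → E → ℤ} {S : E → A → ℤ}

lemma cb_T_pr (h : ∀ x y, ∑ e, T x e * S e y = if x = y then 1 else 0) (x : A) (z : E) :
    ∑ e, T x e * pr T S e z = T x z := by
  unfold pr
  simp_rw [Finset.mul_sum, ← mul_assoc]
  rw [Finset.sum_comm]
  simp_rw [← Finset.sum_mul, h]
  simp

lemma cb_pr_S (h : ∀ x y, ∑ e, T x e * S e y = if x = y then 1 else 0) (y : E) (b : A) :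
    ∑ e, pr T S y e * S e b = S y b := by
  unfold pr
  simp_rw [Finset.sum_mul, mul_assoc]
  rw [Finset.sum_comm]
  simp_rw [← Finset.mul_sum, h]
  simp

lemma cb_T_pq (h : ∀ x y, ∑ e, T x e * S e y = if x = y then 1 else 0) (x : A) (z : E) :
    ∑ e, T x e * pq T S e z = 0 := by
  unfold pq
  simp_rw [mul_sub]
  rw [Finset.sum_sub_distrib, cb_T_pr h]
  simp

lemma cb_pq_S (h : ∀ x y, ∑ e, T x e * S e y = if x = y then 1 else 0) (y : E) (b : A) :
    ∑ e, pq T S y e * S e b = 0 := by
  unfold pq
  simp_rw [sub_mul]
  rw [Finset.sum_sub_distrib, cb_pr_S h]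
  simp

lemma cb_pr_pr (h : ∀ x y, ∑ e, T x e * S e y = if x = y then 1 else 0) (y z : E) :
    ∑ e, pr T S y e * pr T S e z = pr T S y z := by
  have e1 : ∀ e, pr T S y e * pr T S e z = ∑ a, (pr T S y e * S e a) * T a z := by
    intro e
    unfold pr
    rw [Finset.mul_sum]
    apply Finset.sum_congr rfl
    intro a _
    ring
  simp_rw [e1]
  rw [Finset.sum_comm]
  simp_rw [← Finset.sum_mul, cb_pr_S h]
  rfl

lemma cb_pr_pq (h : ∀ x y, ∑ e, T x e * S e y = if x = y then 1 else 0) (y z : E) :
    ∑ e, pr T S y e * pq T S e z = 0 := by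
  unfold pq
  simp_rw [mul_sub]
  rw [Finset.sum_sub_distrib, cb_pr_pr h]
  simp

lemma cb_pq_pr (h : ∀ x y, ∑ e, T x e * S e y = if x = y then 1 else 0) (y z : E) :
    ∑ e, pq T S y e * pr T S e z = 0 := by
  unfold pq
  simp_rw [sub_mul]
  rw [Finset.sum_sub_distrib, cb_pr_pr h]
  simp

lemma cb_pq_pq (h : ∀ x y, ∑ e, T x e * S e y = if x = y then 1 else 0) (y z : E) :
    ∑ e, pq T S y e * pq T S e z = pq T S y z := by
  have : ∀ e, pq T S y e * pq T S e z = (if y = e then pq T S e z else 0) -
      pr T S y e * pq T S e z := by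
    intro e
    have : pq T S y e = (if y = e then 1 else 0) - pr T S y e := rfl
    rw [this]
    split_ifs <;> ring
  simp_rw [this]
  rw [Finset.sum_sub_distrib, cb_pr_pq h]
  simp

lemma cb_pq_add_pr (y z : E) : pq T S y z + pr T S y z = if y = z then 1 else 0 := by
  unfold pq; ring

end alg

lemma cb_sum_two (L : ℕ) (i : Fin L) (U V : Fin L → ℤ) :
    ∑ j : Fin L, (if j = i then U j else if (j : ℕ) = i + 1 then V j else 0) =
      U i + if h : (i : ℕ) + 1 < L then V ⟨i + 1, h⟩ else 0 := by
  have e1 : ∀ j : Fin L, (if j = i then U j else if (j : ℕ) = i + 1 then V j else 0) =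
      (if j = i then U j else 0) + (if (j : ℕ) = i + 1 then V j else 0) := by
    intro j
    by_cases h : j = i
    · subst h
      have : ¬ (j : ℕ) = j + 1 := by omega
      simp [this]
    · simp [h]
  simp_rw [e1]
  rw [Finset.sum_add_distrib]
  congr 1
  · simp
  · by_cases h : (i : ℕ) + 1 < L
    · rw [dif_pos h, Finset.sum_eq_single (⟨i + 1, h⟩ : Fin L)]
      · simp
      · intro b _ hb
        rw [if_neg]
        intro h1
        exact hb (Fin.ext h1)
      · simp
    · rw [dif_neg h]
      apply Finset.sum_eq_zero
      intro b _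
      rw [if_neg]
      have := b.2
      omega

lemma cb_sum_zero (L : ℕ) (hL : 1 ≤ L) (U : Fin L → ℤ) :
    ∑ j : Fin L, (if (j : ℕ) = 0 then U j else 0) = U ⟨0, hL⟩ := by
  rw [Finset.sum_eq_single (⟨0, hL⟩ : Fin L)]
  · simp
  · intro b _ hb
    rw [if_neg]
    intro h
    exact hb (Fin.ext h)
  · simp

section cab
variable {A E : Type} [Fintype A] [Fintype E] [DecidableEq A] [DecidableEq E]

theorem cable_TS (T : A → E → ℤ) (S : E → A → ℤ) (L : ℕ) (hL : 1 ≤ L)
    (hTS : ∀ x y, ∑ e, T x e * S e y = if x = y then 1 else 0) (x y : A ⊕ (Fin L × E)) :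
    ∑ e, cT T S L x e * cS T S L e y = if x = y then 1 else 0 := by
  rw [Fintype.sum_sum_type, Fintype.sum_prod_type]
  rcases x with a | ⟨i, u⟩ <;> rcases y with b | ⟨k, z⟩
  · have e1 : ∀ j : Fin L, ∑ e, cT T S L (.inl a) (.inl (j, e)) * cS T S L (.inl (j, e)) (.inl b) =
        if (j : ℕ) = 0 then (if a = b then 1 else 0) else 0 := by
      intro j
      simp only [cT, cS]
      by_cases h : (j : ℕ) = 0
      · simp only [h, if_true]
        exact hTS a b
      · simp [h]
    simp_rw [e1]
    rw [cb_sum_zero L hL]
    simp [cT]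
  · have e1 : ∀ j : Fin L, ∑ e, cT T S L (.inl a) (.inl (j, e)) *
        cS T S L (.inl (j, e)) (.inr (k, z)) = 0 := by
      intro j
      simp only [cT, cS]
      by_cases h : (j : ℕ) = 0
      · have h2 : ¬ (k : ℕ) + 1 = (j : ℕ) := by omega
        simp only [h, if_true]
        by_cases h3 : k = j
        · simp only [h3, if_true]
          exact cb_T_pq hTS a z
        · rw [h] at h2
          simp [h3, h2]
      · simp [h]
    simp_rw [e1]
    simp [cT]
  · have e1 : ∀ j : Fin L, ∑ e, cT T S L (.inr (i, u)) (.inl (j, e)) *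
        cS T S L (.inl (j, e)) (.inl b) = 0 := by
      intro j
      simp only [cT, cS]
      by_cases h : (j : ℕ) = 0
      · have h2 : ¬ (j : ℕ) = i + 1 := by omega
        simp only [h2, if_false]
        simp only [h, if_true]
        by_cases h3 : j = i
        · simp only [h3, if_true]
          exact cb_pq_S hTS u b
        · simp [h3]
      · simp [h]
    simp_rw [e1]
    simp [cS]
  · have e1 : ∀ j : Fin L, ∑ e, cT T S L (.inr (i, u)) (.inl (j, e)) *
        cS T S L (.inl (j, e)) (.inr (k, z)) =
        if j = i then (if k = j then pq T S u z else 0)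
        else if (j : ℕ) = i + 1 then (if (k : ℕ) + 1 = j then pr T S u z else 0) else 0 := by
      intro j
      simp only [cT, cS]
      by_cases h : j = i
      · simp only [h, if_true]
        by_cases h3 : k = i
        · simp only [h3, if_true]
          exact cb_pq_pq hTS u z
        · simp only [h3, if_false]
          by_cases h4 : (k : ℕ) + 1 = i
          · simp only [h4, if_true]
            exact cb_pq_pr hTS u z
          · simp [h4]
      · simp only [h, if_false]
        by_cases h2 : (j : ℕ) = i + 1
        · simp only [h2, if_true]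
          by_cases h3 : k = j
          · have h4 : ¬ (k : ℕ) + 1 = i + 1 := by
              rw [h3]; omega
            simp only [h3, if_true]
            rw [if_neg (by rw [← h3]; exact h4)]
            exact cb_pr_pq hTS u z
          · simp only [h3, if_false]
            by_cases h4 : (k : ℕ) + 1 = i + 1
            · simp only [h4, if_true]
              exact cb_pr_pr hTS u z
            · simp only [h4, if_false, mul_zero, Finset.sum_const_zero]
        · simp [h2]
    simp_rw [e1]
    rw [cb_sum_two]
    have e2 : ∑ b, cT T S L (.inr (i, u)) (.inr b) * cS T S L (.inr b) (.inr (k, z)) =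
        if (i : ℕ) + 1 = L ∧ (k : ℕ) + 1 = L then pr T S u z else 0 := by
      simp only [cT, cS]
      by_cases h : (i : ℕ) + 1 = L
      · by_cases h2 : (k : ℕ) + 1 = L
        · simp only [h, h2, if_true, and_self]
          rfl
        · simp [h2]
      · simp [h]
    rw [e2]
    by_cases hki : k = i
    · subst hki
      by_cases hz : u = z
      · subst hz
        have h5 := cb_pq_add_pr (T := T) (S := S) u u
        by_cases h : (k : ℕ) + 1 < L
        · have h6 : ¬ (k : ℕ) + 1 = L := by omega
          simp [h, h6]
          simpa using h5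
        · have h6 : (k : ℕ) + 1 = L := by have := k.2; omega
          simp [h6]
          simpa using h5
      · have h5 := cb_pq_add_pr (T := T) (S := S) u z
        rw [if_neg hz] at h5
        by_cases h : (k : ℕ) + 1 < L
        · have h6 : ¬ (k : ℕ) + 1 = L := by omega
          simp [h, h6, hz]
          exact h5
        · have h6 : (k : ℕ) + 1 = L := by have := k.2; omega
          simp [h6, hz]
          exact h5
    · have h7 : (k : ℕ) ≠ i := fun h => hki (Fin.ext h)
      have h8 : ¬ ((i : ℕ) + 1 = L ∧ (k : ℕ) + 1 = L) := by omega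
      have h9 : ¬ (Sum.inr (i, u) : A ⊕ (Fin L × E)) = Sum.inr (k, z) := by
        intro h
        exact hki (Prod.mk.inj (Sum.inr.inj h)).1.symm
      rw [if_neg hki, if_neg h8, if_neg h9]
      by_cases h : (i : ℕ) + 1 < L
      · rw [dif_pos h, if_neg (by simpa using h7)]
        simp
      · rw [dif_neg h]
        simp

theorem cable_ST (T : A → E → ℤ) (S : E → A → ℤ) (L : ℕ) (hL : 1 ≤ L)
    (hTS : ∀ x y, ∑ e, T x e * S e y = if x = y then 1 else 0) (x y : (Fin L × E) ⊕ A) :
    ∑ f, cS T S L x f * cT T S L f y = if x = y then 1 else 0 := by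
  rw [Fintype.sum_sum_type, Fintype.sum_prod_type]
  rcases x with ⟨i, u⟩ | a <;> rcases y with ⟨k, z⟩ | b
  · have e1 : ∀ j : Fin L, ∑ e, cS T S L (.inl (i, u)) (.inr (j, e)) *
        cT T S L (.inr (j, e)) (.inl (k, z)) =
        (if j = i then (if k = j then pq T S u z else 0) else 0) +
        (if (j : ℕ) + 1 = i then (if (k : ℕ) = j + 1 then pr T S u z else 0) else 0) := by
      intro j
      simp only [cT, cS]
      by_cases h : j = i
      · have h0 : ¬ (j : ℕ) + 1 = i := by rw [h]; omega
        simp only [h0, if_false, add_zero]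
        simp only [h, if_true]
        by_cases h3 : k = i
        · simp only [h3, if_true]
          exact cb_pq_pq hTS u z
        · simp only [h3, if_false]
          by_cases h4 : (k : ℕ) = i + 1
          · simp only [h4, if_true]
            exact cb_pq_pr hTS u z
          · simp only [h4, if_false, mul_zero, Finset.sum_const_zero]
      · simp only [h, if_false, zero_add]
        by_cases h2 : (j : ℕ) + 1 = i
        · simp only [h2, if_true]
          by_cases h3 : k = j
          · have h4 : ¬ (k : ℕ) = i := by
              rw [h3]; omega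
            simp only [h3, if_true]
            rw [if_neg (by rw [← h3]; exact h4)]
            exact cb_pr_pq hTS u z
          · simp only [h3, if_false]
            by_cases h4 : (k : ℕ) = i
            · simp only [h4, if_true]
              exact cb_pr_pr hTS u z
            · simp only [h4, if_false, mul_zero, Finset.sum_const_zero]
        · simp only [h2, if_false, zero_mul, Finset.sum_const_zero]
    have e3 : ∑ b, cS T S L (.inl (i, u)) (.inl b) * cT T S L (.inl b) (.inl (k, z)) =
        if (i : ℕ) = 0 ∧ (k : ℕ) = 0 then pr T S u z else 0 := by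
      simp only [cT, cS]
      by_cases h : (i : ℕ) = 0
      · by_cases h2 : (k : ℕ) = 0
        · simp only [h, h2, if_true, and_self]
          rfl
        · simp only [h2, if_false, mul_zero, Finset.sum_const_zero, and_false]
      · simp only [h, if_false, zero_mul, Finset.sum_const_zero, false_and]
    rw [e3]
    simp_rw [e1]
    rw [Finset.sum_add_distrib, Finset.sum_ite_eq' Finset.univ i, if_pos (Finset.mem_univ _)]
    have e4 : ∑ j : Fin L, (if (j : ℕ) + 1 = i then (if (k : ℕ) = j + 1 then pr T S u z else 0)
        else 0) = if (i : ℕ) ≠ 0 ∧ k = i then pr T S u z else 0 := by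
      by_cases h : (i : ℕ) = 0
      · rw [if_neg (fun h' => h'.1 h)]
        apply Finset.sum_eq_zero
        intro j _
        rw [if_neg (by omega)]
      · have h1 : (i : ℕ) - 1 < L := by have := i.2; omega
        rw [Finset.sum_eq_single (⟨(i : ℕ) - 1, h1⟩ : Fin L)]
        · have h2 : (i : ℕ) - 1 + 1 = i := by omega
          simp only [h2, if_true, ne_eq, h, not_false_iff, true_and, Fin.ext_iff]
        · intro b _ hb
          rw [if_neg]
          intro h2
          exact hb (Fin.ext (by simp only; omega))
        · simp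
    rw [e4]
    by_cases hki : k = i
    · subst hki
      have h5 := cb_pq_add_pr (T := T) (S := S) u z
      have h9 : ((Sum.inl (k, u) : (Fin L × E) ⊕ A) = Sum.inl (k, z)) ↔ u = z := by
        constructor
        · intro h
          exact (Prod.mk.inj (Sum.inl.inj h)).2
        · rintro rfl; rfl
      have h10 : (if (Sum.inl (k, u) : (Fin L × E) ⊕ A) = Sum.inl (k, z) then (1 : ℤ) else 0) =
          if u = z then 1 else 0 := by
        by_cases h : u = z
        · rw [if_pos (h9.mpr h), if_pos h]
        · rw [if_neg (fun h' => h (h9.mp h')), if_neg h]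
      rw [h10, ← h5]
      by_cases h : (k : ℕ) = 0
      · simp [h]
        ring
      · simp [h]
    · have h7 : ¬ ((i : ℕ) = 0 ∧ (k : ℕ) = 0) := fun h => hki (Fin.ext (by omega))
      have h8 : ¬ ((i : ℕ) ≠ 0 ∧ k = i) := fun h => hki h.2
      have h9 : ¬ (Sum.inl (i, u) : (Fin L × E) ⊕ A) = Sum.inl (k, z) := by
        intro h
        exact hki (Prod.mk.inj (Sum.inl.inj h)).1.symm
      rw [if_neg hki, if_neg h7, if_neg h8, if_neg h9]
      simp
  · have e1 : ∀ j : Fin L, ∑ e, cS T S L (.inl (i, u)) (.inr (j, e)) *
        cT T S L (.inr (j, e)) (.inr b) = 0 := by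
      intro j
      simp only [cT, cS]
      by_cases h : (j : ℕ) + 1 = L
      · have h2 : ¬ (j : ℕ) + 1 = i := by have := i.2; omega
        simp only [h, if_true]
        have h2' : ¬ L = (i : ℕ) := by have := i.2; omega
        simp only [h2', if_false]
        by_cases h3 : j = i
        · simp only [h3, if_true]
          exact cb_pq_S hTS u b
        · simp only [h3, if_false, zero_mul, Finset.sum_const_zero]
      · simp only [h, if_false, mul_zero, Finset.sum_const_zero]
    simp_rw [e1]
    simp [cT]
  · have e1 : ∀ j : Fin L, ∑ e, cS T S L (.inr a) (.inr (j, e)) *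
        cT T S L (.inr (j, e)) (.inl (k, z)) = 0 := by
      intro j
      simp only [cT, cS]
      by_cases h : (j : ℕ) + 1 = L
      · have h2' : ¬ (k : ℕ) = L := by have := k.2; omega
        simp only [h, if_true, h2', if_false]
        by_cases h3 : k = j
        · simp only [h3, if_true]
          exact cb_T_pq hTS a z
        · simp only [h3, if_false, mul_zero, Finset.sum_const_zero]
      · simp only [h, if_false, zero_mul, Finset.sum_const_zero]
    simp_rw [e1]
    simp [cS]
  · have e1 : ∀ j : Fin L, ∑ e, cS T S L (.inr a) (.inr (j, e)) *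
        cT T S L (.inr (j, e)) (.inr b) = if (j : ℕ) + 1 = L then (if a = b then 1 else 0) else 0 := by
      intro j
      simp only [cT, cS]
      by_cases h : (j : ℕ) + 1 = L
      · simp only [h, if_true]
        exact hTS a b
      · simp only [h, if_false, mul_zero, Finset.sum_const_zero]
    simp_rw [e1]
    have h1 : L - 1 < L := by omega
    rw [Finset.sum_eq_single (⟨L - 1, h1⟩ : Fin L)]
    · have h2 : L - 1 + 1 = L := by omega
      simp [h2, cS, Sum.inr_injective.eq_iff]
    · intro c _ hc
      rw [if_neg]
      intro h2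
      exact hc (Fin.ext (by simp only; omega))
    · simp

end cab

end Pool.Agent.QC
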