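import Pool.Agent.Lib_helper17.QC.Defs

/-!
# The cable: definitions
-/

namespace Pool.Agent.QC

variable {A E : Type} [Fintype A] [Fintype E] [DecidableEq A] [DecidableEq E]

/-- the idempotent `S T` -/
def pr (T : A → E → ℤ) (S : E → A → ℤ) (y z : E) : ℤ := ∑ a, S y a * T a z

/-- `1 - S T` -/
def pq (T : A → E → ℤ) (S : E → A → ℤ) (y z : E) : ℤ := (if y = z then 1 else 0) - pr T S y z

/-- the matrix `T` of the cable: `A → X_0` by `T`, `Y_i → X_i` by `1 - P`, `Y_i → X_(i+1)` by `P`,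
`Y_(L-1) → A''` by `S`. -/
def cT (T : A → E → ℤ) (S : E → A → ℤ) (L : ℕ) : (A ⊕ (Fin L × E)) → ((Fin L × E) ⊕ A) → ℤ
  | .inl a, .inl (j, y) => if (j : ℕ) = 0 then T a y else 0
  | .inl _, .inr _ => 0
  | .inr (i, y), .inl (j, z) => if j = i then pq T S y z else if (j : ℕ) = i + 1 then pr T S y z else 0
  | .inr (i, y), .inr b => if (i : ℕ) + 1 = L then S y b else 0

/-- the inverse matrix of the cable -/
def cS (T : A → E → ℤ) (S : E → A → ℤ) (L : ℕ) : ((Fin L × E) ⊕ A) → (A ⊕ (Fin L × E)) → ℤ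
  | .inl (j, y), .inl a => if (j : ℕ) = 0 then S y a else 0
  | .inl (j, y), .inr (i, z) => if i = j then pq T S y z else if (i : ℕ) + 1 = j then pr T S y z else 0
  | .inr _, .inl _ => 0
  | .inr b, .inr (i, y) => if (i : ℕ) + 1 = L then T b y else 0

end Pool.Agent.QC
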