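import Mathlib

/-!
# Quasi-equivalence of bases: the combinatorial objects

* `Reach R j x y`: `y` can be reached from `x` in at most `j` steps of the relation `R`.
* `Dat`: a pair of integer matrices `t : A × N`, `s : N × A` with two potentials `a, b : A → ℕ`.
* `NR p q D`: every nonzero entry of `C = 1 - t s` is irreversible: `D` is a near-retract of length
  `(p, q)`.
* `Blk`: an exact block (two mutually inverse integer matrices with heights).
-/

namespace Pool.Agent.QC

/-- `y` can be reached from `x` in at most `j` steps of `R`. -/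
inductive Reach {A : Type} (R : A → A → Prop) : ℕ → A → A → Prop
  | refl (j : ℕ) (x : A) : Reach R j x x
  | tail {j : ℕ} {x y z : A} : Reach R j x y → R y z → Reach R (j + 1) x z

/-- Two integer matrices and two potentials. -/
structure Dat where
  A : Type
  N : Type
  fA : Fintype A
  fN : Fintype N
  dA : DecidableEq A
  t : A → N → ℤ
  s : N → A → ℤ
  a : A → ℕ
  b : A → ℕ

attribute [instance] Dat.fA Dat.fN Dat.dA

/-- One step `x → n → y` through a nonzero entry of `t` and a nonzero entry of `s`. -/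
def Dat.step (D : Dat) (x y : D.A) : Prop := ∃ n, D.t x n ≠ 0 ∧ D.s n y ≠ 0

/-- The defect `C = 1 - t s`. -/
def Dat.C (D : Dat) (e f : D.A) : ℤ := (if e = f then 1 else 0) - ∑ n, D.t e n * D.s n f

/-- everything within `p` steps of `f` has smaller first potential than `e` -/
def Dat.irrA (D : Dat) (p : ℕ) (e f : D.A) : Prop := ∀ v, Reach D.step p f v → D.a v < D.a e

/-- everything within `q` steps of `f` has smaller second potential than `e` -/
def Dat.irrB (D : Dat) (q : ℕ) (e f : D.A) : Prop := ∀ v, Reach D.step q f v → D.b v < D.b e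

/-- near-retract of length `(p, q)` -/
def NR (p q : ℕ) (D : Dat) : Prop := ∀ e f, D.C e f ≠ 0 → D.irrA p e f ∨ D.irrB q e f

/-- An exact block: integer matrices `T : F × E`, `S : E × F` inverse to each other, with heights
`hF p x`, `hE p y` (`p = 0, 1, 2, ...`), strictly increasing in `p`, such that the height increases
along nonzero entries by at most one level. -/
structure Blk where
  F : Type
  E : Type
  fF : Fintype F
  fE : Fintype E
  dF : DecidableEq F
  dE : DecidableEq E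
  T : F → E → ℤ
  S : E → F → ℤ
  hF : ℕ → F → ℕ
  hE : ℕ → E → ℕ
  TS : ∀ x y, ∑ e, T x e * S e y = if x = y then 1 else 0
  ST : ∀ x y, ∑ f, S x f * T f y = if x = y then 1 else 0
  mF : ∀ p x, hF p x < hF (p + 1) x
  mE : ∀ p x, hE p x < hE (p + 1) x
  eT : ∀ p x y, T x y ≠ 0 → hE p y ≤ hF (p + 1) x
  eS : ∀ p x y, S y x ≠ 0 → hF p x ≤ hE (p + 1) y

attribute [instance] Blk.fF Blk.fE Blk.dF Blk.dE

/-- `B` has a set `A` of vectors of the basis `F` whose near vectors in `E` form a set `N` with fewer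
elements; `near` is measured at the levels `p0 ≤ p ≤ p1` with the loss `q`. -/
def Blk.Bad (B : Blk) (q : ℕ → ℕ) (p0 p1 : ℕ) : Prop :=
  ∃ (A : Finset B.F) (N : Finset B.E), N.card < A.card ∧ ∀ x ∈ A, ∀ y,
    (∀ p, p0 ≤ p → p ≤ p1 → B.hF p x ≤ B.hE (q p) y ∧ B.hE p y ≤ B.hF (q p) x) → y ∈ N

/-- the first levels of the five windows: `P 0 = p0`, `P (w+1) = P w + D w + 1` -/
def P (p0 : ℕ) (D : ℕ → ℕ) : ℕ → ℕ
  | 0 => p0
  | w + 1 => P p0 D w + D w + 1

/-- `Bad` for the five windows `[P w, P w + D w]`, `w = 0, ..., 4`. -/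
def Blk.Bad5 (B : Blk) (p0 : ℕ) (D : ℕ → ℕ) : Prop :=
  ∃ (A : Finset B.F) (N : Finset B.E), N.card < A.card ∧ ∀ x ∈ A, ∀ y,
    (∀ w, w < 5 → B.hF (P p0 D w) x ≤ B.hE (P p0 D w + D w) y ∧
      B.hE (P p0 D w) y ≤ B.hF (P p0 D w + D w) x) → y ∈ N

/-- An exact retract: `T : A × E`, `S : E × A`, `T S = 1`, with two families of heights
(stage 1: `a1, e1`, stage 2: `a2, e2`), levels `0, ..., p` and `0, ..., q`, and a set `N` of `E` such
that an element of `E` outside `N` is separated from all of `A` in one of the stages in the sense of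
`far`: its height is one odd constant there, while all heights of `A` are even. -/
structure Ret (p q : ℕ) where
  A : Type
  E : Type
  fA : Fintype A
  fE : Fintype E
  dA : DecidableEq A
  dE : DecidableEq E
  T : A → E → ℤ
  S : E → A → ℤ
  N : Finset E
  a1 : ℕ → A → ℕ
  a2 : ℕ → A → ℕ
  e1 : ℕ → E → ℕ
  e2 : ℕ → E → ℕ
  TS : ∀ x y, ∑ e, T x e * S e y = if x = y then 1 else 0
  ma1 : ∀ j x, a1 j x ≤ a1 (j + 1) x
  ma2 : ∀ j x, a2 j x ≤ a2 (j + 1) x
  me1 : ∀ j y, e1 j y ≤ e1 (j + 1) y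
  me2 : ∀ j y, e2 j y ≤ e2 (j + 1) y
  T1 : ∀ j, j < p → ∀ x y, T x y ≠ 0 → e1 j y ≤ a1 (j + 1) x
  T2 : ∀ j, j < q → ∀ x y, T x y ≠ 0 → e2 j y ≤ a2 (j + 1) x
  S1 : ∀ j, j < p → ∀ x y, S y x ≠ 0 → a1 j x ≤ e1 (j + 1) y
  S2 : ∀ j, j < q → ∀ x y, S y x ≠ 0 → a2 j x ≤ e2 (j + 1) y
  ev1 : ∀ j x, Even (a1 j x)
  ev2 : ∀ j x, Even (a2 j x)
  far : ∀ y, y ∉ N → (∃ c, Odd c ∧ ∀ j, j ≤ p → e1 j y = c) ∨ (∃ c, Odd c ∧ ∀ j, j ≤ q → e2 j y = c)

attribute [instance] Ret.fA Ret.fE Ret.dA Ret.dE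

end Pool.Agent.QC
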