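import Pool.Agent.Lib_helper17.QC.Defs
import Pool.Agent.Lib_helper79.QE.Defs

/-!
# Quasi-equivalence of bases: the space attached to a sequence of finite sets with heights
-/

open Filter Topology

namespace Pool.Agent.QC

/-- Finite sets `E m` with heights `h m p x` (strictly increasing in `p`), scales `M m ≥ 1` and an
injective code of the disjoint union. -/
structure Sp where
  E : ℕ → Type
  fE : ∀ m, Fintype (E m)
  dE : ∀ m, DecidableEq (E m)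
  h : ∀ m, ℕ → E m → ℕ
  mono : ∀ m p x, h m p x < h m (p + 1) x
  M : ℕ → ℕ
  M1 : ∀ m, 1 ≤ M m
  code : (Σ m, E m) → ℕ
  inj : Function.Injective code
  hM : ∀ x : Σ m, E m, 3 ^ code x ≤ 2 ^ M x.1

attribute [instance] Sp.fE Sp.dE

/-- The integer `3 ^ code x * 2 ^ (M * 4 ^ h (k+1) x)`. -/
def Sp.n (Z : Sp) (x : Σ m, Z.E m) (k : ℕ) : ℕ :=
  3 ^ Z.code x * 2 ^ (Z.M x.1 * 4 ^ Z.h x.1 (k + 1) x.2)

/-- The coordinate of weight `n x k` (coordinate `j` has weight `j + 1`). -/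
def Sp.pos (Z : Sp) (x : Σ m, Z.E m) (k : ℕ) : ℕ := Z.n x k - 1

/-- The vector with coordinate `(n x k) ^ (-k)` at the place of weight `n x k`, `k = 0, 1, 2, ...`. -/
noncomputable def Sp.ev (Z : Sp) (x : Σ m, Z.E m) : ℕ → ℂ :=
  Function.extend (Z.pos x) (fun k => (((Z.n x k : ℂ)) ^ k)⁻¹) 0

/-- The subspace of `s`: all coordinates at places of weight `n x k` are determined by the one of
weight `n x 0`, all other coordinates vanish. -/
def Sp.X (Z : Sp) : Submodule ℂ (ℕ → ℂ) where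
  carrier := {ξ | QE.InS ξ ∧ (∀ x k, ((Z.n x k : ℂ)) ^ k * ξ (Z.pos x k) = ξ (Z.pos x 0)) ∧
    ∀ j, (∀ x k, Z.pos x k ≠ j) → ξ j = 0}
  zero_mem' := by
    refine ⟨fun q => by simp [summable_zero], fun x k => by simp, fun j _ => rfl⟩
  add_mem' := by
    rintro ξ η ⟨h1, h2, h3⟩ ⟨k1, k2, k3⟩
    refine ⟨?_, fun x k => ?_, fun j hj => ?_⟩
    · intro q
      have h := ((h1 q).add (k1 q)).mul_left 2
      refine Summable.of_nonneg_of_le (fun i => by positivity) (fun i => ?_) h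
      have h4 : ‖(ξ + η) i‖ ≤ ‖ξ i‖ + ‖η i‖ := norm_add_le _ _
      have h5 : ‖(ξ + η) i‖ ^ 2 ≤ 2 * (‖ξ i‖ ^ 2 + ‖η i‖ ^ 2) := by
        nlinarith [sq_nonneg (‖ξ i‖ - ‖η i‖), norm_nonneg (ξ i), norm_nonneg (η i),
          norm_nonneg ((ξ + η) i)]
      have h6 : (0 : ℝ) ≤ ((i : ℝ) + 1) ^ (2 * q) := by positivity
      calc ‖(ξ + η) i‖ ^ 2 * ((i : ℝ) + 1) ^ (2 * q)
          ≤ 2 * (‖ξ i‖ ^ 2 + ‖η i‖ ^ 2) * ((i : ℝ) + 1) ^ (2 * q) :=
            mul_le_mul_of_nonneg_right h5 h6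
        _ = _ := by ring
    · rw [Pi.add_apply, Pi.add_apply, mul_add, h2, k2]
    · rw [Pi.add_apply, h3 j hj, k3 j hj, add_zero]
  smul_mem' := by
    rintro a ξ ⟨h1, h2, h3⟩
    refine ⟨?_, fun x k => ?_, fun j hj => ?_⟩
    · intro q
      have := (h1 q).mul_left (‖a‖ ^ 2)
      refine this.congr ?_
      intro n
      simp [mul_pow]
      ring
    · rw [Pi.smul_apply, Pi.smul_apply, smul_eq_mul, smul_eq_mul, ← h2 x k]
      ring
    · rw [Pi.smul_apply, h3 j hj, smul_zero]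

/-- The vector `∑_x T i x • ev x` of a block. -/
noncomputable def Sp.fv (Z : Sp) {F : ℕ → Type} (T : ∀ m, F m → Z.E m → ℤ) (i : Σ m, F m) :
    ℕ → ℂ :=
  ∑ x : Z.E i.1, (T i.1 i.2 x : ℂ) • Z.ev ⟨i.1, x⟩

/-- `z m r = 2 ^ (M m * 4 ^ r)` -/
noncomputable def zz (M : ℕ → ℕ) (m r : ℕ) : ℝ := 2 ^ (M m * 4 ^ r)

end Pool.Agent.QC
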