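import Pool.Agent.Lib_helper17.QC.DefsA

open Filter Topology QE

namespace Pool.Agent.QC

theorem pow32_inj_h36 {a b c d : ℕ} (h : 3 ^ a * 2 ^ b = 3 ^ c * 2 ^ d) : a = c ∧ b = d := by
  have h2 : Nat.Prime 2 := Nat.prime_two
  have h3 : Nat.Prime 3 := Nat.prime_three
  have e1 : (3 ^ a * 2 ^ b).factorization 3 = a := by
    rw [Nat.factorization_mul (by positivity) (by positivity), h3.factorization_pow,
      h2.factorization_pow]
    simp
  have e2 : (3 ^ c * 2 ^ d).factorization 3 = c := by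
    rw [Nat.factorization_mul (by positivity) (by positivity), h3.factorization_pow,
      h2.factorization_pow]
    simp
  have e3 : (3 ^ a * 2 ^ b).factorization 2 = b := by
    rw [Nat.factorization_mul (by positivity) (by positivity), h3.factorization_pow,
      h2.factorization_pow]
    simp
  have e4 : (3 ^ c * 2 ^ d).factorization 2 = d := by
    rw [Nat.factorization_mul (by positivity) (by positivity), h3.factorization_pow,
      h2.factorization_pow]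
    simp
  exact ⟨by rw [← e1, ← e2, h], by rw [← e3, ← e4, h]⟩

theorem n_inj (Z : Sp) {x y : Σ m, Z.E m} {k l : ℕ} (h : Z.n x k = Z.n y l) : x = y ∧ k = l := by
  unfold Sp.n at h
  obtain ⟨h1, h2⟩ := pow32_inj_h36 h
  have hxy : x = y := Z.inj h1
  subst hxy
  refine ⟨rfl, ?_⟩
  have h3 : 4 ^ Z.h x.1 (k + 1) x.2 = 4 ^ Z.h x.1 (l + 1) x.2 :=
    Nat.eq_of_mul_eq_mul_left (Z.M1 x.1) h2
  have h4 : Z.h x.1 (k + 1) x.2 = Z.h x.1 (l + 1) x.2 :=
    Nat.pow_right_injective (le_refl 2 |>.trans (by norm_num)) h3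
  have hm : StrictMono (fun p => Z.h x.1 p x.2) := strictMono_nat_of_lt_succ fun p => Z.mono x.1 p x.2
  have h5 := hm.injective h4
  omega

theorem n_sq (Z : Sp) (x : Σ m, Z.E m) (k : ℕ) : 2 ≤ Z.n x k ∧ Z.n x k ^ 2 ≤ Z.n x (k + 1) := by
  constructor
  · unfold Sp.n
    have h1 : 1 ≤ Z.M x.1 * 4 ^ Z.h x.1 (k + 1) x.2 :=
      Nat.one_le_iff_ne_zero.mpr (Nat.mul_ne_zero (by have := Z.M1 x.1; omega) (by positivity))
    calc 2 = 1 * 2 ^ 1 := by norm_num
      _ ≤ 3 ^ Z.code x * 2 ^ (Z.M x.1 * 4 ^ Z.h x.1 (k + 1) x.2) :=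
        Nat.mul_le_mul (Nat.one_le_pow _ _ (by norm_num)) (Nat.pow_le_pow_right (by norm_num) h1)
  · unfold Sp.n
    set a := Z.h x.1 (k + 1) x.2 with ha
    set b := Z.h x.1 (k + 1 + 1) x.2 with hb
    have hab : a + 1 ≤ b := Z.mono x.1 (k + 1) x.2
    have h1 : Z.M x.1 + 2 * (Z.M x.1 * 4 ^ a) ≤ Z.M x.1 * 4 ^ b := by
      have h2 : 4 ^ (a + 1) ≤ 4 ^ b := Nat.pow_le_pow_right (by norm_num) hab
      have h3 : 1 ≤ 4 ^ a := Nat.one_le_pow _ _ (by norm_num)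
      have h4 : Z.M x.1 * (1 + 2 * 4 ^ a) ≤ Z.M x.1 * 4 ^ b := by
        apply Nat.mul_le_mul_left
        rw [pow_succ] at h2
        omega
      calc Z.M x.1 + 2 * (Z.M x.1 * 4 ^ a) = Z.M x.1 * (1 + 2 * 4 ^ a) := by ring
        _ ≤ _ := h4
    calc (3 ^ Z.code x * 2 ^ (Z.M x.1 * 4 ^ a)) ^ 2
        = 3 ^ Z.code x * (3 ^ Z.code x * 2 ^ (2 * (Z.M x.1 * 4 ^ a))) := by ring
      _ ≤ 3 ^ Z.code x * (2 ^ Z.M x.1 * 2 ^ (2 * (Z.M x.1 * 4 ^ a))) := by
          apply Nat.mul_le_mul_left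
          exact Nat.mul_le_mul_right _ (Z.hM x)
      _ = 3 ^ Z.code x * 2 ^ (Z.M x.1 + 2 * (Z.M x.1 * 4 ^ a)) := by rw [← pow_add]
      _ ≤ _ := by
          apply Nat.mul_le_mul_left
          exact Nat.pow_le_pow_right (by norm_num) h1

theorem pos_add_one_h36 (Z : Sp) (x : Σ m, Z.E m) (k : ℕ) : Z.pos x k + 1 = Z.n x k := by
  have := (n_sq Z x k).1
  unfold Sp.pos
  omega

theorem pos_inj_h36 (Z : Sp) {x y : Σ m, Z.E m} {k l : ℕ} (h : Z.pos x k = Z.pos y l) :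
    x = y ∧ k = l := by
  apply n_inj Z
  rw [← pos_add_one_h36, ← pos_add_one_h36, h]

theorem pos_injective_h36 (Z : Sp) (x : Σ m, Z.E m) : Function.Injective (Z.pos x) := by
  intro k l h
  exact (pos_inj_h36 Z h).2

theorem ev_pos (Z : Sp) (x y : Σ m, Z.E m) (k : ℕ) :
    Z.ev x (Z.pos y k) = if x = y then (((Z.n x k : ℂ)) ^ k)⁻¹ else 0 := by
  unfold Sp.ev
  split_ifs with h
  · subst h
    rw [(pos_injective_h36 Z x).extend_apply]
  · rw [Function.extend_apply']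
    · rfl
    · rintro ⟨l, hl⟩
      exact h (pos_inj_h36 Z hl).1

theorem ev_off_h36 (Z : Sp) (x : Σ m, Z.E m) (j : ℕ) (hj : ∀ k, Z.pos x k ≠ j) : Z.ev x j = 0 := by
  unfold Sp.ev
  rw [Function.extend_apply']
  · rfl
  · rintro ⟨l, hl⟩
    exact hj l hl

theorem n_ge_h36 (Z : Sp) (x : Σ m, Z.E m) (k : ℕ) : 2 ^ k ≤ Z.n x k := by
  induction k with
  | zero => have := (n_sq Z x 0).1; simp; omega
  | succ k ih =>
    have h1 := n_sq Z x k
    calc 2 ^ (k + 1) = 2 ^ k * 2 := pow_succ _ _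
      _ ≤ Z.n x k * Z.n x k := Nat.mul_le_mul ih h1.1
      _ = Z.n x k ^ 2 := by ring
      _ ≤ _ := h1.2

theorem ev_inS_h36 (Z : Sp) (x : Σ m, Z.E m) : InS (Z.ev x) := by
  intro q
  rw [← (pos_injective_h36 Z x).summable_iff]
  · have hterm : ∀ k, ((fun n : ℕ => ‖Z.ev x n‖ ^ 2 * ((n : ℝ) + 1) ^ (2 * q)) ∘ Z.pos x) k =
        ((Z.n x k : ℝ) ^ k)⁻¹ ^ 2 * (Z.n x k : ℝ) ^ (2 * q) := by
      intro k
      simp only [Function.comp]
      rw [ev_pos, if_pos rfl]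
      have h1 : ((Z.pos x k : ℝ) + 1) = (Z.n x k : ℝ) := by
        exact_mod_cast pos_add_one_h36 Z x k
      rw [h1, norm_inv, norm_pow, Complex.norm_natCast]
    have hsum : Summable fun k : ℕ => ((1 : ℝ) / 4) ^ k :=
      summable_geometric_of_lt_one (by norm_num) (by norm_num)
    rw [← summable_nat_add_iff (q + 1)]
    have hsum2 := (summable_nat_add_iff (q + 1)).mpr hsum
    apply Summable.of_nonneg_of_le _ _ hsum2
    · intro k
      simp only [Function.comp]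
      positivity
    · intro k
      rw [hterm]
      have h2 : (2 : ℝ) ^ (k + (q + 1)) ≤ Z.n x (k + (q + 1)) := by
        exact_mod_cast n_ge_h36 Z x (k + (q + 1))
      set N : ℝ := (Z.n x (k + (q + 1)) : ℝ) with hN
      have hN1 : (1 : ℝ) ≤ N := by
        calc (1 : ℝ) ≤ 2 ^ (k + (q + 1)) := one_le_pow₀ (by norm_num)
          _ ≤ N := h2
      have hN0 : 0 < N := by linarith
      have h3 : (N ^ (k + (q + 1)))⁻¹ ^ 2 * N ^ (2 * q) = (N ^ (2 * (k + 1)))⁻¹ := by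
        rw [← inv_pow, ← pow_mul, inv_pow]
        have h4 : (k + (q + 1)) * 2 = 2 * (k + 1) + 2 * q := by ring
        rw [h4, pow_add]
        field_simp
      rw [h3]
      have h5 : N ^ 2 ≤ N ^ (2 * (k + 1)) := pow_le_pow_right₀ hN1 (by omega)
      have h6 : ((2 : ℝ) ^ (k + (q + 1))) ^ 2 ≤ N ^ 2 := by gcongr
      have h7 : ((1 : ℝ) / 4) ^ (k + (q + 1)) = (((2 : ℝ) ^ (k + (q + 1))) ^ 2)⁻¹ := by
        rw [← pow_mul, mul_comm (k + (q + 1)) 2, pow_mul, one_div, inv_pow]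
        norm_num
      show _ ≤ ((1 : ℝ) / 4) ^ (k + (q + 1))
      rw [h7]
      exact inv_anti₀ (by positivity) (h6.trans h5)
  · intro j hj
    rw [ev_off_h36 Z x j (fun k hk => hj ⟨k, hk⟩)]
    simp

theorem ev_mem (Z : Sp) (x : Σ m, Z.E m) : Z.ev x ∈ Z.X := by
  refine ⟨ev_inS_h36 Z x, ?_, ?_⟩
  · intro y k
    rw [ev_pos, ev_pos]
    by_cases h : x = y
    · subst h
      rw [if_pos rfl, if_pos rfl, pow_zero, inv_one, mul_inv_cancel₀]
      have := (n_sq Z x k).1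
      have h1 : (Z.n x k : ℂ) ≠ 0 := by
        have : Z.n x k ≠ 0 := by omega
        exact_mod_cast this
      exact pow_ne_zero _ h1
    · rw [if_neg h, if_neg h, mul_zero]
  · intro j hj
    exact ev_off_h36 Z x j (fun k => hj x k)

theorem coord_le (ξ : ℕ → ℂ) (hξ : InS ξ) (q j : ℕ) : ‖ξ j‖ * ((j : ℝ) + 1) ^ q ≤ nrm q ξ := by
  unfold nrm
  apply Real.le_sqrt_of_sq_le
  have h1 := (hξ q).le_tsum j (fun i _ => by positivity)
  refine le_trans (le_of_eq ?_) h1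
  rw [mul_pow, ← pow_mul, mul_comm q 2]

end Pool.Agent.QC
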