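import Pool.Agent.Lib_helper17.QC.P_A2
import Pool.Agent.Lib_helper79.QE.Nrm

open Filter Topology QE

namespace Pool.Agent.QC

lemma a3_h62_lim {u : ℕ → ℕ → ℂ} {x : ℕ → ℂ} (hu : ∀ k, InS (u k)) (hx : InS x)
    (hc : Conv u x) (j : ℕ) : Tendsto (fun k => u k j) atTop (𝓝 (x j)) := by
  rw [tendsto_iff_norm_sub_tendsto_zero]
  refine squeeze_zero (fun k => norm_nonneg _) (fun k => ?_) (hc 0)
  have h1 : InS (u k - x) := by
    have := (hu k).add (hx.smul (-1 : ℂ))
    have e : u k - x = u k + (-1 : ℂ) • x := by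
      funext i
      simp [sub_eq_add_neg]
    rw [e]
    exact this
  have h2 := coord_le (u k - x) h1 0 j
  rw [pow_zero, mul_one] at h2
  exact h2

/-- A3 -/
theorem X_closed (Z : Sp) : ClosedSub Z.X := by
  refine ⟨fun x hx => hx.1, fun u x hu hx hc => ?_⟩
  have hl : ∀ j, Tendsto (fun k => u k j) atTop (𝓝 (x j)) :=
    a3_h62_lim (fun k => (hu k).1) hx hc
  refine ⟨hx, fun y k => ?_, fun j hj => ?_⟩
  · have h1 : Tendsto (fun i => ((Z.n y k : ℂ)) ^ k * u i (Z.pos y k)) atTop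
        (𝓝 (((Z.n y k : ℂ)) ^ k * x (Z.pos y k))) := (hl _).const_mul _
    have h2 : (fun i => ((Z.n y k : ℂ)) ^ k * u i (Z.pos y k)) = fun i => u i (Z.pos y 0) := by
      funext i
      exact (hu i).2.1 y k
    rw [h2] at h1
    exact tendsto_nhds_unique h1 (hl _)
  · have h2 : (fun i => u i j) = fun _ => (0 : ℂ) := by
      funext i
      exact (hu i).2.2 j hj
    have h1 := hl j
    rw [h2] at h1
    exact tendsto_nhds_unique h1 tendsto_const_nhds

theorem a3_h62_chk : type_of% @X_closed := @X_closed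

end Pool.Agent.QC
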