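import Pool.Agent.Lib_helper17.QC.P_A2

open Filter Topology QE

namespace Pool.Agent.QC

lemma a2u_h62_mono (Z : Sp) (m : ℕ) (x : Z.E m) (a b : ℕ) :
    Z.h m a x + b ≤ Z.h m (a + b) x := by
  induction b with
  | zero => simp
  | succ b ih =>
    have := Z.mono m (a + b) x
    show _ ≤ Z.h m (a + b + 1) x
    omega

lemma a2u_h62_inj (Z : Sp) (x : Σ m, Z.E m) : Function.Injective (Z.pos x) := by
  intro k l h
  have h1 := (n_sq Z x k).1
  have h2 := (n_sq Z x l).1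
  unfold Sp.pos at h
  exact (n_inj Z (x := x) (y := x) (by omega)).2

lemma a2u_h62_num (d : ℕ) : 4 * d + 1 ≤ 2 * 4 ^ (d + 1) := by
  induction d with
  | zero => norm_num
  | succ d ih => rw [pow_succ]; omega

lemma a2u_h62_key (Z : Sp) (x : Σ m, Z.E m) (p k : ℕ) :
    Z.n x k ^ (2 * p) * 2 ^ k ≤
      (2 ^ (Z.M x.1 * 4 ^ Z.h x.1 (p + 2) x.2)) ^ 2 * Z.n x k ^ (2 * k) := by
  set M := Z.M x.1 with hM
  have hM1 : 1 ≤ M := Z.M1 x.1
  set H := 4 ^ Z.h x.1 (k + 1) x.2 with hH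
  set H' := 4 ^ Z.h x.1 (p + 2) x.2 with hH'
  have hn2 : 2 ≤ Z.n x k := (n_sq Z x k).1
  have hnle : Z.n x k ≤ 2 ^ (M * (1 + H)) := by
    unfold Sp.n
    calc 3 ^ Z.code x * 2 ^ (Z.M x.1 * 4 ^ Z.h x.1 (k + 1) x.2)
        ≤ 2 ^ M * 2 ^ (M * H) := Nat.mul_le_mul_right _ (Z.hM x)
      _ = 2 ^ (M * (1 + H)) := by rw [← pow_add]; ring_nf
  rcases le_total k p with hkp | hkp
  · obtain ⟨d, rfl⟩ := Nat.exists_eq_add_of_le hkp
    have e1 : Z.n x k ^ (2 * (k + d)) = Z.n x k ^ (2 * d) * Z.n x k ^ (2 * k) := by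
      rw [← pow_add]; ring_nf
    rw [e1]
    have hHH : H * 4 ^ (d + 1) ≤ H' := by
      rw [hH, hH', ← pow_add]
      apply Nat.pow_le_pow_right (by norm_num)
      have := a2u_h62_mono Z x.1 x.2 (k + 1) (d + 1)
      have e : k + 1 + (d + 1) = k + d + 2 := by ring
      rw [e] at this
      exact this
    have hHk : k ≤ H := by
      have h1 := a2u_h62_mono Z x.1 x.2 0 (k + 1)
      rw [Nat.zero_add] at h1
      have h2 : k + 1 ≤ Z.h x.1 (k + 1) x.2 := by omega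
      calc k ≤ Z.h x.1 (k + 1) x.2 := by omega
        _ ≤ 4 ^ Z.h x.1 (k + 1) x.2 := (Nat.lt_pow_self (by norm_num)).le
    have hH1 : 1 ≤ H := Nat.one_le_pow _ _ (by norm_num)
    have hexp : M * (1 + H) * (2 * d) + k ≤ M * H' * 2 := by
      have h3 := a2u_h62_num d
      have h4 : M * (1 + H) * (2 * d) + k ≤ M * H * (4 * d + 1) := by
        nlinarith [Nat.mul_le_mul_left (M * d) hH1, Nat.mul_le_mul_right H hM1]
      calc M * (1 + H) * (2 * d) + k ≤ M * H * (4 * d + 1) := h4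
        _ ≤ M * H * (2 * 4 ^ (d + 1)) := Nat.mul_le_mul_left _ h3
        _ = M * (H * 4 ^ (d + 1)) * 2 := by ring
        _ ≤ M * H' * 2 := Nat.mul_le_mul_right _ (Nat.mul_le_mul_left _ hHH)
    have h5 : Z.n x k ^ (2 * d) * 2 ^ k ≤ (2 ^ (M * H')) ^ 2 := by
      calc Z.n x k ^ (2 * d) * 2 ^ k ≤ (2 ^ (M * (1 + H))) ^ (2 * d) * 2 ^ k :=
            Nat.mul_le_mul_right _ (Nat.pow_le_pow_left hnle _)
        _ = 2 ^ (M * (1 + H) * (2 * d) + k) := by rw [← pow_mul, ← pow_add]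
        _ ≤ 2 ^ (M * H' * 2) := Nat.pow_le_pow_right (by norm_num) hexp
        _ = (2 ^ (M * H')) ^ 2 := by rw [← pow_mul]
    calc Z.n x k ^ (2 * d) * Z.n x k ^ (2 * k) * 2 ^ k
        = Z.n x k ^ (2 * d) * 2 ^ k * Z.n x k ^ (2 * k) := by ring
      _ ≤ _ := Nat.mul_le_mul_right _ h5
  · obtain ⟨d, rfl⟩ := Nat.exists_eq_add_of_le hkp
    have hp : p ≤ M * H' := by
      have h1 := a2u_h62_mono Z x.1 x.2 0 (p + 2)
      rw [Nat.zero_add] at h1
      calc p ≤ Z.h x.1 (p + 2) x.2 := by omega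
        _ ≤ H' := (Nat.lt_pow_self (by norm_num)).le
        _ = 1 * H' := (one_mul _).symm
        _ ≤ M * H' := Nat.mul_le_mul_right _ hM1
    have e1 : Z.n x (p + d) ^ (2 * (p + d)) =
        Z.n x (p + d) ^ (2 * p) * Z.n x (p + d) ^ (2 * d) := by
      rw [← pow_add]; ring_nf
    rw [e1]
    have h6 : 2 ^ (p + d) ≤ (2 ^ (M * H')) ^ 2 * Z.n x (p + d) ^ (2 * d) := by
      calc 2 ^ (p + d) = 2 ^ p * 2 ^ d := pow_add _ _ _
        _ ≤ (2 ^ (M * H')) ^ 2 * 2 ^ (2 * d) := by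
            apply Nat.mul_le_mul
            · rw [← pow_mul]
              exact Nat.pow_le_pow_right (by norm_num) (by omega)
            · exact Nat.pow_le_pow_right (by norm_num) (by omega)
        _ ≤ _ := Nat.mul_le_mul_left _ (Nat.pow_le_pow_left hn2 _)
    calc Z.n x (p + d) ^ (2 * p) * 2 ^ (p + d)
        ≤ Z.n x (p + d) ^ (2 * p) * ((2 ^ (M * H')) ^ 2 * Z.n x (p + d) ^ (2 * d)) :=
          Nat.mul_le_mul_left _ h6
      _ = _ := by ring

/-- A2: upper bound -/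
theorem ev_ub (Z : Sp) (x : Σ m, Z.E m) (p : ℕ) :
    nrm p (Z.ev x) ≤ (p + 3) * zz Z.M x.1 (Z.h x.1 (p + 2) x.2) := by
  set z := zz Z.M x.1 (Z.h x.1 (p + 2) x.2) with hz
  have hz0 : 0 < z := by rw [hz]; unfold zz; positivity
  have hinj := a2u_h62_inj Z x
  have hterm : ∀ k, ‖Z.ev x (Z.pos x k)‖ ^ 2 * (((Z.pos x k : ℕ) : ℝ) + 1) ^ (2 * p)
      ≤ z ^ 2 * (1 / 2) ^ k := by
    intro k
    have hn2 : 2 ≤ Z.n x k := (n_sq Z x k).1
    have hposn : (((Z.pos x k : ℕ) : ℝ) + 1) = (Z.n x k : ℝ) := by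
      unfold Sp.pos
      rw [Nat.cast_sub (by omega)]
      push_cast
      ring
    have hN : (0 : ℝ) < (Z.n x k : ℝ) := by
      have : (2 : ℝ) ≤ (Z.n x k : ℝ) := by exact_mod_cast hn2
      linarith
    rw [ev_pos Z x x k, if_pos rfl, hposn, norm_inv, norm_pow, Complex.norm_natCast]
    have hkey : ((Z.n x k : ℝ)) ^ (2 * p) * 2 ^ k ≤ z ^ 2 * (Z.n x k : ℝ) ^ (2 * k) := by
      have := a2u_h62_key Z x p k
      rw [hz]
      unfold zz
      exact_mod_cast this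
    have e2 : (((Z.n x k : ℝ) ^ k)⁻¹) ^ 2 = ((Z.n x k : ℝ) ^ (2 * k))⁻¹ := by
      rw [inv_pow, ← pow_mul, mul_comm k 2]
    rw [e2, one_div, inv_pow, inv_mul_eq_div, ← div_eq_mul_inv, div_le_div_iff₀ (by positivity)
      (by positivity)]
    exact hkey
  have hsupp : Function.support (fun j : ℕ => ‖Z.ev x j‖ ^ 2 * ((j : ℝ) + 1) ^ (2 * p)) ⊆
      Set.range (Z.pos x) := by
    intro j hj
    by_contra hne
    apply hj
    have : Z.ev x j = 0 := by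
      unfold Sp.ev
      rw [Function.extend_apply' _ _ _ (fun ⟨k, hk⟩ => hne ⟨k, hk⟩)]
      rfl
    simp [this]
  have hgeo : Summable fun k : ℕ => z ^ 2 * (1 / 2 : ℝ) ^ k :=
    (summable_geometric_two).mul_left _
  have hts : ∑' j : ℕ, ‖Z.ev x j‖ ^ 2 * ((j : ℝ) + 1) ^ (2 * p) ≤ z ^ 2 * 2 := by
    rw [← hinj.tsum_eq hsupp]
    calc _ ≤ ∑' k : ℕ, z ^ 2 * (1 / 2 : ℝ) ^ k :=
          Summable.tsum_le_tsum hterm
            (Summable.of_nonneg_of_le (fun k => by positivity) hterm hgeo) hgeo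
      _ = z ^ 2 * 2 := by rw [tsum_mul_left, tsum_geometric_two]
  unfold nrm
  calc Real.sqrt _ ≤ Real.sqrt ((2 * z) ^ 2) := Real.sqrt_le_sqrt (by nlinarith [sq_nonneg z])
    _ = 2 * z := Real.sqrt_sq (by positivity)
    _ ≤ (p + 3) * z := by
        have : (0 : ℝ) ≤ p := Nat.cast_nonneg p
        nlinarith

theorem a2u_h62_chk : type_of% @ev_ub := @ev_ub

end Pool.Agent.QC
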