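import Pool.Agent.Lib_helper17.QC.DefsA
import Pool.Agent.Lib_helper79.QE.Nrm

/-! Block A4 of project QC (MP_8c9f67_an): a criterion for a basis of a closed subspace of `s`. -/

open Filter Topology QE

namespace Pool.Agent.QC

theorem inS_of_emb_h79 {x : ℕ → ℂ} (h : ∀ q, Memℓp (emb q x) 2) : InS x := by
  intro q
  have h2 := (h q).summable (by norm_num)
  refine h2.congr ?_
  intro n
  rw [← norm_emb_sq]
  norm_num

theorem conv_of_summable_h79 (g : ℕ → ℕ → ℂ) (hg : ∀ j, InS (g j))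
    (hs : ∀ p, Summable fun j => nrm p (g j)) :
    ∃ η, InS η ∧ Conv (fun n => ∑ j ∈ Finset.range n, g j) η := by
  have hG : ∀ q, Summable fun j => embL (hg j) q := fun q =>
    Summable.of_norm ((hs q).congr (fun j => nrm_eq_norm (hg j) q))
  have hcoord : ∀ q k, HasSum (fun j => emb q (g j) k)
      ((∑' j, embL (hg j) q : lp (fun _ : ℕ => ℂ) 2) k) := by
    intro q k
    have h1 := (hG q).hasSum
    exact h1.mapL (lp.evalCLM ℂ (fun _ : ℕ => ℂ) 2 k)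
  have hη : ∀ q, emb q (fun k => ∑' j, g j k) = (∑' j, embL (hg j) q : lp (fun _ : ℕ => ℂ) 2) := by
    intro q
    funext k
    rw [← (hcoord q k).tsum_eq]
    simp only [emb]
    rw [tsum_mul_right]
  have hin : InS (fun k => ∑' j, g j k) := by
    refine inS_of_emb_h79 (fun q => ?_)
    rw [hη]
    exact lp.memℓp _
  refine ⟨fun k => ∑' j, g j k, hin, fun q => ?_⟩
  have hS : ∀ n, InS (∑ j ∈ Finset.range n, g j) := by
    intro n
    induction n with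
    | zero => simpa using InS.zero
    | succ n ih => rw [Finset.sum_range_succ]; exact ih.add (hg n)
  have hD : ∀ n, InS ((∑ j ∈ Finset.range n, g j) - fun k => ∑' j, g j k) := by
    intro n
    have := (hS n).add (hin.smul (-1))
    rwa [neg_one_smul, ← sub_eq_add_neg] at this
  have h1 := (hG q).hasSum.tendsto_sum_nat
  rw [tendsto_iff_norm_sub_tendsto_zero] at h1
  refine h1.congr (fun n => ?_)
  rw [nrm_eq_norm (hD n)]
  congr 1
  apply Subtype.ext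
  rw [lp.coeFn_sub, lp.coeFn_sum, ← hη q]
  funext k
  simp [emb, embL, sub_mul, Finset.sum_mul]

theorem lim_phi_h79 {X : Submodule ℂ (ℕ → ℂ)} (φ : (ℕ → ℂ) →ₗ[ℂ] ℂ)
    (hφ : ∃ q, ∃ C : ℝ, ∀ ξ ∈ X, ‖φ ξ‖ ≤ C * nrm q ξ) {u : ℕ → ℕ → ℂ} {x : ℕ → ℂ}
    (hu : ∀ n, u n ∈ X) (hx : x ∈ X) (h : Conv u x) : Tendsto (fun n => φ (u n)) atTop (𝓝 (φ x)) := by
  obtain ⟨q, C, hC⟩ := hφ
  rw [tendsto_iff_norm_sub_tendsto_zero]
  have h1 := (h q).const_mul C
  rw [mul_zero] at h1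
  refine squeeze_zero (fun n => norm_nonneg _) (fun n => ?_) h1
  rw [← map_sub]
  exact hC _ (X.sub_mem (hu n) hx)

theorem phi_sum_h79 (f : ℕ → ℕ → ℂ) (φ : ℕ → (ℕ → ℂ) →ₗ[ℂ] ℂ)
    (hφf : ∀ i j, φ i (f j) = if i = j then 1 else 0) (c : ℕ → ℂ) (i : ℕ) :
    Tendsto (fun n => φ i (∑ j ∈ Finset.range n, c j • f j)) atTop (𝓝 (c i)) := by
  refine tendsto_const_nhds.congr' ?_
  filter_upwards [eventually_gt_atTop i] with n hn
  rw [map_sum]
  simp only [map_smul, hφf, smul_eq_mul, mul_ite, mul_one, mul_zero]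
  rw [Finset.sum_ite_eq, if_pos (Finset.mem_range.2 hn)]

/-- A4: the general criterion: biorthogonal functionals with absolutely convergent expansions. -/
theorem basis_crit (X : Submodule ℂ (ℕ → ℂ)) (hX : ClosedSub X) (f : ℕ → ℕ → ℂ)
    (hf : ∀ j, f j ∈ X) (φ : ℕ → (ℕ → ℂ) →ₗ[ℂ] ℂ)
    (hφc : ∀ j, ∃ q, ∃ C : ℝ, ∀ ξ ∈ X, ‖φ j ξ‖ ≤ C * nrm q ξ)
    (hφf : ∀ i j, φ i (f j) = if i = j then 1 else 0)
    (habs : ∀ ξ ∈ X, ∀ p, Summable fun j => ‖φ j ξ‖ * nrm p (f j))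
    (hsep : ∀ ξ ∈ X, (∀ j, φ j ξ = 0) → ξ = 0) : IsBasis X f := by
  have hmem : ∀ (c : ℕ → ℂ) n, (∑ j ∈ Finset.range n, c j • f j) ∈ X := fun c n =>
    X.sum_mem (fun j _ => X.smul_mem _ (hf j))
  refine ⟨hf, fun x hx => ?_⟩
  obtain ⟨η, hη, hc⟩ := conv_of_summable_h79 (fun j => φ j x • f j)
    (fun j => hX.inS _ (X.smul_mem _ (hf j)))
    (fun p => (habs x hx p).congr (fun j => by rw [nrm_smul]))
  have hηX : η ∈ X := hX.closed _ η (hmem (fun j => φ j x)) hη hc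
  have h1 : ∀ i, φ i η = φ i x := fun i =>
    tendsto_nhds_unique (lim_phi_h79 (φ i) (hφc i) (hmem (fun j => φ j x)) hηX hc)
      (phi_sum_h79 f φ hφf (fun j => φ j x) i)
  have h2 : η = x := by
    have := hsep (η - x) (X.sub_mem hηX hx) (fun j => by rw [map_sub, h1, sub_self])
    exact sub_eq_zero.1 this
  subst h2
  refine ⟨fun j => φ j η, hc, fun c' hc' => ?_⟩
  funext i
  exact tendsto_nhds_unique (phi_sum_h79 f φ hφf c' i)
    (lim_phi_h79 (φ i) (hφc i) (hmem c') hx hc')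

end Pool.Agent.QC
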