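import Pool.Agent.Lib_helper17.QC.P_A2
import Pool.Agent.Lib_helper17.QC.P_A2u
import Pool.Agent.Lib_helper17.QC.P_A3
import Pool.Agent.Lib_helper17.QC.P_A4
import Pool.Agent.Lib_helper79.QE.Nrm

open Filter Topology QE

namespace Pool.Agent.QC

theorem a5_nrm_sum_h22 {α : Type} (s : Finset α) (c : α → ℂ) (v : α → ℕ → ℂ)
    (hv : ∀ a, InS (v a)) (p : ℕ) :
    InS (∑ a ∈ s, c a • v a) ∧ nrm p (∑ a ∈ s, c a • v a) ≤ ∑ a ∈ s, ‖c a‖ * nrm p (v a) := by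
  classical
  induction s using Finset.induction_on with
  | empty => simp [InS.zero, nrm_zero]
  | insert a s ha ih =>
    rw [Finset.sum_insert ha, Finset.sum_insert ha]
    refine ⟨((hv a).smul (c a)).add ih.1, ?_⟩
    refine (nrm_add_le ((hv a).smul (c a)) ih.1 p).trans ?_
    rw [nrm_smul]
    linarith [ih.2]

/-- the dual functionals -/
noncomputable def a5_phi_h22 (Z : Sp) (F : ℕ → Type) (S : ∀ m, Z.E m → F m → ℤ)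
    (s : Σ m, F m) : (ℕ → ℂ) →ₗ[ℂ] ℂ :=
  ∑ y : Z.E s.1, (S s.1 y s.2 : ℂ) • LinearMap.proj (Z.pos ⟨s.1, y⟩ 0)

theorem a5_phi_apply_h22 (Z : Sp) (F : ℕ → Type) (S : ∀ m, Z.E m → F m → ℤ)
    (s : Σ m, F m) (ξ : ℕ → ℂ) :
    a5_phi_h22 Z F S s ξ = ∑ y : Z.E s.1, (S s.1 y s.2 : ℂ) * ξ (Z.pos ⟨s.1, y⟩ 0) := by
  unfold a5_phi_h22
  simp [LinearMap.sum_apply]

theorem a5_fv_pos_h22 (Z : Sp) (F : ℕ → Type) (T : ∀ m, F m → Z.E m → ℤ) (t : Σ m, F m)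
    (w : Σ m, Z.E m) :
    Z.fv T t (Z.pos w 0) = ∑ x : Z.E t.1, (T t.1 t.2 x : ℂ) * (if (⟨t.1, x⟩ : Σ m, Z.E m) = w
      then 1 else 0) := by
  unfold Sp.fv
  rw [Finset.sum_apply]
  apply Finset.sum_congr rfl
  intro x _
  rw [Pi.smul_apply, smul_eq_mul, ev_pos]
  simp

theorem a5_dual_h22 (Z : Sp) (F : ℕ → Type) [∀ m, Fintype (F m)] [∀ m, DecidableEq (F m)]
    (T : ∀ m, F m → Z.E m → ℤ) (S : ∀ m, Z.E m → F m → ℤ)
    (TS : ∀ m x y, ∑ e, T m x e * S m e y = if x = y then 1 else 0) (s t : Σ m, F m) :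
    a5_phi_h22 Z F S s (Z.fv T t) = if s = t then 1 else 0 := by
  rw [a5_phi_apply_h22]
  obtain ⟨m, i⟩ := s
  obtain ⟨m', i'⟩ := t
  by_cases hm : m = m'
  · subst hm
    have h1 : ∀ y : Z.E m, Z.fv T ⟨m, i'⟩ (Z.pos ⟨m, y⟩ 0) = (T m i' y : ℂ) := by
      intro y
      rw [a5_fv_pos_h22]
      have : ∀ x : Z.E m, ((⟨m, x⟩ : Σ m, Z.E m) = ⟨m, y⟩) = (x = y) := by
        intro x; simp
      simp only [this]
      simp
    simp only [h1]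
    have h2 : ((∑ e, T m i' e * S m e i : ℤ) : ℂ) = ((if i' = i then 1 else 0 : ℤ) : ℂ) := by
      rw [TS m i' i]
    push_cast at h2
    have h3 : ∑ y : Z.E m, (S m y i : ℂ) * (T m i' y : ℂ) = if i' = i then 1 else 0 := by
      rw [← h2]
      apply Finset.sum_congr rfl
      intro y _
      ring
    rw [h3]
    by_cases hi : i = i'
    · subst hi; simp
    · rw [if_neg (fun h => hi h.symm), if_neg]
      intro h
      apply hi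
      simpa using h
  · rw [if_neg (fun h => hm (congrArg Sigma.fst h))]
    apply Finset.sum_eq_zero
    intro y _
    rw [a5_fv_pos_h22]
    have : ∑ x : Z.E (⟨m', i'⟩ : Σ m, F m).1, (T m' i' x : ℂ) *
        (if (⟨m', x⟩ : Σ m, Z.E m) = ⟨m, y⟩ then 1 else 0) = 0 := by
      apply Finset.sum_eq_zero
      intro x _
      rw [if_neg, mul_zero]
      intro h
      exact hm (congrArg Sigma.fst h).symm
    rw [this, mul_zero]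

theorem a5_pos_h22 (Z : Sp) (x : Σ m, Z.E m) (k : ℕ) : ((Z.pos x k : ℝ)) + 1 = (Z.n x k : ℝ) := by
  have h := (n_sq Z x k).1
  unfold Sp.pos
  rw [Nat.cast_sub (by omega)]
  simp

theorem a5_coord_h22 (Z : Sp) (ξ : ℕ → ℂ) (hξ : ξ ∈ Z.X) (x : Σ m, Z.E m) (p : ℕ) :
    ‖ξ (Z.pos x 0)‖ * zz Z.M x.1 (Z.h x.1 (p + 4) x.2) ≤
      nrm (p + 6) ξ * (((2 : ℝ) ^ Z.M x.1)⁻¹ * ((3 : ℝ) ^ Z.code x)⁻¹) := by
  obtain ⟨h1, h2, _⟩ := hξ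
  have hk := h2 x (p + 3)
  have hc := coord_le ξ h1 (p + 6) (Z.pos x (p + 3))
  rw [a5_pos_h22] at hc
  have hn : ‖ξ (Z.pos x 0)‖ = (Z.n x (p + 3) : ℝ) ^ (p + 3) * ‖ξ (Z.pos x (p + 3))‖ := by
    rw [← hk, norm_mul, norm_pow, Complex.norm_natCast]
  have h3 : ‖ξ (Z.pos x 0)‖ * (Z.n x (p + 3) : ℝ) ^ 3 ≤ nrm (p + 6) ξ := by
    rw [hn]
    calc (Z.n x (p + 3) : ℝ) ^ (p + 3) * ‖ξ (Z.pos x (p + 3))‖ * (Z.n x (p + 3) : ℝ) ^ 3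
        = ‖ξ (Z.pos x (p + 3))‖ * (Z.n x (p + 3) : ℝ) ^ (p + 6) := by ring
      _ ≤ _ := hc
  have hnz : (Z.n x (p + 3) : ℝ) = 3 ^ Z.code x * zz Z.M x.1 (Z.h x.1 (p + 4) x.2) := by
    unfold Sp.n zz
    push_cast
    rfl
  have hz1 : (2 : ℝ) ^ Z.M x.1 ≤ zz Z.M x.1 (Z.h x.1 (p + 4) x.2) := by
    unfold zz
    apply pow_le_pow_right₀ (by norm_num)
    exact Nat.le_mul_of_pos_right _ (by positivity)
  have h2M : (1 : ℝ) ≤ (2 : ℝ) ^ Z.M x.1 := one_le_pow₀ (by norm_num)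
  have h3c : (1 : ℝ) ≤ (3 : ℝ) ^ Z.code x := one_le_pow₀ (by norm_num)
  set z := zz Z.M x.1 (Z.h x.1 (p + 4) x.2) with hz
  have hz0 : 0 < z := by linarith
  have h4 : z * (2 : ℝ) ^ Z.M x.1 * (3 : ℝ) ^ Z.code x ≤ (Z.n x (p + 3) : ℝ) ^ 3 := by
    rw [hnz]
    have e1 : (3 : ℝ) ^ Z.code x ≤ (3 ^ Z.code x) ^ 3 := by
      calc (3 : ℝ) ^ Z.code x = (3 ^ Z.code x) ^ 1 := (pow_one _).symm
        _ ≤ _ := pow_le_pow_right₀ h3c (by norm_num)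
    have e2 : z * (2 : ℝ) ^ Z.M x.1 ≤ z ^ 3 := by
      have hz1' : 1 ≤ z := h2M.trans hz1
      calc z * (2 : ℝ) ^ Z.M x.1 ≤ z * z := mul_le_mul_of_nonneg_left hz1 hz0.le
        _ = z ^ 2 := by ring
        _ ≤ z ^ 3 := pow_le_pow_right₀ hz1' (by norm_num)
    calc z * (2 : ℝ) ^ Z.M x.1 * (3 : ℝ) ^ Z.code x ≤ z ^ 3 * (3 ^ Z.code x) ^ 3 :=
          mul_le_mul e2 e1 (by positivity) (by positivity)
      _ = (3 ^ Z.code x * z) ^ 3 := by ring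
  have h5 : ‖ξ (Z.pos x 0)‖ * (z * (2 : ℝ) ^ Z.M x.1 * (3 : ℝ) ^ Z.code x) ≤ nrm (p + 6) ξ :=
    (mul_le_mul_of_nonneg_left h4 (norm_nonneg _)).trans h3
  rw [← mul_inv, ← div_eq_mul_inv, le_div_iff₀ (by positivity)]
  calc ‖ξ (Z.pos x 0)‖ * z * ((2 : ℝ) ^ Z.M x.1 * (3 : ℝ) ^ Z.code x)
      = ‖ξ (Z.pos x 0)‖ * (z * (2 : ℝ) ^ Z.M x.1 * (3 : ℝ) ^ Z.code x) := by ring
    _ ≤ _ := h5

theorem a5_zz_mono_h22 (M : ℕ → ℕ) (m : ℕ) {r s : ℕ} (h : r ≤ s) : zz M m r ≤ zz M m s := by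
  unfold zz
  apply pow_le_pow_right₀ (by norm_num)
  exact Nat.mul_le_mul_left _ (Nat.pow_le_pow_right (by norm_num) h)

/-- the majorant -/
noncomputable def a5_G_h22 (Z : Sp) (F : ℕ → Type) (T : ∀ m, F m → Z.E m → ℤ)
    (S : ∀ m, Z.E m → F m → ℤ) (s : Σ m, F m) : ℝ :=
  ∑ y : Z.E s.1, ∑ z : Z.E s.1, (|(S s.1 y s.2 : ℝ)| * |(T s.1 s.2 z : ℝ)|) *
    (((2 : ℝ) ^ Z.M s.1)⁻¹ * ((3 : ℝ) ^ Z.code ⟨s.1, y⟩)⁻¹)

theorem a5_bound_h22 (Z : Sp) (F : ℕ → Type) [∀ m, Fintype (F m)] [∀ m, DecidableEq (F m)]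
    (T : ∀ m, F m → Z.E m → ℤ) (S : ∀ m, Z.E m → F m → ℤ)
    (he : ∀ m p x y z, S m y x ≠ 0 → T m x z ≠ 0 → Z.h m p z ≤ Z.h m (p + 2) y)
    (ξ : ℕ → ℂ) (hξ : ξ ∈ Z.X) (p : ℕ) (s : Σ m, F m) :
    ‖a5_phi_h22 Z F S s ξ‖ * nrm p (Z.fv T s) ≤
      ((p + 3) * nrm (p + 6) ξ) * a5_G_h22 Z F T S s := by
  have h1 : ‖a5_phi_h22 Z F S s ξ‖ ≤
      ∑ y : Z.E s.1, |(S s.1 y s.2 : ℝ)| * ‖ξ (Z.pos ⟨s.1, y⟩ 0)‖ := by
    rw [a5_phi_apply_h22]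
    refine (norm_sum_le _ _).trans (le_of_eq ?_)
    apply Finset.sum_congr rfl
    intro y _
    rw [norm_mul, Complex.norm_intCast]
  have h2 : nrm p (Z.fv T s) ≤ ∑ z : Z.E s.1, |(T s.1 s.2 z : ℝ)| * nrm p (Z.ev ⟨s.1, z⟩) := by
    unfold Sp.fv
    refine ((a5_nrm_sum_h22 Finset.univ (fun z : Z.E s.1 => (T s.1 s.2 z : ℂ))
      (fun z => Z.ev ⟨s.1, z⟩) (fun z => (ev_mem Z _).1) p).2).trans (le_of_eq ?_)
    apply Finset.sum_congr rfl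
    intro z _
    rw [Complex.norm_intCast]
  have h0 : 0 ≤ nrm p (Z.fv T s) := nrm_nonneg _ _
  refine (mul_le_mul h1 h2 h0 (Finset.sum_nonneg (fun y _ => by positivity))).trans ?_
  rw [Finset.sum_mul_sum]
  unfold a5_G_h22
  rw [Finset.mul_sum]
  apply Finset.sum_le_sum
  intro y _
  rw [Finset.mul_sum]
  apply Finset.sum_le_sum
  intro z _
  by_cases hS : S s.1 y s.2 = 0
  · rw [hS]; simp
  by_cases hT : T s.1 s.2 z = 0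
  · rw [hT]; simp
  have h3 := he s.1 (p + 2) s.2 y z hS hT
  have h4 : nrm p (Z.ev ⟨s.1, z⟩) ≤ (p + 3) * zz Z.M s.1 (Z.h s.1 (p + 4) y) := by
    refine (ev_ub Z ⟨s.1, z⟩ p).trans ?_
    apply mul_le_mul_of_nonneg_left _ (by positivity)
    exact a5_zz_mono_h22 Z.M s.1 h3
  have h5 := a5_coord_h22 Z ξ hξ ⟨s.1, y⟩ p
  dsimp only at h5
  have h6 : ‖ξ (Z.pos ⟨s.1, y⟩ 0)‖ * nrm p (Z.ev ⟨s.1, z⟩) ≤
      ((p + 3) * nrm (p + 6) ξ) *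
        (((2 : ℝ) ^ Z.M s.1)⁻¹ * ((3 : ℝ) ^ Z.code ⟨s.1, y⟩)⁻¹) := by
    calc ‖ξ (Z.pos ⟨s.1, y⟩ 0)‖ * nrm p (Z.ev ⟨s.1, z⟩)
        ≤ ‖ξ (Z.pos ⟨s.1, y⟩ 0)‖ * ((p + 3) * zz Z.M s.1 (Z.h s.1 (p + 4) y)) :=
          mul_le_mul_of_nonneg_left h4 (norm_nonneg _)
      _ = (p + 3) * (‖ξ (Z.pos ⟨s.1, y⟩ 0)‖ * zz Z.M s.1 (Z.h s.1 (p + 4) y)) := by ring
      _ ≤ (p + 3) * (nrm (p + 6) ξ *
          (((2 : ℝ) ^ Z.M s.1)⁻¹ * ((3 : ℝ) ^ Z.code ⟨s.1, y⟩)⁻¹)) :=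
          mul_le_mul_of_nonneg_left h5 (by positivity)
      _ = _ := by ring
  have h7 : 0 ≤ |(S s.1 y s.2 : ℝ)| * |(T s.1 s.2 z : ℝ)| := by positivity
  calc |(S s.1 y s.2 : ℝ)| * ‖ξ (Z.pos ⟨s.1, y⟩ 0)‖ *
        (|(T s.1 s.2 z : ℝ)| * nrm p (Z.ev ⟨s.1, z⟩))
      = (|(S s.1 y s.2 : ℝ)| * |(T s.1 s.2 z : ℝ)|) *
        (‖ξ (Z.pos ⟨s.1, y⟩ 0)‖ * nrm p (Z.ev ⟨s.1, z⟩)) := by ring
    _ ≤ (|(S s.1 y s.2 : ℝ)| * |(T s.1 s.2 z : ℝ)|) * _ := mul_le_mul_of_nonneg_left h6 h7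
    _ = _ := by ring

theorem a5_summ_h22 (Z : Sp) (F : ℕ → Type) [∀ m, Fintype (F m)] [∀ m, DecidableEq (F m)]
    (T : ∀ m, F m → Z.E m → ℤ) (S : ∀ m, Z.E m → F m → ℤ)
    (hk : ∀ m, ∑ y, ∑ x, ∑ z, |S m y x| * |T m x z| ≤ 2 ^ Z.M m) :
    Summable (a5_G_h22 Z F T S) := by
  have hG0 : ∀ s, 0 ≤ a5_G_h22 Z F T S s := fun s =>
    Finset.sum_nonneg (fun y _ => Finset.sum_nonneg (fun z _ => by positivity))
  rw [summable_sigma_of_nonneg hG0]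
  refine ⟨fun m => (hasSum_fintype _).summable, ?_⟩
  have hc : Summable (fun x : Σ m, Z.E m => ((3 : ℝ) ^ Z.code x)⁻¹) := by
    have hg : Summable (fun n : ℕ => ((3 : ℝ)⁻¹) ^ n) :=
      summable_geometric_of_lt_one (by norm_num) (by norm_num)
    have := hg.comp_injective Z.inj
    refine this.congr ?_
    intro x
    simp [Function.comp, inv_pow]
  have hs := hc.sigma
  refine Summable.of_nonneg_of_le (fun m => tsum_nonneg (fun y => hG0 _)) (fun m => ?_) hs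
  rw [tsum_fintype, tsum_fintype]
  change ∑ x : F m, ∑ y : Z.E m, ∑ z : Z.E m, (|(S m y x : ℝ)| * |(T m x z : ℝ)|) *
      (((2 : ℝ) ^ Z.M m)⁻¹ * ((3 : ℝ) ^ Z.code ⟨m, y⟩)⁻¹) ≤ ∑ y : Z.E m, ((3 : ℝ) ^ Z.code ⟨m, y⟩)⁻¹
  rw [Finset.sum_comm]
  apply Finset.sum_le_sum
  intro y _
  have h1 : ∑ x : F m, ∑ z : Z.E m, (|(S m y x : ℝ)| * |(T m x z : ℝ)|) *
      (((2 : ℝ) ^ Z.M m)⁻¹ * ((3 : ℝ) ^ Z.code ⟨m, y⟩)⁻¹) =
      (∑ x : F m, ∑ z : Z.E m, (|(S m y x : ℝ)| * |(T m x z : ℝ)|)) *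
      (((2 : ℝ) ^ Z.M m)⁻¹ * ((3 : ℝ) ^ Z.code ⟨m, y⟩)⁻¹) := by
    rw [Finset.sum_mul]
    apply Finset.sum_congr rfl
    intro x _
    rw [Finset.sum_mul]
  rw [h1]
  have h2 : ∑ x : F m, ∑ z : Z.E m, (|(S m y x : ℝ)| * |(T m x z : ℝ)|) ≤ (2 : ℝ) ^ Z.M m := by
    have h3 : ∑ x : F m, ∑ z : Z.E m, |S m y x| * |T m x z| ≤ (2 : ℤ) ^ Z.M m := by
      refine le_trans ?_ (hk m)
      exact Finset.single_le_sum (f := fun y => ∑ x : F m, ∑ z : Z.E m, |S m y x| * |T m x z|)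
        (fun y _ => Finset.sum_nonneg (fun x _ => Finset.sum_nonneg (fun z _ => by positivity)))
        (Finset.mem_univ y)
    have h4 : ((∑ x : F m, ∑ z : Z.E m, |S m y x| * |T m x z| : ℤ) : ℝ) ≤
        (((2 : ℤ) ^ Z.M m : ℤ) : ℝ) := by exact_mod_cast h3
    push_cast at h4
    exact h4
  have h2M : (0 : ℝ) < (2 : ℝ) ^ Z.M m := by positivity
  calc (∑ x : F m, ∑ z : Z.E m, (|(S m y x : ℝ)| * |(T m x z : ℝ)|)) *
        (((2 : ℝ) ^ Z.M m)⁻¹ * ((3 : ℝ) ^ Z.code ⟨m, y⟩)⁻¹)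
      ≤ (2 : ℝ) ^ Z.M m * (((2 : ℝ) ^ Z.M m)⁻¹ * ((3 : ℝ) ^ Z.code ⟨m, y⟩)⁻¹) :=
        mul_le_mul_of_nonneg_right h2 (by positivity)
    _ = ((3 : ℝ) ^ Z.code ⟨m, y⟩)⁻¹ := by
        rw [← mul_assoc, mul_inv_cancel₀ h2M.ne', one_mul]

theorem basis_fv (Z : Sp) (F : ℕ → Type) [∀ m, Fintype (F m)] [∀ m, DecidableEq (F m)]
    (T : ∀ m, F m → Z.E m → ℤ) (S : ∀ m, Z.E m → F m → ℤ)
    (TS : ∀ m x y, ∑ e, T m x e * S m e y = if x = y then 1 else 0)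
    (ST : ∀ m x y, ∑ f, S m x f * T m f y = if x = y then 1 else 0)
    (he : ∀ m p x y z, S m y x ≠ 0 → T m x z ≠ 0 → Z.h m p z ≤ Z.h m (p + 2) y)
    (hk : ∀ m, ∑ y, ∑ x, ∑ z, |S m y x| * |T m x z| ≤ 2 ^ Z.M m)
    (ι : ℕ ≃ Σ m, F m) : IsBasis Z.X (fun n => Z.fv T (ι n)) := by
  apply basis_crit Z.X (X_closed Z) _ _ (fun n => a5_phi_h22 Z F S (ι n))
  · intro j
    refine ⟨0, ∑ y, |(S (ι j).1 y (ι j).2 : ℝ)|, fun ξ hξ => ?_⟩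
    rw [a5_phi_apply_h22, Finset.sum_mul]
    refine (norm_sum_le _ _).trans ?_
    apply Finset.sum_le_sum
    intro y _
    rw [norm_mul, Complex.norm_intCast]
    apply mul_le_mul_of_nonneg_left _ (abs_nonneg _)
    have := coord_le ξ hξ.1 0 (Z.pos ⟨(ι j).1, y⟩ 0)
    rwa [pow_zero, mul_one] at this
  · intro i j
    rw [a5_dual_h22 Z F T S TS]
    by_cases h : i = j
    · rw [if_pos h, if_pos (congrArg ι h)]
    · rw [if_neg h, if_neg (fun h' => h (ι.injective h'))]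
  · intro ξ hξ p
    have h1 := (a5_summ_h22 Z F T S hk).mul_left ((p + 3) * nrm (p + 6) ξ)
    have h2 := (ι.summable_iff).mpr h1
    refine Summable.of_nonneg_of_le (fun j => mul_nonneg (norm_nonneg _) (nrm_nonneg _ _))
      (fun j => ?_) h2
    exact a5_bound_h22 Z F T S he ξ hξ p (ι j)
  · intro ξ hξ h
    have h1 : ∀ x : Σ m, Z.E m, ξ (Z.pos x 0) = 0 := by
      rintro ⟨m, y⟩
      have h2 : ∀ i : F m, ∑ y : Z.E m, (S m y i : ℂ) * ξ (Z.pos ⟨m, y⟩ 0) = 0 := by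
        intro i
        have h3 := h (ι.symm ⟨m, i⟩)
        rw [Equiv.apply_symm_apply, a5_phi_apply_h22] at h3
        exact h3
      have h4 : ∑ x : Z.E m, (∑ i : F m, (S m x i : ℂ) * (T m i y : ℂ)) *
          ξ (Z.pos ⟨m, x⟩ 0) = 0 := by
        have h5 : ∑ i : F m, (T m i y : ℂ) *
            ∑ x : Z.E m, (S m x i : ℂ) * ξ (Z.pos ⟨m, x⟩ 0) = 0 :=
          Finset.sum_eq_zero (fun i _ => by rw [h2 i, mul_zero])
        rw [← h5]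
        simp only [Finset.sum_mul, Finset.mul_sum]
        rw [Finset.sum_comm]
        apply Finset.sum_congr rfl
        intro i _
        apply Finset.sum_congr rfl
        intro x _
        ring
      have h6 : ∀ x : Z.E m, ∑ i : F m, (S m x i : ℂ) * (T m i y : ℂ) =
          if x = y then 1 else 0 := by
        intro x
        have h7 : ((∑ i, S m x i * T m i y : ℤ) : ℂ) = ((if x = y then 1 else 0 : ℤ) : ℂ) := by
          rw [ST m x y]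
        push_cast at h7
        exact h7
      simp only [h6] at h4
      simpa using h4
    funext j
    by_cases hj : ∀ x k, Z.pos x k ≠ j
    · exact hξ.2.2 j hj
    · push Not at hj
      obtain ⟨x, k, rfl⟩ := hj
      have h8 := hξ.2.1 x k
      rw [h1 x] at h8
      have h9 : ((Z.n x k : ℂ)) ^ k ≠ 0 := by
        apply pow_ne_zero
        have := (n_sq Z x k).1
        exact_mod_cast (by omega : Z.n x k ≠ 0)
      exact (mul_eq_zero.mp h8).resolve_left h9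
  · intro j
    apply Submodule.sum_mem
    intro x _
    exact Submodule.smul_mem _ _ (ev_mem Z _)

end Pool.Agent.QC
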