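import Pool.Agent.Lib_helper17.QC.P_A2
import Pool.Agent.Lib_helper17.QC.P_A2u
import Pool.Agent.Lib_helper79.QE.Nrm

/-! QC, block A6 -/

open Filter Topology QE

namespace Pool.Agent.QC

lemma inS_ev_h40 (Z : Sp) (x : Σ m, Z.E m) : InS (Z.ev x) := (ev_mem Z x).1

lemma fv_inS_nrm_h40 (Z : Sp) (m : ℕ) (s : Finset (Z.E m)) (c : Z.E m → ℂ) (q : ℕ) :
    InS (∑ x ∈ s, c x • Z.ev ⟨m, x⟩) ∧
      nrm q (∑ x ∈ s, c x • Z.ev ⟨m, x⟩) ≤ ∑ x ∈ s, ‖c x‖ * nrm q (Z.ev ⟨m, x⟩) := by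
  classical
  induction s using Finset.induction_on with
  | empty => exact ⟨by simpa using InS.zero, by simp [nrm_zero]⟩
  | insert a s ha ih =>
    rw [Finset.sum_insert ha, Finset.sum_insert ha]
    refine ⟨((inS_ev_h40 Z _).smul _).add ih.1, ?_⟩
    refine (nrm_add_le ((inS_ev_h40 Z _).smul _) ih.1 q).trans ?_
    rw [nrm_smul]
    linarith [ih.2]

lemma fv_coord_h40 (Z : Sp) {F : ℕ → Type} (T : ∀ m, F m → Z.E m → ℤ) (i : Σ m, F m)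
    (e : Z.E i.1) (k : ℕ) :
    Z.fv T i (Z.pos ⟨i.1, e⟩ k) = (T i.1 i.2 e : ℂ) * (((Z.n ⟨i.1, e⟩ k : ℂ)) ^ k)⁻¹ := by
  unfold Sp.fv
  rw [Finset.sum_apply]
  rw [Finset.sum_eq_single e]
  · rw [Pi.smul_apply, smul_eq_mul, ev_pos]
    simp
  · intro b _ hb
    rw [Pi.smul_apply, smul_eq_mul, ev_pos]
    have : (⟨i.1, b⟩ : Σ m, Z.E m) ≠ ⟨i.1, e⟩ := by
      intro h
      apply hb
      simpa using h
    simp [this]
  · intro h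
    exact absurd (Finset.mem_univ e) h

lemma pos_succ_h40 (Z : Sp) (x : Σ m, Z.E m) (k : ℕ) : ((Z.pos x k : ℕ) : ℝ) + 1 = Z.n x k := by
  have h := (n_sq Z x k).1
  unfold Sp.pos
  rw [Nat.cast_sub (by omega)]
  simp

theorem fv_lb (Z : Sp) (F : ℕ → Type) [∀ m, Fintype (F m)] [∀ m, DecidableEq (F m)]
    (T : ∀ m, F m → Z.E m → ℤ) (S : ∀ m, Z.E m → F m → ℤ)
    (TS : ∀ m x y, ∑ e, T m x e * S m e y = if x = y then 1 else 0)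
    (g : ∀ m, ℕ → F m → ℕ) (hS : ∀ m p x y, S m y x ≠ 0 → g m p x ≤ Z.h m (p + 1) y)
    (i : Σ m, F m) (p : ℕ) :
    1 ≤ nrm 0 (Z.fv T i) ∧ zz Z.M i.1 (g i.1 p i.2) ≤ nrm (p + 1) (Z.fv T i) := by
  obtain ⟨e, -, he⟩ : ∃ e ∈ (Finset.univ : Finset (Z.E i.1)),
      T i.1 i.2 e * S i.1 e i.2 ≠ 0 := by
    apply Finset.exists_ne_zero_of_sum_ne_zero
    rw [TS]
    simp
  have hT : T i.1 i.2 e ≠ 0 := left_ne_zero_of_mul he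
  have hSe : S i.1 e i.2 ≠ 0 := right_ne_zero_of_mul he
  have hin : InS (Z.fv T i) :=
    (fv_inS_nrm_h40 Z i.1 Finset.univ (fun x => (T i.1 i.2 x : ℂ)) 0).1
  have hTn : (1 : ℝ) ≤ ‖(T i.1 i.2 e : ℂ)‖ := by
    rw [Complex.norm_intCast]
    exact_mod_cast Int.one_le_abs hT
  constructor
  · have h := coord_le (Z.fv T i) hin 0 (Z.pos ⟨i.1, e⟩ 0)
    rw [fv_coord_h40, pow_zero, pow_zero, inv_one, mul_one, mul_one] at h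
    exact hTn.trans h
  · have h := coord_le (Z.fv T i) hin (p + 1) (Z.pos ⟨i.1, e⟩ p)
    rw [fv_coord_h40, pos_succ_h40, norm_mul, norm_inv, norm_pow, Complex.norm_natCast] at h
    have hn2 : (2 : ℝ) ≤ Z.n ⟨i.1, e⟩ p := by exact_mod_cast (n_sq Z ⟨i.1, e⟩ p).1
    have hnpos : (0 : ℝ) < Z.n ⟨i.1, e⟩ p := by linarith
    have h2 : ‖(T i.1 i.2 e : ℂ)‖ * (((Z.n ⟨i.1, e⟩ p : ℝ)) ^ p)⁻¹ * (Z.n ⟨i.1, e⟩ p : ℝ) ^ (p + 1)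
        = ‖(T i.1 i.2 e : ℂ)‖ * (Z.n ⟨i.1, e⟩ p : ℝ) := by
      rw [pow_succ]
      field_simp
    rw [h2] at h
    have h3 : (zz Z.M i.1 (g i.1 p i.2)) ≤ (Z.n ⟨i.1, e⟩ p : ℝ) := by
      unfold zz Sp.n
      have h4 : Z.M i.1 * 4 ^ g i.1 p i.2 ≤ Z.M i.1 * 4 ^ Z.h i.1 (p + 1) e :=
        Nat.mul_le_mul_left _ (Nat.pow_le_pow_right (by norm_num) (hS i.1 p i.2 e hSe))
      have h5 : 2 ^ (Z.M i.1 * 4 ^ g i.1 p i.2) ≤ 3 ^ Z.code ⟨i.1, e⟩ *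
          2 ^ (Z.M i.1 * 4 ^ Z.h i.1 (p + 1) e) := by
        calc 2 ^ (Z.M i.1 * 4 ^ g i.1 p i.2) ≤ 2 ^ (Z.M i.1 * 4 ^ Z.h i.1 (p + 1) e) :=
              Nat.pow_le_pow_right (by norm_num) h4
          _ ≤ _ := Nat.le_mul_of_pos_left _ (by positivity)
      exact_mod_cast h5
    have h6 : (Z.n ⟨i.1, e⟩ p : ℝ) ≤ ‖(T i.1 i.2 e : ℂ)‖ * (Z.n ⟨i.1, e⟩ p : ℝ) :=
      le_mul_of_one_le_left hnpos.le hTn
    linarith

theorem fv_ub (Z : Sp) (F : ℕ → Type) [∀ m, Fintype (F m)] [∀ m, DecidableEq (F m)]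
    (T : ∀ m, F m → Z.E m → ℤ)
    (g : ∀ m, ℕ → F m → ℕ) (hg : ∀ m p x, g m p x < g m (p + 1) x)
    (hT : ∀ m p x y, T m x y ≠ 0 → Z.h m p y ≤ g m (p + 1) x)
    (hk : ∀ m x, ∑ z, |T m x z| ≤ 2 ^ Z.M m) (i : Σ m, F m) (p : ℕ) :
    nrm p (Z.fv T i) ≤ (p + 3) * zz Z.M i.1 (g i.1 (p + 4) i.2) := by
  have h1 := (fv_inS_nrm_h40 Z i.1 Finset.univ (fun x => (T i.1 i.2 x : ℂ)) p).2
  refine le_trans h1 ?_
  set B : ℝ := (p + 3) * zz Z.M i.1 (g i.1 (p + 3) i.2) with hB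
  have hzpos : ∀ r, 0 < zz Z.M i.1 r := fun r => by unfold zz; positivity
  have hterm : ∀ x : Z.E i.1, ‖(T i.1 i.2 x : ℂ)‖ * nrm p (Z.ev ⟨i.1, x⟩) ≤
      (|T i.1 i.2 x| : ℝ) * B := by
    intro x
    rw [Complex.norm_intCast]
    by_cases h0 : T i.1 i.2 x = 0
    · simp [h0]
    · apply mul_le_mul_of_nonneg_left _ (by positivity)
      refine (ev_ub Z ⟨i.1, x⟩ p).trans ?_
      rw [hB]
      apply mul_le_mul_of_nonneg_left _ (by positivity)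
      unfold zz
      apply pow_le_pow_right₀ (by norm_num)
      exact Nat.mul_le_mul_left _ (Nat.pow_le_pow_right (by norm_num) (hT i.1 (p + 2) i.2 x h0))
  refine (Finset.sum_le_sum fun x _ => hterm x).trans ?_
  rw [← Finset.sum_mul]
  have hk' : (∑ x : Z.E i.1, (|T i.1 i.2 x| : ℝ)) ≤ 2 ^ Z.M i.1 := by
    have := hk i.1 i.2
    exact_mod_cast this
  have hBpos : 0 ≤ B := by rw [hB]; have := hzpos (g i.1 (p + 3) i.2); positivity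
  refine (mul_le_mul_of_nonneg_right hk' hBpos).trans ?_
  rw [hB]
  have h5 : (2 : ℝ) ^ Z.M i.1 * zz Z.M i.1 (g i.1 (p + 3) i.2) ≤
      zz Z.M i.1 (g i.1 (p + 4) i.2) := by
    unfold zz
    rw [← pow_add]
    apply pow_le_pow_right₀ (by norm_num)
    have h6 : g i.1 (p + 3) i.2 + 1 ≤ g i.1 (p + 4) i.2 := hg i.1 (p + 3) i.2
    have h7 : 4 ^ (g i.1 (p + 3) i.2 + 1) ≤ 4 ^ g i.1 (p + 4) i.2 :=
      Nat.pow_le_pow_right (by norm_num) h6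
    have h8 : 1 ≤ 4 ^ g i.1 (p + 3) i.2 := Nat.one_le_pow _ _ (by norm_num)
    have h9 : 1 + 4 ^ g i.1 (p + 3) i.2 ≤ 4 ^ g i.1 (p + 4) i.2 := by
      rw [pow_succ] at h7
      omega
    calc Z.M i.1 + Z.M i.1 * 4 ^ g i.1 (p + 3) i.2 = Z.M i.1 * (1 + 4 ^ g i.1 (p + 3) i.2) := by
          ring
      _ ≤ _ := Nat.mul_le_mul_left _ h9
  calc (2 : ℝ) ^ Z.M i.1 * ((p + 3) * zz Z.M i.1 (g i.1 (p + 3) i.2))
      = (p + 3) * (2 ^ Z.M i.1 * zz Z.M i.1 (g i.1 (p + 3) i.2)) := by ring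
    _ ≤ _ := mul_le_mul_of_nonneg_left h5 (by positivity)



end Pool.Agent.QC
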