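import Pool.Agent.Lib_helper17.QC.DefsA

/-!
# Block A7 of project QC (MP_8c9f67_an): the numerical core of the negative part
-/

open Filter Topology

namespace Pool.Agent.QC

theorem a7_half_h63 {I : Type*} (u v : ℕ → I → ℝ) (a b : ℕ → I → ℕ)
    (u0 : ∀ i, 1 ≤ u 0 i) (ul : ∀ p i, (2 : ℝ) ^ a p i ≤ u (p + 1) i)
    (uu : ∀ p i, u p i ≤ ((p : ℝ) + 3) * 2 ^ a (p + 4) i)
    (v0 : ∀ i, 1 ≤ v 0 i) (vl : ∀ p i, (2 : ℝ) ^ b p i ≤ v (p + 1) i)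
    (vu : ∀ p i, v p i ≤ ((p : ℝ) + 3) * 2 ^ b (p + 4) i)
    (lam : I → ℝ) (hlam : ∀ i, 0 < lam i)
    (h1 : ∀ p, ∃ q, ∃ C : ℝ, ∀ i, lam i * v p i ≤ C * u q i)
    (h2 : ∃ q, ∃ C : ℝ, ∀ i, u 0 i ≤ C * (lam i * v q i)) :
    ∃ s, ∀ p, ∃ Q c : ℕ, ∀ i, b p i ≤ c + a Q i + b s i := by
  obtain ⟨r, D, hD⟩ := h2
  refine ⟨r + 4, fun p => ?_⟩
  obtain ⟨q, C, hC⟩ := h1 (p + 1)
  have up : ∀ p i, 0 ≤ u p i := by
    intro p i
    rcases p with _ | p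
    · linarith [u0 i]
    · exact le_trans (by positivity) (ul p i)
  have vp : ∀ p i, 0 ≤ v p i := by
    intro p i
    rcases p with _ | p
    · linarith [v0 i]
    · exact le_trans (by positivity) (vl p i)
  obtain ⟨c, hc⟩ := pow_unbounded_of_one_lt (|D| * |C| * ((q : ℝ) + 3) * ((r : ℝ) + 3))
    (by norm_num : (1 : ℝ) < 2)
  refine ⟨q + 4, c, fun i => ?_⟩
  have e1 : (1 : ℝ) ≤ |D| * (lam i * v r i) :=
    le_trans (u0 i) (le_trans (hD i)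
      (mul_le_mul_of_nonneg_right (le_abs_self D) (mul_nonneg (hlam i).le (vp _ _))))
  have e2 : lam i * v (p + 1) i ≤ |C| * u q i :=
    le_trans (hC i) (mul_le_mul_of_nonneg_right (le_abs_self C) (up _ _))
  have key : (2 : ℝ) ^ b p i ≤ 2 ^ (c + a (q + 4) i + b (r + 4) i) := by
    calc (2 : ℝ) ^ b p i ≤ v (p + 1) i := vl p i
      _ = v (p + 1) i * 1 := by ring
      _ ≤ v (p + 1) i * (|D| * (lam i * v r i)) := mul_le_mul_of_nonneg_left e1 (vp _ _)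
      _ = |D| * (lam i * v (p + 1) i) * v r i := by ring
      _ ≤ |D| * (|C| * u q i) * v r i :=
          mul_le_mul_of_nonneg_right (mul_le_mul_of_nonneg_left e2 (abs_nonneg D)) (vp _ _)
      _ ≤ |D| * (|C| * (((q : ℝ) + 3) * 2 ^ a (q + 4) i)) * (((r : ℝ) + 3) * 2 ^ b (r + 4) i) := by
          have f1 := uu q i
          have f2 := vu r i
          have f3 := up q i
          have f4 := vp r i
          have g1 : |D| * (|C| * u q i) ≤ |D| * (|C| * (((q : ℝ) + 3) * 2 ^ a (q + 4) i)) :=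
            mul_le_mul_of_nonneg_left (mul_le_mul_of_nonneg_left f1 (abs_nonneg C)) (abs_nonneg D)
          exact mul_le_mul g1 f2 f4 (by positivity)
      _ = (|D| * |C| * ((q : ℝ) + 3) * ((r : ℝ) + 3)) * (2 ^ a (q + 4) i * 2 ^ b (r + 4) i) := by
          ring
      _ ≤ 2 ^ c * (2 ^ a (q + 4) i * 2 ^ b (r + 4) i) :=
          mul_le_mul_of_nonneg_right hc.le (by positivity)
      _ = _ := by rw [pow_add, pow_add]; ring
  exact (pow_le_pow_iff_right₀ (by norm_num)).1 key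

theorem a7_blk_h63 {A W c m G G' : ℕ} (hG : G < G') (h : A * 4 ^ G' ≤ c + W + A * 4 ^ G)
    (hW : m + W ≤ A) (hc : c < m) : False := by
  have h1 : 4 ^ (G + 1) ≤ 4 ^ G' := Nat.pow_le_pow_right (by norm_num) hG
  have h2 : A * 4 ^ (G + 1) ≤ A * 4 ^ G' := Nat.mul_le_mul_left A h1
  have h3 : 1 ≤ 4 ^ G := Nat.one_le_pow _ _ (by norm_num)
  have h4 : A * 1 ≤ A * 4 ^ G := Nat.mul_le_mul_left A h3
  have h5 : A * 4 ^ (G + 1) = 4 * (A * 4 ^ G) := by rw [pow_succ]; ring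
  omega

theorem a7_ht_h63 {A c g h s : ℕ} (hs : s < g) (h1 : A * 4 ^ g ≤ c + A * 4 ^ h + A * 4 ^ s)
    (hc : c ≤ A) (hA : 1 ≤ A) : g ≤ h := by
  by_contra hlt
  push Not at hlt
  have e1 : A * 4 ^ (h + 1) ≤ A * 4 ^ g :=
    Nat.mul_le_mul_left A (Nat.pow_le_pow_right (by norm_num) hlt)
  have e2 : A * 4 ^ (s + 1) ≤ A * 4 ^ g :=
    Nat.mul_le_mul_left A (Nat.pow_le_pow_right (by norm_num) hs)
  have e3 : A * 4 ^ (h + 1) = 4 * (A * 4 ^ h) := by rw [pow_succ]; ring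
  have e4 : A * 4 ^ (s + 1) = 4 * (A * 4 ^ s) := by rw [pow_succ]; ring
  have e5 : A * 4 ^ 1 ≤ A * 4 ^ g :=
    Nat.mul_le_mul_left A (Nat.pow_le_pow_right (by norm_num) (by omega))
  omega

/-- A7 -/
theorem core (F E : ℕ → Type) (gF : ∀ m, ℕ → F m → ℕ) (gE : ∀ m, ℕ → E m → ℕ)
    (hF : ∀ m p x, gF m p x < gF m (p + 1) x) (hE : ∀ m p x, gE m p x < gE m (p + 1) x)
    (M : ℕ → ℕ) (hM : ∀ m, m ≤ M m)
    (s1 : ∀ m m' r, m' < m → r ≤ m → ∀ y : E m', m + M m' * 4 ^ gE m' r y ≤ M m)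
    (s2 : ∀ m m' r, m' < m → r ≤ m → ∀ y : F m', m + M m' * 4 ^ gF m' r y ≤ M m)
    (U : ℕ → (Σ m, F m) → ℝ) (V : ℕ → (Σ m, E m) → ℝ)
    (U0 : ∀ i, 1 ≤ U 0 i) (Ul : ∀ p i, zz M i.1 (gF i.1 p i.2) ≤ U (p + 1) i)
    (Uu : ∀ p i, U p i ≤ (p + 3) * zz M i.1 (gF i.1 (p + 4) i.2))
    (V0 : ∀ i, 1 ≤ V 0 i) (Vl : ∀ p i, zz M i.1 (gE i.1 p i.2) ≤ V (p + 1) i)
    (Vu : ∀ p i, V p i ≤ (p + 3) * zz M i.1 (gE i.1 (p + 4) i.2))
    (τ : (Σ m, F m) → (Σ m, E m)) (lam : (Σ m, F m) → ℝ) (hlam : ∀ i, 0 < lam i)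
    (h1 : ∀ p, ∃ q, ∃ C : ℝ, ∀ i, lam i * V p (τ i) ≤ C * U q i)
    (h2 : ∀ p, ∃ q, ∃ C : ℝ, ∀ i, U p i ≤ C * (lam i * V q (τ i))) :
    ∃ (q : ℕ → ℕ) (p0 : ℕ), ∀ p1, ∃ m0, ∀ m, m0 ≤ m → ∀ i : F m, ∃ y : E m, τ ⟨m, i⟩ = ⟨m, y⟩ ∧
      ∀ p, p0 ≤ p → p ≤ p1 → gF m p i ≤ gE m (q p) y ∧ gE m p y ≤ gF m (q p) i := by
  have mF : ∀ m x, StrictMono fun p => gF m p x := fun m x =>
    strictMono_nat_of_lt_succ fun p => hF m p x
  have mE : ∀ m x, StrictMono fun p => gE m p x := fun m x =>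
    strictMono_nat_of_lt_succ fun p => hE m p x
  obtain ⟨s, hs⟩ := a7_half_h63 U (fun p i => V p (τ i))
    (fun p i => M i.1 * 4 ^ gF i.1 p i.2) (fun p i => M (τ i).1 * 4 ^ gE (τ i).1 p (τ i).2)
    U0 Ul Uu (fun i => V0 _) (fun p i => Vl p _) (fun p i => Vu p _) lam hlam h1 (h2 0)
  obtain ⟨t, ht⟩ := a7_half_h63 (fun p i => V p (τ i)) U
    (fun p i => M (τ i).1 * 4 ^ gE (τ i).1 p (τ i).2) (fun p i => M i.1 * 4 ^ gF i.1 p i.2)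
    (fun i => V0 _) (fun p i => Vl p _) (fun p i => Vu p _) U0 Ul Uu
    (fun i => (lam i)⁻¹) (fun i => inv_pos.2 (hlam i))
    (fun p => by
      obtain ⟨q, C, hC⟩ := h2 p
      refine ⟨q, C, fun i => ?_⟩
      have h3 := mul_le_mul_of_nonneg_left (hC i) (inv_pos.2 (hlam i)).le
      have h4 : (lam i)⁻¹ * (C * (lam i * V q (τ i))) = C * V q (τ i) := by
        have := (hlam i).ne'
        field_simp
      rwa [h4] at h3)
    (by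
      obtain ⟨q, C, hC⟩ := h1 0
      refine ⟨q, C, fun i => ?_⟩
      have h3 := mul_le_mul_of_nonneg_left (hC i) (inv_pos.2 (hlam i)).le
      have h4 : (lam i)⁻¹ * (lam i * V 0 (τ i)) = V 0 (τ i) := by
        have := (hlam i).ne'
        field_simp
      have h5 : (lam i)⁻¹ * (C * U q i) = C * ((lam i)⁻¹ * U q i) := by ring
      rwa [h4, h5] at h3)
  choose Q1 c1 hs using hs
  choose Q2 c2 ht using ht
  refine ⟨fun p => max (Q1 p) (Q2 p), max s t + 1, fun p1 => ?_⟩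
  refine ⟨(Finset.range (p1 + 1)).sup c1 + (Finset.range (p1 + 1)).sup c2 + c1 (s + 1) +
    c2 (t + 1) + Q1 (s + 1) + Q2 (t + 1) + 1, fun m hm i => ?_⟩
  have hs1 : ∀ p, M (τ ⟨m, i⟩).1 * 4 ^ gE (τ ⟨m, i⟩).1 p (τ ⟨m, i⟩).2 ≤
      c1 p + M m * 4 ^ gF m (Q1 p) i +
      M (τ ⟨m, i⟩).1 * 4 ^ gE (τ ⟨m, i⟩).1 s (τ ⟨m, i⟩).2 := fun p => hs p ⟨m, i⟩
  have ht1 : ∀ p, M m * 4 ^ gF m p i ≤
      c2 p + M (τ ⟨m, i⟩).1 * 4 ^ gE (τ ⟨m, i⟩).1 (Q2 p) (τ ⟨m, i⟩).2 +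
      M m * 4 ^ gF m t i := fun p => ht p ⟨m, i⟩
  generalize τ ⟨m, i⟩ = j at hs1 ht1 ⊢
  obtain ⟨m', y⟩ := j
  have hs' : ∀ p, M m' * 4 ^ gE m' p y ≤ c1 p + M m * 4 ^ gF m (Q1 p) i +
      M m' * 4 ^ gE m' s y := hs1
  have ht' : ∀ p, M m * 4 ^ gF m p i ≤ c2 p + M m' * 4 ^ gE m' (Q2 p) y +
      M m * 4 ^ gF m t i := ht1
  rcases lt_trichotomy m' m with hlt | heq | hgt
  · exact (a7_blk_h63 (hF m t i) (ht' (t + 1))
      (s1 m m' (Q2 (t + 1)) hlt (by omega) y) (by omega)).elim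
  · subst heq
    refine ⟨y, rfl, fun p hp hp1 => ?_⟩
    have k1 : c1 p ≤ (Finset.range (p1 + 1)).sup c1 :=
      Finset.le_sup (f := c1) (Finset.mem_range.2 (by omega))
    have k2 : c2 p ≤ (Finset.range (p1 + 1)).sup c2 :=
      Finset.le_sup (f := c2) (Finset.mem_range.2 (by omega))
    have k3 := hM m'
    have hps : s < p := by omega
    have hpt : t < p := by omega
    refine ⟨?_, ?_⟩
    · have := a7_ht_h63 (mF m' i hpt) (ht' p) (by omega) (by omega)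
      exact this.trans ((mE m' y).monotone (le_max_right _ _))
    · have := a7_ht_h63 (mE m' y hps) (hs' p) (by omega) (by omega)
      exact this.trans ((mF m' i).monotone (le_max_left _ _))
  · exact (a7_blk_h63 (hE m' s y) (hs' (s + 1))
      (s2 m' m (Q1 (s + 1)) hgt (by omega) i) (by omega)).elim

end Pool.Agent.QC
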