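import Pool.Agent.Lib_helper17.QC.P_A1
import Pool.Agent.Lib_helper17.QC.P_A2
import Pool.Agent.Lib_helper17.QC.P_A3
import Pool.Agent.Lib_helper17.QC.P_A5
import Pool.Agent.Lib_helper17.QC.P_A6
import Pool.Agent.Lib_helper17.QC.P_A7
import Pool.Agent.Lib_helper79.QE.Nrm

/-! # Block A8: the space attached to the sequence of blocks (MP_8c9f67_an) -/

open Filter Topology QE

namespace Pool.Agent.QC

/-- a nonempty block has vectors of both kinds -/
theorem blk_h26_E (B : Blk) (x : B.F) : Nonempty B.E := by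
  by_contra hE
  rw [not_nonempty_iff] at hE
  have h := B.TS x x
  rw [if_pos rfl] at h
  simp at h

/-- a bad block is nonempty -/
theorem bad_h26_F {B : Blk} {q : ℕ → ℕ} {p0 p1 : ℕ} (h : B.Bad q p0 p1) : Nonempty B.F := by
  obtain ⟨A, N, hc, _⟩ := h
  have h1 : 0 < A.card := by omega
  obtain ⟨x, _⟩ := Finset.card_pos.1 h1
  exact ⟨x⟩

/-- disjoint unions with arbitrarily late nonempty terms are infinite -/
theorem inf_h26 (G : ℕ → Type) (h : ∀ m0, ∃ m, m0 ≤ m ∧ Nonempty (G m)) :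
    Infinite (Σ m, G m) := by
  by_contra hfin
  rw [not_infinite_iff_finite] at hfin
  have h1 : (Set.range fun x : Σ m, G m => x.1).Finite := Set.finite_range _
  obtain ⟨b, hb⟩ := h1.bddAbove
  obtain ⟨m, hm, ⟨x⟩⟩ := h (b + 1)
  have h2 : m ≤ b := hb ⟨⟨m, x⟩, rfl⟩
  omega

/-- the vectors `ev` are linearly independent -/
theorem indep_h26 (Z : Sp) :
    LinearIndependent ℂ (fun x : Σ m, Z.E m => (⟨Z.ev x, ev_mem Z x⟩ : Z.X)) := by
  classical
  rw [linearIndependent_iff']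
  intro s g hg i hi
  have h1 := congrArg (fun v : Z.X => (v : ℕ → ℂ) (Z.pos i 0)) hg
  simp only [Submodule.coe_sum, Submodule.coe_smul, Finset.sum_apply, Pi.smul_apply, smul_eq_mul,
    Submodule.coe_zero, Pi.zero_apply] at h1
  rw [Finset.sum_eq_single i] at h1
  · rw [ev_pos, if_pos rfl] at h1
    simpa using h1
  · intro b _ hb
    rw [ev_pos, if_neg hb, mul_zero]
  · intro h
    exact absurd hi h

theorem fin_h26 (Z : Sp) (hE : Infinite (Σ m, Z.E m)) : ¬ FiniteDimensional ℂ Z.X := by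
  intro h
  have := (indep_h26 Z).finite
  exact not_finite (Σ m, Z.E m)

/-- the identity matrix -/
def idm_h26 (Z : Sp) (m : ℕ) (x y : Z.E m) : ℤ := if x = y then 1 else 0

theorem idm_mul_h26 (Z : Sp) (m : ℕ) (x y : Z.E m) :
    ∑ e, idm_h26 Z m x e * idm_h26 Z m e y = if x = y then 1 else 0 := by
  unfold idm_h26
  rw [Finset.sum_eq_single x]
  · rw [if_pos rfl, one_mul]
  · intro b _ hb
    rw [if_neg (Ne.symm hb), zero_mul]
  · intro h
    exact absurd (Finset.mem_univ _) h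

theorem idm_row_h26 (Z : Sp) (m : ℕ) (x : Z.E m) : ∑ z, |idm_h26 Z m x z| = 1 := by
  unfold idm_h26
  rw [Finset.sum_eq_single x]
  · rw [if_pos rfl, abs_one]
  · intro b _ hb
    rw [if_neg (Ne.symm hb), abs_zero]
  · intro h
    exact absurd (Finset.mem_univ _) h

theorem idm_sum_h26 (Z : Sp) (m : ℕ) :
    ∑ y, ∑ x, ∑ z, |idm_h26 Z m y x| * |idm_h26 Z m x z| = Fintype.card (Z.E m) := by
  have h1 : ∀ y x : Z.E m, ∑ z, |idm_h26 Z m y x| * |idm_h26 Z m x z| = |idm_h26 Z m y x| := by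
    intro y x
    rw [← Finset.mul_sum, idm_row_h26, mul_one]
  simp_rw [h1, idm_row_h26]
  simp

theorem idm_ne_h26 {Z : Sp} {m : ℕ} {x y : Z.E m} (h : idm_h26 Z m x y ≠ 0) : x = y := by
  unfold idm_h26 at h
  by_contra hxy
  rw [if_neg hxy] at h
  exact h rfl

/-- the negative part: the two bases of the space are not quasi-equivalent -/
theorem neg_h26 (Z : Sp) (F : ℕ → Type) [∀ m, Fintype (F m)] [∀ m, DecidableEq (F m)]
    (T : ∀ m, F m → Z.E m → ℤ) (S : ∀ m, Z.E m → F m → ℤ)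
    (TS : ∀ m x y, ∑ e, T m x e * S m e y = if x = y then 1 else 0)
    (g : ∀ m, ℕ → F m → ℕ) (hg : ∀ m p x, g m p x < g m (p + 1) x)
    (hS : ∀ m p x y, S m y x ≠ 0 → g m p x ≤ Z.h m (p + 1) y)
    (hT : ∀ m p x y, T m x y ≠ 0 → Z.h m p y ≤ g m (p + 1) x)
    (hk : ∀ m x, ∑ z, |T m x z| ≤ 2 ^ Z.M m)
    (hM : ∀ m, m ≤ Z.M m)
    (s1 : ∀ m m' r, m' < m → r ≤ m → ∀ y : Z.E m', m + Z.M m' * 4 ^ Z.h m' r y ≤ Z.M m)
    (s2 : ∀ m m' r, m' < m → r ≤ m → ∀ y : F m', m + Z.M m' * 4 ^ g m' r y ≤ Z.M m)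
    (hbad : ∀ (q : ℕ → ℕ) (p0 : ℕ), ∃ p1, ∀ m0, ∃ m, m0 ≤ m ∧
      ∃ (A : Finset (F m)) (N : Finset (Z.E m)), N.card < A.card ∧ ∀ x ∈ A, ∀ y,
        (∀ p, p0 ≤ p → p ≤ p1 → g m p x ≤ Z.h m (q p) y ∧ Z.h m p y ≤ g m (q p) x) → y ∈ N)
    (ιF : ℕ ≃ Σ m, F m) (ιE : ℕ ≃ Σ m, Z.E m) (hf : ∀ n, Z.fv T (ιF n) ∈ Z.X)
    (hgm : ∀ n, Z.fv (idm_h26 Z) (ιE n) ∈ Z.X) :
    ¬ QuasiEquiv Z.X (fun n => Z.fv T (ιF n)) (fun n => Z.fv (idm_h26 Z) (ιE n)) := by
  rintro ⟨σ, lam, W, hlam, ⟨hW1, hW2⟩, hW⟩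
  set U : ℕ → (Σ m, F m) → ℝ := fun p i => nrm p (Z.fv T i) with hU
  set V : ℕ → (Σ m, Z.E m) → ℝ := fun p i => nrm p (Z.fv (idm_h26 Z) i) with hV
  set τ : (Σ m, F m) → (Σ m, Z.E m) := fun i => ιE (σ (ιF.symm i)) with hτ
  have hτinj : Function.Injective τ :=
    ιE.injective.comp (σ.injective.comp ιF.symm.injective)
  -- values of `W`
  have hWv : ∀ i : Σ m, F m, ∀ h : Z.fv T i ∈ Z.X,
      (W ⟨Z.fv T i, h⟩ : ℕ → ℂ) = lam (ιF.symm i) • Z.fv (idm_h26 Z) (τ i) := by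
    intro i h
    have h1 := hW (ιF.symm i)
    simp only [Equiv.apply_symm_apply] at h1
    exact h1 h
  have hmem : ∀ i : Σ m, F m, Z.fv T i ∈ Z.X := by
    intro i
    have := hf (ιF.symm i)
    rwa [Equiv.apply_symm_apply] at this
  have hn : ∀ p (i : Σ m, F m), nrm p (W ⟨Z.fv T i, hmem i⟩ : ℕ → ℂ) =
      ‖lam (ιF.symm i)‖ * V p (τ i) := by
    intro p i
    rw [hWv i (hmem i), nrm_smul]
  obtain ⟨q, p0, hq⟩ := core F Z.E g Z.h hg Z.mono Z.M hM s1 s2 U V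
    (fun i => (fv_lb Z F T S TS g hS i 0).1)
    (fun p i => (fv_lb Z F T S TS g hS i p).2)
    (fun p i => fv_ub Z F T g hg hT hk i p)
    (fun i => (fv_lb Z Z.E (idm_h26 Z) (idm_h26 Z) (idm_mul_h26 Z) Z.h
      (fun m p x y h => by rw [idm_ne_h26 h]; exact (Z.mono m p x).le) i 0).1)
    (fun p i => (fv_lb Z Z.E (idm_h26 Z) (idm_h26 Z) (idm_mul_h26 Z) Z.h
      (fun m p x y h => by rw [idm_ne_h26 h]; exact (Z.mono m p x).le) i p).2)
    (fun p i => fv_ub Z Z.E (idm_h26 Z) Z.h Z.mono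
      (fun m p x y h => by rw [idm_ne_h26 h]; exact (Z.mono m p y).le)
      (fun m x => by rw [idm_row_h26]; exact one_le_pow₀ (by norm_num)) i p)
    τ (fun i => ‖lam (ιF.symm i)‖) (fun i => norm_pos_iff.2 (hlam _))
    (fun p => by
      obtain ⟨q, C, hC⟩ := hW1 p
      refine ⟨q, C, fun i => ?_⟩
      have := hC ⟨Z.fv T i, hmem i⟩
      rwa [hn] at this)
    (fun p => by
      obtain ⟨q, C, hC⟩ := hW2 p
      refine ⟨q, C, fun i => ?_⟩
      have := hC (W ⟨Z.fv T i, hmem i⟩)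
      rwa [LinearEquiv.symm_apply_apply, hn] at this)
  obtain ⟨p1, hp1⟩ := hbad q p0
  obtain ⟨m0, hm0⟩ := hq p1
  obtain ⟨m, hm, A, N, hc, hAN⟩ := hp1 m0
  choose φ hφ1 hφ2 using hm0 m hm
  have hφinj : Function.Injective φ := by
    intro x y hxy
    have h1 : τ ⟨m, x⟩ = τ ⟨m, y⟩ := by rw [hφ1, hφ1, hxy]
    have h2 := hτinj h1
    exact eq_of_heq (Sigma.mk.inj h2).2
  have h3 : A.card ≤ N.card :=
    Finset.card_le_card_of_injOn φ (fun x hx => hAN x hx (φ x) (hφ2 x)) hφinj.injOn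
  omega

theorem anal (B : ℕ → Blk)
    (hB : ∀ (q : ℕ → ℕ) (p0 : ℕ), ∃ p1, ∀ m0, ∃ m, m0 ≤ m ∧ (B m).Bad q p0 p1) :
    ∃ X : Submodule ℂ (ℕ → ℂ), ClosedSub X ∧ ¬ FiniteDimensional ℂ X ∧
      ∃ f g : ℕ → ℕ → ℂ, IsBasis X f ∧ IsBasis X g ∧ ¬ QuasiEquiv X f g := by
  classical
  obtain ⟨code, hcode⟩ := Countable.exists_injective_nat (Σ m, (B m).E)
  -- the constants
  set κ : ℕ → ℕ := fun m => (∑ x : (B m).E, 3 ^ code ⟨m, x⟩) +
    (∑ y, ∑ x, ∑ z, |(B m).S y x| * |(B m).T x z|).toNat +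
    (∑ x, ∑ z, |(B m).T x z|).toNat with hκ
  obtain ⟨M, hM1, hMκ, hMm, hs1, hs2⟩ := scales (fun m => (B m).E) (fun m => (B m).F)
    (fun m => (B m).hE) (fun m => (B m).hF) κ
  let Z : Sp :=
    { E := fun m => (B m).E
      fE := fun m => (B m).fE
      dE := fun m => (B m).dE
      h := fun m => (B m).hE
      mono := fun m p x => (B m).mE p x
      M := M
      M1 := hM1
      code := code
      inj := hcode
      hM := fun x => by
        refine le_trans ?_ (hMκ x.1)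
        have h1 : 3 ^ code x ≤ ∑ y : (B x.1).E, 3 ^ code ⟨x.1, y⟩ :=
          Finset.single_le_sum (f := fun y : (B x.1).E => 3 ^ code ⟨x.1, y⟩)
            (fun _ _ => Nat.zero_le _) (Finset.mem_univ x.2)
        simp only [hκ]
        omega }
  have hk1 : ∀ m, ∑ y, ∑ x, ∑ z, |(B m).S y x| * |(B m).T x z| ≤ 2 ^ M m := by
    intro m
    have h1 : ((∑ y, ∑ x, ∑ z, |(B m).S y x| * |(B m).T x z|).toNat : ℤ) ≤ (2 ^ M m : ℕ) := by
      have := hMκ m
      simp only [hκ] at this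
      exact_mod_cast (by omega)
    refine (Int.self_le_toNat _).trans (h1.trans ?_)
    push_cast
    exact le_rfl
  have hk2 : ∀ m x, ∑ z, |(B m).T x z| ≤ 2 ^ M m := by
    intro m x
    have h0 : ∑ z, |(B m).T x z| ≤ ∑ x, ∑ z, |(B m).T x z| :=
      Finset.single_le_sum (f := fun x => ∑ z, |(B m).T x z|)
        (fun _ _ => Finset.sum_nonneg fun _ _ => abs_nonneg _) (Finset.mem_univ x)
    have h1 : ((∑ x, ∑ z, |(B m).T x z|).toNat : ℤ) ≤ (2 ^ M m : ℕ) := by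
      have := hMκ m
      simp only [hκ] at this
      exact_mod_cast (by omega)
    refine h0.trans ((Int.self_le_toNat _).trans (h1.trans ?_))
    push_cast
    exact le_rfl
  -- infinitely many blocks are nonempty
  have hne : ∀ m0, ∃ m, m0 ≤ m ∧ Nonempty (B m).F := by
    intro m0
    obtain ⟨p1, hp1⟩ := hB id 0
    obtain ⟨m, hm, hbad⟩ := hp1 m0
    exact ⟨m, hm, bad_h26_F hbad⟩
  have hIF : Infinite (Σ m, (B m).F) := inf_h26 _ hne
  have hIE : Infinite (Σ m, (B m).E) := by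
    apply inf_h26
    intro m0
    obtain ⟨m, hm, ⟨x⟩⟩ := hne m0
    exact ⟨m, hm, blk_h26_E (B m) x⟩
  obtain ⟨ιF⟩ : Nonempty (ℕ ≃ Σ m, (B m).F) := nonempty_equiv_of_countable
  obtain ⟨ιE⟩ : Nonempty (ℕ ≃ Σ m, Z.E m) := (nonempty_equiv_of_countable : Nonempty (ℕ ≃ Σ m, (B m).E))
  have hbF : IsBasis Z.X (fun n => Z.fv (fun m => (B m).T) (ιF n)) :=
    basis_fv Z (fun m => (B m).F) (fun m => (B m).T) (fun m => (B m).S) (fun m => (B m).TS)
      (fun m => (B m).ST)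
      (fun m p x y z h1 h2 => ((B m).eT p x z h2).trans ((B m).eS (p + 1) x y h1)) hk1 ιF
  have hbE : IsBasis Z.X (fun n => Z.fv (idm_h26 Z) (ιE n)) := by
    refine basis_fv Z Z.E (idm_h26 Z) (idm_h26 Z) (idm_mul_h26 Z) (idm_mul_h26 Z) ?_ ?_ ιE
    · intro m p x y z h1 h2
      rw [idm_ne_h26 h1, ← idm_ne_h26 h2]
      exact ((Z.mono m p x).le).trans (Z.mono m (p + 1) x).le
    · intro m
      rw [idm_sum_h26]
      have h1 : Fintype.card (B m).E ≤ ∑ x : (B m).E, 3 ^ code ⟨m, x⟩ := by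
        rw [Fintype.card_eq_sum_ones]
        exact Finset.sum_le_sum fun x _ => Nat.one_le_pow _ _ (by norm_num)
      have h2 : Fintype.card (B m).E ≤ 2 ^ M m := by
        have := hMκ m
        simp only [hκ] at this
        omega
      exact_mod_cast h2
  refine ⟨Z.X, X_closed Z, fin_h26 Z hIE, fun n => Z.fv (fun m => (B m).T) (ιF n),
    fun n => Z.fv (idm_h26 Z) (ιE n), hbF, hbE, ?_⟩
  refine neg_h26 Z (fun m => (B m).F) (fun m => (B m).T) (fun m => (B m).S) (fun m => (B m).TS)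
    (fun m => (B m).hF) (fun m => (B m).mF) (fun m p x y h => (B m).eS p x y h)
    (fun m p x y h => (B m).eT p x y h) hk2 hMm hs1 hs2 ?_ ιF ιE hbF.mem hbE.mem
  intro q p0
  obtain ⟨p1, hp1⟩ := hB q p0
  refine ⟨p1, fun m0 => ?_⟩
  obtain ⟨m, hm, hbad⟩ := hp1 m0
  exact ⟨m, hm, hbad⟩

end Pool.Agent.QC
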