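import Pool.Agent.Lib_helper17.QC.Defs

namespace Pool.Agent.QC

/-- the contribution of one window -/
def glc_h22 (P0 D Λ : ℕ) (l : ℕ → ℕ) (p : ℕ) : ℕ :=
  if p < P0 then 0 else if p ≤ P0 + D then l (p - P0) else Λ

theorem glc_step_h22 (P0 D Λ : ℕ) (l l' : ℕ → ℕ) (h : ∀ i, i < D → l i ≤ l' (i + 1))
    (hΛ : ∀ i, i ≤ D → l i ≤ Λ) (p : ℕ) :
    glc_h22 P0 D Λ l p ≤ glc_h22 P0 D Λ l' (p + 1) := by
  unfold glc_h22
  by_cases h1 : p < P0
  · rw [if_pos h1]; exact Nat.zero_le _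
  · rw [if_neg h1, if_neg (by omega : ¬ p + 1 < P0)]
    by_cases h2 : p + 1 ≤ P0 + D
    · rw [if_pos (by omega : p ≤ P0 + D), if_pos h2]
      have := h (p - P0) (by omega)
      rwa [show p + 1 - P0 = p - P0 + 1 by omega]
    · rw [if_neg h2]
      by_cases h3 : p ≤ P0 + D
      · rw [if_pos h3]
        exact hΛ _ (by omega)
      · rw [if_neg h3]

theorem gl_P_mono_h22 (p0 : ℕ) (D : ℕ → ℕ) {v w : ℕ} (h : v ≤ w) : P p0 D v ≤ P p0 D w := by
  induction h with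
  | refl => exact le_rfl
  | step _ ih => exact ih.trans (by simp only [P]; omega)

theorem gl_P_succ_h22 (p0 : ℕ) (D : ℕ → ℕ) (v : ℕ) : P p0 D (v + 1) = P p0 D v + D v + 1 := rfl

/-- the global height -/
def glh_h22 (p0 : ℕ) (D : ℕ → ℕ) (Q Λ : ℕ) (l : ℕ → ℕ → ℕ) (p : ℕ) : ℕ :=
  p + Q * ∑ w ∈ Finset.range 5, glc_h22 (P p0 D w) (D w) Λ (l w) p

theorem glh_step_h22 (p0 : ℕ) (D : ℕ → ℕ) (Q Λ : ℕ) (l l' : ℕ → ℕ → ℕ)
    (h : ∀ w i, i < D w → l w i ≤ l' w (i + 1))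
    (hΛ : ∀ w, w < 5 → ∀ i, i ≤ D w → l w i ≤ Λ) (p : ℕ) :
    glh_h22 p0 D Q Λ l p < glh_h22 p0 D Q Λ l' (p + 1) := by
  unfold glh_h22
  have h1 : ∑ w ∈ Finset.range 5, glc_h22 (P p0 D w) (D w) Λ (l w) p ≤
      ∑ w ∈ Finset.range 5, glc_h22 (P p0 D w) (D w) Λ (l' w) (p + 1) := by
    apply Finset.sum_le_sum
    intro w hw
    exact glc_step_h22 _ _ _ _ _ (h w) (hΛ w (Finset.mem_range.mp hw)) p
  have h2 := Nat.mul_le_mul_left Q h1
  omega

theorem glh_comp_h22 (p0 : ℕ) (D : ℕ → ℕ) (Q Λ : ℕ) (l l' : ℕ → ℕ → ℕ) (w : ℕ) (hw : w < 5)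
    (hQ : D w < Q)
    (h : glh_h22 p0 D Q Λ l (P p0 D w) ≤ glh_h22 p0 D Q Λ l' (P p0 D w + D w)) :
    l w 0 ≤ l' w (D w) := by
  unfold glh_h22 at h
  have hw' : w ∈ Finset.range 5 := Finset.mem_range.mpr hw
  rw [← Finset.add_sum_erase _ _ hw', ← Finset.add_sum_erase _ _ hw'] at h
  have h1 : ∑ v ∈ (Finset.range 5).erase w, glc_h22 (P p0 D v) (D v) Λ (l v) (P p0 D w) =
      ∑ v ∈ (Finset.range 5).erase w, glc_h22 (P p0 D v) (D v) Λ (l' v) (P p0 D w + D w) := by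
    apply Finset.sum_congr rfl
    intro v hv
    have hvw : v ≠ w := (Finset.mem_erase.mp hv).1
    unfold glc_h22
    rcases lt_or_gt_of_ne hvw with hlt | hgt
    · have h3 := gl_P_mono_h22 p0 D (show v + 1 ≤ w from hlt)
      rw [gl_P_succ_h22] at h3
      rw [if_neg (by omega), if_neg (by omega), if_neg (by omega), if_neg (by omega)]
    · have h3 := gl_P_mono_h22 p0 D (show w + 1 ≤ v from hgt)
      rw [gl_P_succ_h22] at h3
      rw [if_pos (by omega), if_pos (by omega)]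
  rw [h1] at h
  have h4 : glc_h22 (P p0 D w) (D w) Λ (l w) (P p0 D w) = l w 0 := by
    unfold glc_h22
    rw [if_neg (lt_irrefl _), if_pos (by omega), Nat.sub_self]
  have h5 : glc_h22 (P p0 D w) (D w) Λ (l' w) (P p0 D w + D w) = l' w (D w) := by
    unfold glc_h22
    rw [if_neg (by omega), if_pos le_rfl, Nat.add_sub_cancel_left]
  rw [h4, h5, Nat.mul_add, Nat.mul_add] at h
  by_contra hcon
  push Not at hcon
  have h6 : Q * (l' w (D w) + 1) ≤ Q * l w 0 := Nat.mul_le_mul_left Q hcon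
  rw [Nat.mul_add, Nat.mul_one] at h6
  omega

theorem glue {F E : Type} [Fintype F] [Fintype E] (T : F → E → ℤ) (S : E → F → ℤ) (p0 : ℕ)
    (D : ℕ → ℕ) (lF : ℕ → ℕ → F → ℕ) (lE : ℕ → ℕ → E → ℕ)
    (mF : ∀ w i x, i < D w → lF w i x ≤ lF w (i + 1) x)
    (mE : ∀ w i y, i < D w → lE w i y ≤ lE w (i + 1) y)
    (eT : ∀ w i x y, i < D w → T x y ≠ 0 → lE w i y ≤ lF w (i + 1) x)
    (eS : ∀ w i x y, i < D w → S y x ≠ 0 → lF w i x ≤ lE w (i + 1) y) :
    ∃ (hF : ℕ → F → ℕ) (hE : ℕ → E → ℕ), (∀ p x, hF p x < hF (p + 1) x) ∧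
      (∀ p y, hE p y < hE (p + 1) y) ∧
      (∀ p x y, T x y ≠ 0 → hE p y ≤ hF (p + 1) x) ∧
      (∀ p x y, S y x ≠ 0 → hF p x ≤ hE (p + 1) y) ∧
      ∀ w, w < 5 → ∀ x y,
        (hF (P p0 D w) x ≤ hE (P p0 D w + D w) y → lF w 0 x ≤ lE w (D w) y) ∧
        (hE (P p0 D w) y ≤ hF (P p0 D w + D w) x → lE w 0 y ≤ lF w (D w) x) := by
  obtain ⟨Λ, hΛF, hΛE⟩ : ∃ Λ : ℕ, (∀ w, w < 5 → ∀ i, i ≤ D w → ∀ x, lF w i x ≤ Λ) ∧
      (∀ w, w < 5 → ∀ i, i ≤ D w → ∀ y, lE w i y ≤ Λ) := by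
    refine ⟨∑ w ∈ Finset.range 5, ∑ i ∈ Finset.range (D w + 1),
      ((∑ x, lF w i x) + ∑ y, lE w i y), ?_, ?_⟩
    · intro w hw i hi x
      calc lF w i x ≤ ∑ x, lF w i x :=
            Finset.single_le_sum (f := fun x => lF w i x) (fun _ _ => Nat.zero_le _)
              (Finset.mem_univ x)
        _ ≤ (∑ x, lF w i x) + ∑ y, lE w i y := Nat.le_add_right _ _
        _ ≤ ∑ i ∈ Finset.range (D w + 1), ((∑ x, lF w i x) + ∑ y, lE w i y) :=
            Finset.single_le_sum (f := fun i => (∑ x, lF w i x) + ∑ y, lE w i y)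
              (fun _ _ => Nat.zero_le _) (Finset.mem_range.mpr (by omega))
        _ ≤ _ := Finset.single_le_sum (f := fun w => ∑ i ∈ Finset.range (D w + 1),
              ((∑ x, lF w i x) + ∑ y, lE w i y))
              (fun _ _ => Nat.zero_le _) (Finset.mem_range.mpr hw)
    · intro w hw i hi y
      calc lE w i y ≤ ∑ y, lE w i y :=
            Finset.single_le_sum (f := fun y => lE w i y) (fun _ _ => Nat.zero_le _)
              (Finset.mem_univ y)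
        _ ≤ (∑ x, lF w i x) + ∑ y, lE w i y := Nat.le_add_left _ _
        _ ≤ ∑ i ∈ Finset.range (D w + 1), ((∑ x, lF w i x) + ∑ y, lE w i y) :=
            Finset.single_le_sum (f := fun i => (∑ x, lF w i x) + ∑ y, lE w i y)
              (fun _ _ => Nat.zero_le _) (Finset.mem_range.mpr (by omega))
        _ ≤ _ := Finset.single_le_sum (f := fun w => ∑ i ∈ Finset.range (D w + 1),
              ((∑ x, lF w i x) + ∑ y, lE w i y))
              (fun _ _ => Nat.zero_le _) (Finset.mem_range.mpr hw)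
  obtain ⟨Q, hQ⟩ : ∃ Q : ℕ, ∀ w, w < 5 → D w < Q := by
    refine ⟨1 + ∑ w ∈ Finset.range 5, D w, fun w hw => ?_⟩
    have := Finset.single_le_sum (f := D) (s := Finset.range 5) (fun _ _ => Nat.zero_le _)
      (Finset.mem_range.mpr hw)
    omega
  refine ⟨fun p x => glh_h22 p0 D Q Λ (fun w i => lF w i x) p,
    fun p y => glh_h22 p0 D Q Λ (fun w i => lE w i y) p, ?_, ?_, ?_, ?_, ?_⟩
  · intro p x
    exact glh_step_h22 _ _ _ _ _ _ (fun w i hi => mF w i x hi)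
      (fun w hw i hi => hΛF w hw i hi x) p
  · intro p y
    exact glh_step_h22 _ _ _ _ _ _ (fun w i hi => mE w i y hi)
      (fun w hw i hi => hΛE w hw i hi y) p
  · intro p x y hxy
    exact (glh_step_h22 _ _ _ _ _ _ (fun w i hi => eT w i x y hi hxy)
      (fun w hw i hi => hΛE w hw i hi y) p).le
  · intro p x y hxy
    exact (glh_step_h22 _ _ _ _ _ _ (fun w i hi => eS w i x y hi hxy)
      (fun w hw i hi => hΛF w hw i hi x) p).le
  · intro w hw x y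
    exact ⟨fun h => glh_comp_h22 p0 D Q Λ _ _ w hw (hQ w hw) h,
      fun h => glh_comp_h22 p0 D Q Λ _ _ w hw (hQ w hw) h⟩

end Pool.Agent.QC
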