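import Pool.Agent.Lib_helper17.QC.CB
import Pool.Agent.Lib_helper17.QC.P_GL

/-! Block BK of project QC (MP_8c9f67_an): the exact block. -/

set_option autoImplicit false
set_option linter.unusedSectionVars false

namespace Pool.Agent.QC

section gen_h63

variable {A E : Type} [Fintype A] [Fintype E] [DecidableEq A] [DecidableEq E]

/-- heights on `A ⊕ (Fin L × E)` -/
def bk_gF (L : ℕ) (α : A → ℕ) (ε : E → ℕ) : A ⊕ (Fin L × E) → ℕ
  | .inl a => α a
  | .inr q => ε q.2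

/-- heights on `(Fin L × E) ⊕ A` -/
def bk_gE (L : ℕ) (α : A → ℕ) (ε : E → ℕ) : (Fin L × E) ⊕ A → ℕ
  | .inl q => ε q.2
  | .inr a => α a

theorem bk_pr {T : A → E → ℤ} {S : E → A → ℤ} {y z : E} (h : pr T S y z ≠ 0) :
    ∃ a, S y a ≠ 0 ∧ T a z ≠ 0 := by
  unfold pr at h
  obtain ⟨a, _, ha⟩ := Finset.exists_ne_zero_of_sum_ne_zero h
  exact ⟨a, left_ne_zero_of_mul ha, right_ne_zero_of_mul ha⟩

theorem bk_pq {T : A → E → ℤ} {S : E → A → ℤ} {y z : E} (h : pq T S y z ≠ 0) :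
    y = z ∨ pr T S y z ≠ 0 := by
  by_cases hyz : y = z
  · exact Or.inl hyz
  · right
    intro h0
    apply h
    unfold pq
    rw [if_neg hyz, h0, sub_zero]

/-- One step of `cT` costs two levels. -/
theorem bk_eT {T : A → E → ℤ} {S : E → A → ℤ} {L : ℕ} {α : ℕ → A → ℕ} {ε : ℕ → E → ℕ} {p : ℕ}
    (mα : ∀ j x, α j x ≤ α (j + 1) x) (mε : ∀ j y, ε j y ≤ ε (j + 1) y)
    (hT : ∀ j, j < p → ∀ x y, T x y ≠ 0 → ε j y ≤ α (j + 1) x)
    (hS : ∀ j, j < p → ∀ x y, S y x ≠ 0 → α j x ≤ ε (j + 1) y)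
    {j : ℕ} (hj : j + 1 < p) (x : A ⊕ (Fin L × E)) (y : (Fin L × E) ⊕ A)
    (h : cT T S L x y ≠ 0) : bk_gE L (α j) (ε j) y ≤ bk_gF L (α (j + 2)) (ε (j + 2)) x := by
  have hpr : ∀ y z, pr T S y z ≠ 0 → ε j z ≤ ε (j + 2) y := by
    intro y z h
    obtain ⟨a, h1, h2⟩ := bk_pr h
    exact (hT j (by omega) a z h2).trans (hS (j + 1) hj a y h1)
  have hpq : ∀ y z, pq T S y z ≠ 0 → ε j z ≤ ε (j + 2) y := by
    intro y z h
    rcases bk_pq h with h | h
    · subst h
      exact (mε j y).trans (mε (j + 1) y)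
    · exact hpr y z h
  rcases x with a | ⟨i, y0⟩ <;> rcases y with ⟨k, z⟩ | b
  · simp only [cT] at h
    by_cases hk : (k : ℕ) = 0
    · rw [if_pos hk] at h
      exact (hT j (by omega) a z h).trans (mα (j + 1) a)
    · rw [if_neg hk] at h
      exact absurd rfl h
  · simp only [cT] at h
    exact absurd rfl h
  · simp only [cT] at h
    by_cases hk : k = i
    · rw [if_pos hk] at h
      exact hpq y0 z h
    · rw [if_neg hk] at h
      by_cases hk2 : (k : ℕ) = i + 1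
      · rw [if_pos hk2] at h
        exact hpr y0 z h
      · rw [if_neg hk2] at h
        exact absurd rfl h
  · simp only [cT] at h
    by_cases hk : (i : ℕ) + 1 = L
    · rw [if_pos hk] at h
      exact (hS j (by omega) b y0 h).trans (mε (j + 1) y0)
    · rw [if_neg hk] at h
      exact absurd rfl h

/-- One step of `cS` costs two levels. -/
theorem bk_eS {T : A → E → ℤ} {S : E → A → ℤ} {L : ℕ} {α : ℕ → A → ℕ} {ε : ℕ → E → ℕ} {p : ℕ}
    (mα : ∀ j x, α j x ≤ α (j + 1) x) (mε : ∀ j y, ε j y ≤ ε (j + 1) y)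
    (hT : ∀ j, j < p → ∀ x y, T x y ≠ 0 → ε j y ≤ α (j + 1) x)
    (hS : ∀ j, j < p → ∀ x y, S y x ≠ 0 → α j x ≤ ε (j + 1) y)
    {j : ℕ} (hj : j + 1 < p) (x : A ⊕ (Fin L × E)) (y : (Fin L × E) ⊕ A)
    (h : cS T S L y x ≠ 0) : bk_gF L (α j) (ε j) x ≤ bk_gE L (α (j + 2)) (ε (j + 2)) y := by
  have hpr : ∀ y z, pr T S y z ≠ 0 → ε j z ≤ ε (j + 2) y := by
    intro y z h
    obtain ⟨a, h1, h2⟩ := bk_pr h
    exact (hT j (by omega) a z h2).trans (hS (j + 1) hj a y h1)
  have hpq : ∀ y z, pq T S y z ≠ 0 → ε j z ≤ ε (j + 2) y := by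
    intro y z h
    rcases bk_pq h with h | h
    · subst h
      exact (mε j y).trans (mε (j + 1) y)
    · exact hpr y z h
  rcases x with a | ⟨i, z⟩ <;> rcases y with ⟨k, y0⟩ | b
  · simp only [cS] at h
    by_cases hk : (k : ℕ) = 0
    · rw [if_pos hk] at h
      exact (hS j (by omega) a y0 h).trans (mε (j + 1) y0)
    · rw [if_neg hk] at h
      exact absurd rfl h
  · simp only [cS] at h
    exact absurd rfl h
  · simp only [cS] at h
    by_cases hk : i = k
    · rw [if_pos hk] at h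
      exact hpq y0 z h
    · rw [if_neg hk] at h
      by_cases hk2 : (i : ℕ) + 1 = k
      · rw [if_pos hk2] at h
        exact hpr y0 z h
      · rw [if_neg hk2] at h
        exact absurd rfl h
  · simp only [cS] at h
    by_cases hk : (i : ℕ) + 1 = L
    · rw [if_pos hk] at h
      exact (hT j (by omega) b z h).trans (mα (j + 1) b)
    · rw [if_neg hk] at h
      exact absurd rfl h

/-- positions -/
def bk_rF (A E : Type) (L : ℕ) : A ⊕ (Fin L × E) → ℕ
  | .inl _ => 0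
  | .inr q => 2 * (q.1 : ℕ) + 2

/-- positions -/
def bk_rE (A E : Type) (L : ℕ) : (Fin L × E) ⊕ A → ℕ
  | .inl q => 2 * (q.1 : ℕ) + 1
  | .inr _ => 2 * L + 1

theorem bk_rT {T : A → E → ℤ} {S : E → A → ℤ} {L : ℕ} (x : A ⊕ (Fin L × E))
    (y : (Fin L × E) ⊕ A) (h : cT T S L x y ≠ 0) : bk_rE A E L y ≤ bk_rF A E L x + 1 := by
  rcases x with a | ⟨i, y0⟩ <;> rcases y with ⟨k, z⟩ | b
  · simp only [cT] at h
    by_cases hk : (k : ℕ) = 0
    · simp only [bk_rE, bk_rF]; omega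
    · rw [if_neg hk] at h
      exact absurd rfl h
  · simp only [cT] at h
    exact absurd rfl h
  · simp only [cT] at h
    by_cases hk : k = i
    · subst hk
      simp only [bk_rE, bk_rF]; omega
    · rw [if_neg hk] at h
      by_cases hk2 : (k : ℕ) = i + 1
      · simp only [bk_rE, bk_rF]; omega
      · rw [if_neg hk2] at h
        exact absurd rfl h
  · simp only [cT] at h
    by_cases hk : (i : ℕ) + 1 = L
    · simp only [bk_rE, bk_rF]; omega
    · rw [if_neg hk] at h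
      exact absurd rfl h

theorem bk_rS {T : A → E → ℤ} {S : E → A → ℤ} {L : ℕ} (x : A ⊕ (Fin L × E))
    (y : (Fin L × E) ⊕ A) (h : cS T S L y x ≠ 0) : bk_rF A E L x ≤ bk_rE A E L y + 1 := by
  rcases x with a | ⟨i, z⟩ <;> rcases y with ⟨k, y0⟩ | b
  · simp only [bk_rE, bk_rF]; omega
  · simp only [bk_rE, bk_rF]; omega
  · simp only [cS] at h
    by_cases hk : i = k
    · subst hk
      simp only [bk_rE, bk_rF]; omega
    · rw [if_neg hk] at h
      by_cases hk2 : (i : ℕ) + 1 = k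
      · simp only [bk_rE, bk_rF]; omega
      · rw [if_neg hk2] at h
        exact absurd rfl h
  · simp only [cS] at h
    have := i.2
    simp only [bk_rE, bk_rF]; omega

end gen_h63

/-- local heights in the five windows, on the basis `F` -/
def bk_lF {p q : ℕ} (R : Ret p q) (D : ℕ → ℕ) (w i : ℕ) (x : R.A ⊕ (Fin (D 0 + 1) × R.E)) : ℕ :=
  if w = 0 then (if D 0 + 1 ≤ i + bk_rF R.A R.E (D 0 + 1) x then 1 else 0)
  else if w = 1 then bk_gF (D 0 + 1) (R.a1 (2 * i)) (R.e1 (2 * i)) x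
  else if w = 2 then bk_gF (D 0 + 1) (R.a1 (2 * D 1 + 2 * i)) (R.e1 (2 * D 1 + 2 * i)) x
  else if w = 3 then bk_gF (D 0 + 1) (R.a2 (2 * i)) (R.e2 (2 * i)) x
  else if w = 4 then bk_gF (D 0 + 1) (R.a2 (2 * D 3 + 2 * i)) (R.e2 (2 * D 3 + 2 * i)) x
  else 0

/-- local heights in the five windows, on the basis `E` -/
def bk_lE {p q : ℕ} (R : Ret p q) (D : ℕ → ℕ) (w i : ℕ) (x : (Fin (D 0 + 1) × R.E) ⊕ R.A) : ℕ :=
  if w = 0 then (if D 0 + 1 ≤ i + bk_rE R.A R.E (D 0 + 1) x then 1 else 0)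
  else if w = 1 then bk_gE (D 0 + 1) (R.a1 (2 * i)) (R.e1 (2 * i)) x
  else if w = 2 then bk_gE (D 0 + 1) (R.a1 (2 * D 1 + 2 * i)) (R.e1 (2 * D 1 + 2 * i)) x
  else if w = 3 then bk_gE (D 0 + 1) (R.a2 (2 * i)) (R.e2 (2 * i)) x
  else if w = 4 then bk_gE (D 0 + 1) (R.a2 (2 * D 3 + 2 * i)) (R.e2 (2 * D 3 + 2 * i)) x
  else 0

theorem bk_gF_mono {A E : Type} (L : ℕ) {α α' : A → ℕ} {ε ε' : E → ℕ} (h1 : ∀ x, α x ≤ α' x)
    (h2 : ∀ x, ε x ≤ ε' x) (x : A ⊕ (Fin L × E)) : bk_gF L α ε x ≤ bk_gF L α' ε' x := by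
  rcases x with a | q
  · exact h1 a
  · exact h2 q.2

theorem bk_gE_mono {A E : Type} (L : ℕ) {α α' : A → ℕ} {ε ε' : E → ℕ} (h1 : ∀ x, α x ≤ α' x)
    (h2 : ∀ x, ε x ≤ ε' x) (x : (Fin L × E) ⊕ A) : bk_gE L α ε x ≤ bk_gE L α' ε' x := by
  rcases x with q | a
  · exact h2 q.2
  · exact h1 a

/-- BK -/
theorem blk_of_ret (p0 : ℕ) (D : ℕ → ℕ)
    (h : ∃ R : Ret (2 * (D 1 + D 2)) (2 * (D 3 + D 4)), (D 0 + 1) * R.N.card < Fintype.card R.A) :
    ∃ B : Blk, B.Bad5 p0 D := by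
  obtain ⟨R, hR⟩ := h
  set L := D 0 + 1 with hL
  have up : ∀ {X : Type} (f : ℕ → X → ℕ), (∀ j x, f j x ≤ f (j + 1) x) → ∀ j x,
      f j x ≤ f (j + 2) x := fun f hf j x => (hf j x).trans (hf (j + 1) x)
  have mF : ∀ w i x, i < D w → bk_lF R D w i x ≤ bk_lF R D w (i + 1) x := by
    intro w i x _
    unfold bk_lF
    split_ifs <;> first
      | omega
      | exact bk_gF_mono _ (fun x => up _ R.ma1 _ x) (fun x => up _ R.me1 _ x) x
      | exact bk_gF_mono _ (fun x => up _ R.ma2 _ x) (fun x => up _ R.me2 _ x) x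
  have mE : ∀ w i x, i < D w → bk_lE R D w i x ≤ bk_lE R D w (i + 1) x := by
    intro w i x _
    unfold bk_lE
    split_ifs <;> first
      | omega
      | exact bk_gE_mono _ (fun x => up _ R.ma1 _ x) (fun x => up _ R.me1 _ x) x
      | exact bk_gE_mono _ (fun x => up _ R.ma2 _ x) (fun x => up _ R.me2 _ x) x
  have eT : ∀ w i x y, i < D w → cT R.T R.S L x y ≠ 0 → bk_lE R D w i y ≤ bk_lF R D w (i + 1) x := by
    intro w i x y hi hxy
    have hr : bk_rE R.A R.E (D 0 + 1) y ≤ bk_rF R.A R.E (D 0 + 1) x + 1 := bk_rT x y hxy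
    unfold bk_lF bk_lE
    by_cases h0 : w = 0
    · rw [if_pos h0, if_pos h0]
      split_ifs <;> omega
    rw [if_neg h0, if_neg h0]
    by_cases h1 : w = 1
    · subst h1
      rw [if_pos rfl, if_pos rfl]
      exact bk_eT R.ma1 R.me1 R.T1 R.S1 (j := 2 * i) (by omega) x y hxy
    rw [if_neg h1, if_neg h1]
    by_cases h2 : w = 2
    · subst h2
      rw [if_pos rfl, if_pos rfl]
      exact bk_eT R.ma1 R.me1 R.T1 R.S1 (j := 2 * D 1 + 2 * i) (by omega) x y hxy
    rw [if_neg h2, if_neg h2]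
    by_cases h3 : w = 3
    · subst h3
      rw [if_pos rfl, if_pos rfl]
      exact bk_eT R.ma2 R.me2 R.T2 R.S2 (j := 2 * i) (by omega) x y hxy
    rw [if_neg h3, if_neg h3]
    by_cases h4 : w = 4
    · subst h4
      rw [if_pos rfl, if_pos rfl]
      exact bk_eT R.ma2 R.me2 R.T2 R.S2 (j := 2 * D 3 + 2 * i) (by omega) x y hxy
    rw [if_neg h4, if_neg h4]
  have eS : ∀ w i x y, i < D w → cS R.T R.S L y x ≠ 0 → bk_lF R D w i x ≤ bk_lE R D w (i + 1) y := by
    intro w i x y hi hxy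
    have hr : bk_rF R.A R.E (D 0 + 1) x ≤ bk_rE R.A R.E (D 0 + 1) y + 1 := bk_rS x y hxy
    unfold bk_lF bk_lE
    by_cases h0 : w = 0
    · rw [if_pos h0, if_pos h0]
      split_ifs <;> omega
    rw [if_neg h0, if_neg h0]
    by_cases h1 : w = 1
    · subst h1
      rw [if_pos rfl, if_pos rfl]
      exact bk_eS R.ma1 R.me1 R.T1 R.S1 (j := 2 * i) (by omega) x y hxy
    rw [if_neg h1, if_neg h1]
    by_cases h2 : w = 2
    · subst h2
      rw [if_pos rfl, if_pos rfl]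
      exact bk_eS R.ma1 R.me1 R.T1 R.S1 (j := 2 * D 1 + 2 * i) (by omega) x y hxy
    rw [if_neg h2, if_neg h2]
    by_cases h3 : w = 3
    · subst h3
      rw [if_pos rfl, if_pos rfl]
      exact bk_eS R.ma2 R.me2 R.T2 R.S2 (j := 2 * i) (by omega) x y hxy
    rw [if_neg h3, if_neg h3]
    by_cases h4 : w = 4
    · subst h4
      rw [if_pos rfl, if_pos rfl]
      exact bk_eS R.ma2 R.me2 R.T2 R.S2 (j := 2 * D 3 + 2 * i) (by omega) x y hxy
    rw [if_neg h4, if_neg h4]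
  obtain ⟨hF, hE, g1, g2, g3, g4, g5⟩ := glue (cT R.T R.S L) (cS R.T R.S L) p0 D (bk_lF R D)
    (bk_lE R D) mF mE eT eS
  refine ⟨{
    F := R.A ⊕ (Fin L × R.E)
    E := (Fin L × R.E) ⊕ R.A
    fF := inferInstance
    fE := inferInstance
    dF := inferInstance
    dE := inferInstance
    T := cT R.T R.S L
    S := cS R.T R.S L
    hF := hF
    hE := hE
    TS := fun x y => cable_TS R.T R.S L (by omega) R.TS x y
    ST := fun x y => cable_ST R.T R.S L (by omega) R.TS x y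
    mF := g1
    mE := g2
    eT := g3
    eS := g4 }, ?_⟩
  refine ⟨(Finset.univ : Finset R.A).map ⟨Sum.inl, Sum.inl_injective⟩,
    ((Finset.univ : Finset (Fin L)) ×ˢ R.N).map ⟨Sum.inl, Sum.inl_injective⟩, ?_, ?_⟩
  · rw [Finset.card_map, Finset.card_map, Finset.card_product, Finset.card_univ, Finset.card_univ,
      Fintype.card_fin]
    exact hR
  · intro x hx y hxy
    rw [Finset.mem_map] at hx
    obtain ⟨a, _, rfl⟩ := hx
    have loc : ∀ w, w < 5 → bk_lF R D w 0 (.inl a) ≤ bk_lE R D w (D w) y ∧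
        bk_lE R D w 0 y ≤ bk_lF R D w (D w) (.inl a) := fun w hw =>
      ⟨(g5 w hw (.inl a) y).1 (hxy w hw).1, (g5 w hw (.inl a) y).2 (hxy w hw).2⟩
    rcases y with ⟨j, z⟩ | b
    · rw [Finset.mem_map]
      refine ⟨(j, z), ?_, rfl⟩
      rw [Finset.mem_product]
      refine ⟨Finset.mem_univ _, ?_⟩
      by_contra hz
      have l1 := loc 1 (by norm_num)
      have l2 := loc 2 (by norm_num)
      have l3 := loc 3 (by norm_num)
      have l4 := loc 4 (by norm_num)
      simp only [bk_lF, bk_lE, bk_gF, bk_gE] at l1 l2 l3 l4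
      norm_num at l1 l2 l3 l4
      rcases R.far z hz with ⟨c, hc, hfar⟩ | ⟨c, hc, hfar⟩
      · have e1 := hfar 0 (by omega)
        have e2 := hfar (2 * D 1) (by omega)
        have e3 := hfar (2 * D 1 + 2 * D 2) (by omega)
        have e4 : R.a1 (2 * D 1) a = c := by
          apply le_antisymm
          · have := l2.1
            omega
          · have := l1.2
            omega
        have := R.ev1 (2 * D 1) a
        rw [e4] at this
        exact (Nat.not_even_iff_odd.2 hc) this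
      · have e1 := hfar 0 (by omega)
        have e2 := hfar (2 * D 3) (by omega)
        have e3 := hfar (2 * D 3 + 2 * D 4) (by omega)
        have e4 : R.a2 (2 * D 3) a = c := by
          apply le_antisymm
          · have := l4.1
            omega
          · have := l3.2
            omega
        have := R.ev2 (2 * D 3) a
        rw [e4] at this
        exact (Nat.not_even_iff_odd.2 hc) this
    · exfalso
      have l0 := (loc 0 (by norm_num)).2
      unfold bk_lF bk_lE at l0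
      rw [if_pos rfl, if_pos rfl, if_pos, if_neg] at l0
      · omega
      · simp only [bk_rF]; omega
      · simp only [bk_rE]; omega

end Pool.Agent.QC
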