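import Pool.Agent.Lib_helper17.QC.Defs

/-! Block CQ of project QC (MP_8c9f67_an): the sequence of blocks. -/

namespace Pool.Agent.QC

/-- first levels of the windows for the loss `q` -/
def pq_h79 (q : ℕ → ℕ) (p0 : ℕ) : ℕ → ℕ
  | 0 => p0
  | w + 1 => max (q (pq_h79 q p0 w)) (pq_h79 q p0 w) + 1

/-- the lengths of the windows -/
def dq_h79 (q : ℕ → ℕ) (p0 w : ℕ) : ℕ := max (q (pq_h79 q p0 w)) (pq_h79 q p0 w) - pq_h79 q p0 w

/-- the block with a given list of parameters -/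
noncomputable def bl_h79 (h : ∀ (p0 : ℕ) (D : ℕ → ℕ), ∃ B : Blk, B.Bad5 p0 D) (l : List ℕ) : Blk :=
  Classical.choose (h (l.getD 0 0) (fun w => l.getD (w + 1) 0))

theorem bl_spec_h79 (h : ∀ (p0 : ℕ) (D : ℕ → ℕ), ∃ B : Blk, B.Bad5 p0 D) (l : List ℕ) :
    (bl_h79 h l).Bad5 (l.getD 0 0) (fun w => l.getD (w + 1) 0) :=
  Classical.choose_spec (h (l.getD 0 0) (fun w => l.getD (w + 1) 0))

theorem P_congr_h79 (q : ℕ → ℕ) (p0 : ℕ) (D : ℕ → ℕ) (hD : ∀ w, w < 5 → D w = dq_h79 q p0 w) :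
    ∀ w, w ≤ 5 → P p0 D w = pq_h79 q p0 w := by
  intro w
  induction w with
  | zero => intro _; rfl
  | succ w ih =>
    intro hw
    have h1 := ih (by omega)
    have h2 := hD w (by omega)
    change P p0 D w + D w + 1 = max (q (pq_h79 q p0 w)) (pq_h79 q p0 w) + 1
    rw [h1, h2]
    unfold dq_h79
    have := le_max_right (q (pq_h79 q p0 w)) (pq_h79 q p0 w)
    omega

theorem pq_mono_h79 (q : ℕ → ℕ) (p0 : ℕ) : Monotone (pq_h79 q p0) := by
  refine monotone_nat_of_le_succ (fun w => ?_)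
  change pq_h79 q p0 w ≤ max (q (pq_h79 q p0 w)) (pq_h79 q p0 w) + 1
  exact (le_max_right _ _).trans (Nat.le_succ _)

/-- CQ -/
theorem comb_of_blk (h : ∀ (p0 : ℕ) (D : ℕ → ℕ), ∃ B : Blk, B.Bad5 p0 D) :
    ∃ B : ℕ → Blk, ∀ (q : ℕ → ℕ) (p0 : ℕ), ∃ p1, ∀ m0, ∃ m, m0 ≤ m ∧ (B m).Bad q p0 p1 := by
  refine ⟨fun m => bl_h79 h (Denumerable.ofNat (List ℕ) (Nat.unpair m).1), fun q p0 => ?_⟩
  refine ⟨pq_h79 q p0 4, fun m0 => ?_⟩
  set l : List ℕ := [p0, dq_h79 q p0 0, dq_h79 q p0 1, dq_h79 q p0 2, dq_h79 q p0 3,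
    dq_h79 q p0 4] with hl
  refine ⟨Nat.pair (Encodable.encode l) m0, Nat.right_le_pair _ _, ?_⟩
  have e1 : Denumerable.ofNat (List ℕ) (Nat.unpair (Nat.pair (Encodable.encode l) m0)).1 = l := by
    rw [Nat.unpair_pair]
    exact Denumerable.ofNat_encode l
  change (bl_h79 h (Denumerable.ofNat (List ℕ)
    (Nat.unpair (Nat.pair (Encodable.encode l) m0)).1)).Bad q p0 (pq_h79 q p0 4)
  rw [e1]
  obtain ⟨A, N, hc, hn⟩ := bl_spec_h79 h l
  have mE : ∀ y, Monotone (fun p => (bl_h79 h l).hE p y) := fun y =>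
    monotone_nat_of_le_succ (fun p => ((bl_h79 h l).mE p y).le)
  have mF : ∀ x, Monotone (fun p => (bl_h79 h l).hF p x) := fun x =>
    monotone_nat_of_le_succ (fun p => ((bl_h79 h l).mF p x).le)
  refine ⟨A, N, hc, fun x hx y hy => hn x hx y (fun w hw => ?_)⟩
  have hD : ∀ w, w < 5 → (fun w => l.getD (w + 1) 0) w = dq_h79 q p0 w := by
    intro w hw
    interval_cases w <;> simp [hl]
  have h0 : l.getD 0 0 = p0 := by simp [hl]
  have hP := P_congr_h79 q p0 (fun w => l.getD (w + 1) 0) hD w hw.le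
  have hD' := hD w hw
  rw [h0]
  rw [hP]
  have h1 := hy (pq_h79 q p0 w) (pq_mono_h79 q p0 (Nat.zero_le w))
    (pq_mono_h79 q p0 (by omega))
  have h2 : q (pq_h79 q p0 w) ≤ pq_h79 q p0 w + (fun w => l.getD (w + 1) 0) w := by
    rw [hD']
    unfold dq_h79
    have := le_max_left (q (pq_h79 q p0 w)) (pq_h79 q p0 w)
    omega
  exact ⟨h1.1.trans (mE y h2), h1.2.trans (mF x h2)⟩


end Pool.Agent.QC
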