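import Pool.Agent.Lib_helper17.QC.Defs

/-! QC, block RT: from a near-retract to an exact retract (helper6). -/

namespace Pool.Agent.QC

open Classical in
/-- maximum of `a` over the points within `j` steps -/
noncomputable def X_h6 (D : Dat) (a : D.A → ℕ) (j : ℕ) (x : D.A) : ℕ :=
  (Finset.univ.filter (fun v => Reach D.step j x v)).sup a

open Classical in
/-- maximum of `X_h6` over the successors of `n` -/
noncomputable def w_h6 (D : Dat) (a : D.A → ℕ) (j : ℕ) (n : D.N) : ℕ :=
  (Finset.univ.filter (fun f => D.s n f ≠ 0)).sup (fun f => X_h6 D a j f)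

theorem reach_mono_h6 {A : Type} {R : A → A → Prop} {i j : ℕ} {x y : A} (h : Reach R i x y)
    (hij : i ≤ j) : Reach R j x y := by
  induction h generalizing j with
  | refl i x => exact Reach.refl j x
  | tail h1 h2 ih =>
    obtain ⟨k, rfl⟩ : ∃ k, j = k + 1 := ⟨j - 1, by omega⟩
    exact Reach.tail (ih (by omega)) h2

theorem reach_head_h6 {A : Type} {R : A → A → Prop} {i : ℕ} {x y z : A} (h1 : R x y)
    (h : Reach R i y z) : Reach R (i + 1) x z := by
  induction h with
  | refl i y => exact Reach.tail (Reach.refl i x) h1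
  | tail h3 h2 ih => exact Reach.tail (ih h1) h2

theorem X_mono_h6 (D : Dat) (a : D.A → ℕ) {i j : ℕ} (hij : i ≤ j) (x : D.A) :
    X_h6 D a i x ≤ X_h6 D a j x := by
  classical
  unfold X_h6
  apply Finset.sup_mono
  intro v hv
  simp only [Finset.mem_filter, Finset.mem_univ, true_and] at hv ⊢
  exact reach_mono_h6 hv hij

theorem le_X_h6 (D : Dat) (a : D.A → ℕ) (j : ℕ) (x : D.A) : a x ≤ X_h6 D a j x := by
  classical
  unfold X_h6
  exact Finset.le_sup (f := a) (by simpa using Reach.refl j x)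

theorem X_step_h6 (D : Dat) (a : D.A → ℕ) (j : ℕ) {x y : D.A} (h : D.step x y) :
    X_h6 D a j y ≤ X_h6 D a (j + 1) x := by
  classical
  unfold X_h6
  apply Finset.sup_mono
  intro v hv
  simp only [Finset.mem_filter, Finset.mem_univ, true_and] at hv ⊢
  exact reach_head_h6 h hv

theorem X_lt_h6 (D : Dat) (a : D.A → ℕ) (p : ℕ) {e f : D.A}
    (h : ∀ v, Reach D.step p f v → a v < a e) : X_h6 D a p f < a e := by
  classical
  unfold X_h6
  have h0 : 0 < a e := lt_of_le_of_lt (Nat.zero_le _) (h f (Reach.refl p f))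
  rw [Finset.sup_lt_iff (by simpa using h0)]
  intro v hv
  exact h v (by simpa using hv)

theorem X_le_w_h6 (D : Dat) (a : D.A → ℕ) (j : ℕ) {n : D.N} {f : D.A} (h : D.s n f ≠ 0) :
    X_h6 D a j f ≤ w_h6 D a j n := by
  classical
  unfold w_h6
  exact Finset.le_sup (f := fun f => X_h6 D a j f) (by simpa using h)

theorem w_le_h6 (D : Dat) (a : D.A → ℕ) (j : ℕ) {x : D.A} {n : D.N} (h : D.t x n ≠ 0) :
    w_h6 D a j n ≤ X_h6 D a (j + 1) x := by
  classical
  unfold w_h6
  apply Finset.sup_le
  intro f hf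
  have hf' : D.s n f ≠ 0 := by simpa using hf
  exact X_step_h6 D a j ⟨n, h, hf'⟩

theorem w_mono_h6 (D : Dat) (a : D.A → ℕ) {i j : ℕ} (hij : i ≤ j) (n : D.N) :
    w_h6 D a i n ≤ w_h6 D a j n := by
  classical
  unfold w_h6
  apply Finset.sup_le
  intro f hf
  have hf' : D.s n f ≠ 0 := by simpa using hf
  exact (X_mono_h6 D a hij f).trans (X_le_w_h6 D a j hf')

/-- a nonzero entry of the defect is a step -/
theorem step_of_C_h6 {p q : ℕ} {D : Dat} (h : NR p q D) {e f : D.A} (hC : D.C e f ≠ 0) :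
    D.step e f := by
  by_contra hs
  have hsum : ∑ n, D.t e n * D.s n f = 0 := by
    apply Finset.sum_eq_zero
    intro n _
    by_contra hn
    exact hs ⟨n, left_ne_zero_of_mul hn, right_ne_zero_of_mul hn⟩
  by_cases hef : e = f
  · subst hef
    rcases h e e hC with h1 | h1
    · exact lt_irrefl _ (h1 e (Reach.refl p e))
    · exact lt_irrefl _ (h1 e (Reach.refl q e))
  · apply hC
    unfold Dat.C
    rw [if_neg hef, hsum]
    rfl

open Classical in
/-- the matrix `T` -/
noncomputable def T_h6 (D : Dat) (p : ℕ) (x : D.A) : D.N ⊕ (D.A ⊕ D.A) → ℤ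
  | .inl n => D.t x n
  | .inr (.inl f) => if D.irrA p x f then D.C x f else 0
  | .inr (.inr f) => if D.irrA p x f then 0 else D.C x f

/-- the matrix `S` -/
def S_h6 (D : Dat) : D.N ⊕ (D.A ⊕ D.A) → D.A → ℤ
  | .inl n, x => D.s n x
  | .inr (.inl f), x => if f = x then 1 else 0
  | .inr (.inr f), x => if f = x then 1 else 0

/-- heights of stage 1 -/
noncomputable def e1_h6 (D : Dat) (p : ℕ) (j : ℕ) : D.N ⊕ (D.A ⊕ D.A) → ℕ
  | .inl n => 2 * w_h6 D D.a j n
  | .inr (.inl f) => 2 * X_h6 D D.a p f + 1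
  | .inr (.inr f) => 2 * X_h6 D D.a j f

/-- heights of stage 2 -/
noncomputable def e2_h6 (D : Dat) (q : ℕ) (j : ℕ) : D.N ⊕ (D.A ⊕ D.A) → ℕ
  | .inl n => 2 * w_h6 D D.b j n
  | .inr (.inl f) => 2 * X_h6 D D.b j f
  | .inr (.inr f) => 2 * X_h6 D D.b q f + 1

/-- RT -/
theorem ret_of_nr (p q M : ℕ) (D : Dat) (h : NR p q D)
    (hc : M * Fintype.card D.N < Fintype.card D.A) :
    ∃ R : Ret p q, M * R.N.card < Fintype.card R.A := by
  classical
  refine ⟨{
    A := D.A
    E := D.N ⊕ (D.A ⊕ D.A)
    fA := D.fA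
    fE := inferInstance
    dA := D.dA
    dE := Classical.decEq _
    T := fun x y => T_h6 D p x y
    S := fun y x => S_h6 D y x
    N := Finset.univ.map ⟨Sum.inl, Sum.inl_injective⟩
    a1 := fun j x => 2 * X_h6 D D.a j x
    a2 := fun j x => 2 * X_h6 D D.b j x
    e1 := fun j y => e1_h6 D p j y
    e2 := fun j y => e2_h6 D q j y
    TS := ?_, ma1 := ?_, ma2 := ?_, me1 := ?_, me2 := ?_, T1 := ?_, T2 := ?_, S1 := ?_, S2 := ?_,
    ev1 := ?_, ev2 := ?_, far := ?_ }, ?_⟩
  · intro x y
    rw [Fintype.sum_sum_type, Fintype.sum_sum_type]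
    have e1 : ∑ f : D.A, T_h6 D p x (.inr (.inl f)) * S_h6 D (.inr (.inl f)) y
        = T_h6 D p x (.inr (.inl y)) := by
      rw [Finset.sum_eq_single y]
      · simp [S_h6]
      · intro b _ hb
        simp [S_h6, hb]
      · intro hy
        exact absurd (Finset.mem_univ y) hy
    have e2 : ∑ f : D.A, T_h6 D p x (.inr (.inr f)) * S_h6 D (.inr (.inr f)) y
        = T_h6 D p x (.inr (.inr y)) := by
      rw [Finset.sum_eq_single y]
      · simp [S_h6]
      · intro b _ hb
        simp [S_h6, hb]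
      · intro hy
        exact absurd (Finset.mem_univ y) hy
    rw [e1, e2]
    have e3 : T_h6 D p x (.inr (.inl y)) + T_h6 D p x (.inr (.inr y)) = D.C x y := by
      by_cases hi : D.irrA p x y <;> simp [T_h6, hi]
    rw [e3]
    have e4 : ∑ n : D.N, T_h6 D p x (.inl n) * S_h6 D (.inl n) y = ∑ n, D.t x n * D.s n y := rfl
    rw [e4]
    unfold Dat.C
    ring
  · intro j x
    exact Nat.mul_le_mul_left 2 (X_mono_h6 D D.a (Nat.le_succ j) x)
  · intro j x
    exact Nat.mul_le_mul_left 2 (X_mono_h6 D D.b (Nat.le_succ j) x)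
  · intro j y
    rcases y with n | f | f
    · exact Nat.mul_le_mul_left 2 (w_mono_h6 D D.a (Nat.le_succ j) n)
    · exact le_refl _
    · exact Nat.mul_le_mul_left 2 (X_mono_h6 D D.a (Nat.le_succ j) f)
  · intro j y
    rcases y with n | f | f
    · exact Nat.mul_le_mul_left 2 (w_mono_h6 D D.b (Nat.le_succ j) n)
    · exact Nat.mul_le_mul_left 2 (X_mono_h6 D D.b (Nat.le_succ j) f)
    · exact le_refl _
  · intro j hj x y hT
    rcases y with n | f | f
    · exact Nat.mul_le_mul_left 2 (w_le_h6 D D.a j hT)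
    · have hirr : D.irrA p x f := by
        by_contra hn
        exact hT (by simp [T_h6, hn])
      have h1 := X_lt_h6 D D.a p hirr
      have h2 := le_X_h6 D D.a (j + 1) x
      show 2 * X_h6 D D.a p f + 1 ≤ 2 * X_h6 D D.a (j + 1) x
      omega
    · have hirr : ¬ D.irrA p x f := by
        intro hn
        exact hT (by simp [T_h6, hn])
      have hC : D.C x f ≠ 0 := by
        intro h0
        exact hT (by simp [T_h6, h0])
      exact Nat.mul_le_mul_left 2 (X_step_h6 D D.a j (step_of_C_h6 h hC))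
  · intro j hj x y hT
    rcases y with n | f | f
    · exact Nat.mul_le_mul_left 2 (w_le_h6 D D.b j hT)
    · have hirr : D.irrA p x f := by
        by_contra hn
        exact hT (by simp [T_h6, hn])
      have hC : D.C x f ≠ 0 := by
        intro h0
        exact hT (by simp [T_h6, h0])
      exact Nat.mul_le_mul_left 2 (X_step_h6 D D.b j (step_of_C_h6 h hC))
    · have hirr : ¬ D.irrA p x f := by
        intro hn
        exact hT (by simp [T_h6, hn])
      have hC : D.C x f ≠ 0 := by
        intro h0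
        exact hT (by simp [T_h6, h0])
      have hB : D.irrB q x f := (h x f hC).resolve_left hirr
      have h1 := X_lt_h6 D D.b q hB
      have h2 := le_X_h6 D D.b (j + 1) x
      show 2 * X_h6 D D.b q f + 1 ≤ 2 * X_h6 D D.b (j + 1) x
      omega
  · intro j hj x y hS
    rcases y with n | f | f
    · exact Nat.mul_le_mul_left 2 ((X_mono_h6 D D.a (Nat.le_succ j) x).trans
        (X_le_w_h6 D D.a (j + 1) hS))
    · have hfx : f = x := by
        by_contra hn
        exact hS (by simp [S_h6, hn])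
      subst hfx
      have := X_mono_h6 D D.a (le_of_lt hj) f
      show 2 * X_h6 D D.a j f ≤ 2 * X_h6 D D.a p f + 1
      omega
    · have hfx : f = x := by
        by_contra hn
        exact hS (by simp [S_h6, hn])
      subst hfx
      exact Nat.mul_le_mul_left 2 (X_mono_h6 D D.a (Nat.le_succ j) f)
  · intro j hj x y hS
    rcases y with n | f | f
    · exact Nat.mul_le_mul_left 2 ((X_mono_h6 D D.b (Nat.le_succ j) x).trans
        (X_le_w_h6 D D.b (j + 1) hS))
    · have hfx : f = x := by
        by_contra hn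
        exact hS (by simp [S_h6, hn])
      subst hfx
      exact Nat.mul_le_mul_left 2 (X_mono_h6 D D.b (Nat.le_succ j) f)
    · have hfx : f = x := by
        by_contra hn
        exact hS (by simp [S_h6, hn])
      subst hfx
      have := X_mono_h6 D D.b (le_of_lt hj) f
      show 2 * X_h6 D D.b j f ≤ 2 * X_h6 D D.b q f + 1
      omega
  · intro j x
    exact even_two_mul _
  · intro j x
    exact even_two_mul _
  · intro y hy
    rcases y with n | f | f
    · exact absurd (Finset.mem_map.mpr ⟨n, Finset.mem_univ n, rfl⟩) hy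
    · exact Or.inl ⟨2 * X_h6 D D.a p f + 1, ⟨_, rfl⟩, fun j _ => rfl⟩
    · exact Or.inr ⟨2 * X_h6 D D.b q f + 1, ⟨_, rfl⟩, fun j _ => rfl⟩
  · show M * (Finset.univ.map (⟨Sum.inl, Sum.inl_injective⟩ : D.N ↪ D.N ⊕ (D.A ⊕ D.A))).card
      < Fintype.card D.A
    rw [Finset.card_map, Finset.card_univ]
    exact hc

end Pool.Agent.QC
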