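import Pool.Agent.Lib_helper17.QC.NR2
import Pool.Agent.Lib_helper17.QC.P_RT
import Pool.Agent.Lib_helper17.QC.P_BK
import Pool.Agent.Lib_helper17.QC.P_CQ
import Pool.Agent.Lib_helper17.QC.P_A8

/-!
# The counterexample to the quasi-equivalence of bases in closed subspaces of `s`
-/

open QE

namespace Pool.Agent.QC

/-- A sequence of exact blocks which contains, for every loss function `q` and every `p0`, infinitely
many blocks without a matching of near vectors. -/
theorem comb : ∃ B : ℕ → Blk, ∀ (q : ℕ → ℕ) (p0 : ℕ), ∃ p1, ∀ m0, ∃ m, m0 ≤ m ∧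
    (B m).Bad q p0 p1 := by
  apply comb_of_blk
  intro p0 D
  apply blk_of_ret
  obtain ⟨N, hN, hc⟩ := nr_exists (2 * (D 1 + D 2)) (2 * (D 3 + D 4)) (D 0 + 1)
  exact ret_of_nr _ _ _ N hN hc

/-- There is an infinite-dimensional closed subspace `X` of `s` with two Schauder bases which are not
quasi-equivalent. -/
theorem final : ∃ X : Submodule ℂ (ℕ → ℂ), ClosedSub X ∧ ¬ FiniteDimensional ℂ X ∧
    ∃ f g : ℕ → ℕ → ℂ, IsBasis X f ∧ IsBasis X g ∧ ¬ QuasiEquiv X f g := by
  obtain ⟨B, hB⟩ := comb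
  exact anal B hB

end Pool.Agent.QC
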