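import Pool.Agent.Lib_helper17.QC.Defs

/-!
# Near-retracts of every length with arbitrarily large ratio (raising lemma)
-/

namespace Pool.Agent.QC

/-! ### `Reach` -/

lemma Reach.mono {A : Type} {R : A → A → Prop} {i : ℕ} {x y : A} (h : Reach R i x y) :
    ∀ {j : ℕ}, i ≤ j → Reach R j x y := by
  induction h with
  | refl i x => intro j _; exact Reach.refl j x
  | tail h hs ih =>
    intro j hij
    obtain ⟨k, rfl⟩ : ∃ k, j = k + 1 := ⟨j - 1, by omega⟩
    exact Reach.tail (ih (by omega)) hs

lemma Reach.trans {A : Type} {R : A → A → Prop} {i j : ℕ} {x y z : A} (h : Reach R i x y)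
    (h' : Reach R j y z) : Reach R (i + j) x z := by
  induction h' with
  | refl j y => exact h.mono (by omega)
  | tail h1 hs ih => exact Reach.tail (ih h) hs

lemma Reach.zero {A : Type} {R : A → A → Prop} {x y : A} (h : Reach R 0 x y) : x = y := by
  cases h with
  | refl => rfl

lemma reach_zero_aux {A : Type} {R : A → A → Prop} {x y : A} : Reach R 0 x y ↔ x = y :=
  ⟨Reach.zero, fun h => h ▸ Reach.refl 0 x⟩

/-- maximum of `b` over the elements reachable in at most `j` steps -/
noncomputable def mx {A : Type} [Fintype A] (R : A → A → Prop) (b : A → ℕ) (j : ℕ) (x : A) : ℕ := by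
  classical
  exact (Finset.univ.filter (fun z => Reach R j x z)).sup b

lemma le_mx {A : Type} [Fintype A] {R : A → A → Prop} {b : A → ℕ} {j : ℕ} {x z : A}
    (h : Reach R j x z) : b z ≤ mx R b j x := by
  classical
  unfold mx
  exact Finset.le_sup (f := b) (by simpa using h)

lemma mx_le {A : Type} [Fintype A] {R : A → A → Prop} {b : A → ℕ} {j : ℕ} {x : A} {n : ℕ}
    (h : ∀ z, Reach R j x z → b z ≤ n) : mx R b j x ≤ n := by
  classical
  unfold mx
  exact Finset.sup_le (fun z hz => h z (by simpa using hz))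

lemma mx_lt {A : Type} [Fintype A] {R : A → A → Prop} {b : A → ℕ} {j : ℕ} {x : A} {n : ℕ}
    (h : ∀ z, Reach R j x z → b z < n) : mx R b j x < n := by
  have h0 := h x (Reach.refl j x)
  have : mx R b j x ≤ n - 1 := mx_le (fun z hz => by have := h z hz; omega)
  omega

/-- moving the base point -/
lemma mx_mono {A : Type} [Fintype A] {R : A → A → Prop} {b : A → ℕ} {i j k : ℕ} {x y : A}
    (h : Reach R i x y) (hk : i + j ≤ k) : mx R b j y ≤ mx R b k x :=
  mx_le (fun _ hz => le_mx ((h.trans hz).mono hk))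

/-! ### The symmetric structure -/

/-- exchange the two potentials -/
def Dat.swap (D : Dat) : Dat := { D with a := D.b, b := D.a }

lemma NR.swap {p q : ℕ} {D : Dat} (h : NR p q D) : NR q p D.swap := by
  intro e f hC
  rcases h e f hC with h1 | h1
  · exact Or.inr h1
  · exact Or.inl h1

/-! ### Defect entries are steps -/

lemma Dat.ne_of_C {D : Dat} {p q : ℕ} {e f : D.A} (h : D.irrA p e f ∨ D.irrB q e f) : e ≠ f := by
  rintro rfl
  rcases h with h | h
  · exact lt_irrefl _ (h e (Reach.refl _ _))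
  · exact lt_irrefl _ (h e (Reach.refl _ _))

lemma Dat.step_of_C {D : Dat} {e f : D.A} (hne : e ≠ f) (hC : D.C e f ≠ 0) : D.step e f := by
  by_contra h
  apply hC
  unfold Dat.C
  rw [if_neg hne, zero_sub, neg_eq_zero]
  apply Finset.sum_eq_zero
  intro n _
  by_contra h1
  apply h
  exact ⟨n, fun h2 => h1 (by rw [h2, zero_mul]), fun h2 => h1 (by rw [h2, mul_zero])⟩

/-! ### Hosting a set of entries -/

/-- Host the entries `(e, f) ∈ g` by copies of the nodes of `I`. -/
noncomputable def host (D I : Dat) (g : Finset (D.A × D.A)) (c HA HB q : ℕ) : Dat where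
  A := D.A × I.A
  N := (D.N × I.A) ⊕ ({x // x ∈ g} × I.N)
  fA := inferInstance
  fN := inferInstance
  dA := inferInstance
  t := fun x n => match n with
    | .inl n => if x.2 = n.2 then D.t x.1 n.1 else 0
    | .inr n => if x.1 = n.1.1.1 then I.t x.2 n.2 else 0
  s := fun n x => match n with
    | .inl n => if x.2 = n.2 then D.s n.1 x.1 else 0
    | .inr n => if x.1 = n.1.1.2 then D.C n.1.1.1 n.1.1.2 * I.s n.2 x.2 else 0
  a := fun x => if D.a x.1 < c then D.a x.1 else D.a x.1 + HA * I.a x.2
  b := fun x => HB * mx I.step I.b (q * D.b x.1) x.2 + D.b x.1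

lemma Dat.sum_ts (D : Dat) (x y : D.A) :
    ∑ n, D.t x n * D.s n y = (if x = y then 1 else 0) - D.C x y := by
  unfold Dat.C; ring

section
variable (D I : Dat) (g : Finset (D.A × D.A)) (c HA HB q : ℕ)

lemma host_sum1 (x y : D.A) (K L : I.A) :
    ∑ n : D.N × I.A, (if K = n.2 then D.t x n.1 else 0) * (if L = n.2 then D.s n.1 y else 0) =
      if K = L then (∑ n, D.t x n * D.s n y) else 0 := by
  rw [Fintype.sum_prod_type]
  rw [Finset.sum_comm]
  by_cases h : K = L
  · subst h
    rw [if_pos rfl]
    rw [Finset.sum_eq_single K]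
    · simp
    · intro b _ hb
      apply Finset.sum_eq_zero
      intro n _
      simp [Ne.symm hb]
    · simp
  · rw [if_neg h]
    apply Finset.sum_eq_zero
    intro b _
    apply Finset.sum_eq_zero
    intro n _
    by_cases h1 : K = b
    · subst h1
      simp [Ne.symm h]
    · simp [h1]

lemma host_sum2 (x y : D.A) (K L : I.A) :
    ∑ n : {x // x ∈ g} × I.N, (if x = n.1.1.1 then I.t K n.2 else 0) *
      (if y = n.1.1.2 then D.C n.1.1.1 n.1.1.2 * I.s n.2 L else 0) =
      if (x, y) ∈ g then D.C x y * (∑ n, I.t K n * I.s n L) else 0 := by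
  rw [Fintype.sum_prod_type]
  by_cases h : (x, y) ∈ g
  · rw [if_pos h]
    rw [Finset.sum_eq_single (⟨(x, y), h⟩ : {x // x ∈ g})]
    · rw [Finset.mul_sum]
      apply Finset.sum_congr rfl
      intro n _
      simp
      ring
    · rintro ⟨⟨e, f⟩, hg⟩ _ hb
      apply Finset.sum_eq_zero
      intro n _
      by_cases h1 : x = e
      · by_cases h2 : y = f
        · exfalso
          apply hb
          subst h1; subst h2; rfl
        · simp [h2]
      · simp [h1]
    · simp
  · rw [if_neg h]
    apply Finset.sum_eq_zero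
    rintro ⟨⟨e, f⟩, hg⟩ _
    apply Finset.sum_eq_zero
    intro n _
    by_cases h1 : x = e
    · by_cases h2 : y = f
      · exfalso
        apply h
        subst h1; subst h2; exact hg
      · simp [h2]
    · simp [h1]

lemma host_C (x y : D.A) (K L : I.A) :
    (host D I g c HA HB q).C (x, K) (y, L) =
      if (x, y) ∈ g then D.C x y * I.C K L else if K = L then D.C x y else 0 := by
  have e1 : ∑ n, (host D I g c HA HB q).t (x, K) n * (host D I g c HA HB q).s n (y, L) =
      (if K = L then (∑ n, D.t x n * D.s n y) else 0) +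
      (if (x, y) ∈ g then D.C x y * (∑ n, I.t K n * I.s n L) else 0) := by
    rw [← host_sum1, ← host_sum2]
    exact Fintype.sum_sum_type _
  have e0 : (host D I g c HA HB q).C (x, K) (y, L) = (if ((x, K) : D.A × I.A) = (y, L) then 1 else 0) -
      ∑ n, (host D I g c HA HB q).t (x, K) n * (host D I g c HA HB q).s n (y, L) := rfl
  rw [e0, e1, D.sum_ts, I.sum_ts]
  simp only [Prod.mk.injEq]
  by_cases h2 : K = L
  · by_cases h3 : x = y
    · by_cases h1 : (x, y) ∈ g
      · simp only [h2, h3, and_self, if_true]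
        rw [if_pos (h3 ▸ h1)]
        rw [if_pos (h3 ▸ h1)]
        ring
      · simp only [h2, h3, and_self, if_true]
        rw [if_neg (h3 ▸ h1), if_neg (h3 ▸ h1)]
        ring
    · simp only [h2, h3, and_true, if_true, if_false]
      by_cases h1 : (x, y) ∈ g
      · rw [if_pos h1, if_pos h1]
        ring
      · rw [if_neg h1, if_neg h1]
        ring
  · simp only [h2, and_false, if_false]
    by_cases h1 : (x, y) ∈ g
    · rw [if_pos h1, if_pos h1]
      ring
    · rw [if_neg h1, if_neg h1]
      ring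

/-- A step of `host`: either an old step in the same copy or the passage through a hub. -/
lemma host_step (hg : ∀ x ∈ g, D.step x.1 x.2) {x y : D.A × I.A}
    (h : (host D I g c HA HB q).step x y) :
    D.step x.1 y.1 ∧ ((x.2 = y.2) ∨ ((x.1, y.1) ∈ g ∧ I.step x.2 y.2)) := by
  obtain ⟨n, h1, h2⟩ := h
  rcases n with ⟨n, K⟩ | ⟨⟨⟨e, f⟩, hn⟩, n⟩
  · have h1' : (if x.2 = K then D.t x.1 n else 0) ≠ 0 := h1
    have h2' : (if y.2 = K then D.s n y.1 else 0) ≠ 0 := h2
    by_cases h3 : x.2 = K
    · by_cases h4 : y.2 = K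
      · rw [if_pos h3] at h1'
        rw [if_pos h4] at h2'
        exact ⟨⟨n, h1', h2'⟩, Or.inl (h3.trans h4.symm)⟩
      · exact absurd (if_neg h4) h2'
    · exact absurd (if_neg h3) h1'
  · have h1' : (if x.1 = e then I.t x.2 n else 0) ≠ 0 := h1
    have h2' : (if y.1 = f then D.C e f * I.s n y.2 else 0) ≠ 0 := h2
    by_cases h3 : x.1 = e
    · by_cases h4 : y.1 = f
      · rw [if_pos h3] at h1'
        rw [if_pos h4] at h2'
        rw [h3, h4]
        refine ⟨hg _ hn, Or.inr ⟨hn, n, h1', fun h5 => h2' ?_⟩⟩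
        rw [h5, mul_zero]
      · exact absurd (if_neg h4) h2'
    · exact absurd (if_neg h3) h1'

/-- Paths in `host`. -/
lemma host_reach (hg : ∀ x ∈ g, D.step x.1 x.2) {j : ℕ} {x y : D.A × I.A}
    (h : Reach (host D I g c HA HB q).step j x y) :
    Reach D.step j x.1 y.1 ∧ Reach I.step j x.2 y.2 ∧
      (y.2 = x.2 ∨ ∃ z ∈ g, ∃ i, i < j ∧ Reach D.step i z.2 y.1) := by
  induction h with
  | refl j x => exact ⟨Reach.refl _ _, Reach.refl _ _, Or.inl rfl⟩
  | @tail j x y z h hs ih =>
    obtain ⟨h1, h2⟩ := host_step D I g c HA HB q hg hs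
    obtain ⟨i1, i2, i3⟩ := ih
    refine ⟨i1.tail h1, ?_, ?_⟩
    · rcases h2 with h2 | h2
      · rw [← h2]
        exact i2.mono (Nat.le_succ _)
      · exact i2.tail h2.2
    · rcases h2 with h2 | h2
      · rcases i3 with i3 | ⟨w, hw, i, hi, i3⟩
        · exact Or.inl (h2.symm.trans i3)
        · exact Or.inr ⟨w, hw, i + 1, by omega, i3.tail h1⟩
      · exact Or.inr ⟨_, h2.1, 0, by omega, Reach.refl _ _⟩

end

end Pool.Agent.QC
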