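import Pool.Agent.Lib_helper17.QC.NR

/-!
# Near-retracts: the raising lemma and the existence theorem
-/

namespace Pool.Agent.QC

/-- Between length `p` (entries with potential `< c`) and length `p + 1`. -/
def Mid (p q c : ℕ) (D : Dat) : Prop :=
  ∀ e f, D.C e f ≠ 0 → D.irrB q e f ∨ (c ≤ D.a e ∧ D.irrA (p + 1) e f) ∨
    (D.a e < c ∧ D.irrA p e f)

lemma host_card_A (D I : Dat) (g : Finset (D.A × D.A)) (c HA HB q : ℕ) :
    Fintype.card (host D I g c HA HB q).A = Fintype.card D.A * Fintype.card I.A :=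
  Fintype.card_prod _ _

lemma host_card_N (D I : Dat) (g : Finset (D.A × D.A)) (c HA HB q : ℕ) :
    Fintype.card (host D I g c HA HB q).N =
      Fintype.card D.N * Fintype.card I.A + g.card * Fintype.card I.N := by
  have h : Fintype.card (host D I g c HA HB q).N =
      Fintype.card ((D.N × I.A) ⊕ ({x // x ∈ g} × I.N)) := rfl
  rw [h, Fintype.card_sum, Fintype.card_prod, Fintype.card_prod, Fintype.card_coe]

lemma host_a_lt {D I : Dat} {g : Finset (D.A × D.A)} {c HA HB q : ℕ} {x : D.A} {K : I.A}
    (h : D.a x < c) : (host D I g c HA HB q).a (x, K) = D.a x := if_pos h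

lemma host_a_ge {D I : Dat} {g : Finset (D.A × D.A)} {c HA HB q : ℕ} {x : D.A} {K : I.A}
    (h : c ≤ D.a x) : (host D I g c HA HB q).a (x, K) = D.a x + HA * I.a K :=
  if_neg (not_lt.mpr h)

lemma host_a_le {D I : Dat} {g : Finset (D.A × D.A)} {c HA HB q : ℕ} {x : D.A} {K : I.A} :
    (host D I g c HA HB q).a (x, K) ≤ D.a x + HA * I.a K := by
  by_cases h : D.a x < c
  · rw [host_a_lt h]; exact Nat.le_add_right _ _
  · rw [host_a_ge (not_lt.mp h)]

/-- the entries to be hosted -/
noncomputable def gset (q c : ℕ) (D : Dat) : Finset (D.A × D.A) := by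
  classical
  exact Finset.univ.filter (fun x => D.C x.1 x.2 ≠ 0 ∧ D.a x.1 = c ∧ ¬ D.irrB q x.1 x.2)

lemma mem_gset {q c : ℕ} {D : Dat} {x : D.A × D.A} :
    x ∈ gset q c D ↔ D.C x.1 x.2 ≠ 0 ∧ D.a x.1 = c ∧ ¬ D.irrB q x.1 x.2 := by
  classical
  unfold gset
  simp

/-- One threshold. -/
lemma mid_host {p q c H HA : ℕ} {D I : Dat} (h : Mid p q (c + 1) D) (hA : ∀ x, D.a x < HA)
    (hB : ∀ x, D.b x < H) (hI : NR 0 (q * H) I) :
    Mid p q c (host D I (gset q c D) c HA H q) := by
  have hgA : ∀ x ∈ gset q c D, D.irrA p x.1 x.2 := by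
    intro x hx
    obtain ⟨h1, h2, h3⟩ := mem_gset.mp hx
    rcases h _ _ h1 with h4 | ⟨h4, _⟩ | ⟨_, h4⟩
    · exact absurd h4 h3
    · omega
    · exact h4
  have hgs : ∀ x ∈ gset q c D, D.step x.1 x.2 := by
    intro x hx
    exact Dat.step_of_C (Dat.ne_of_C (q := 0) (Or.inl (hgA x hx))) (mem_gset.mp hx).1
  rintro ⟨x, K⟩ ⟨y, L⟩ hC
  rw [host_C] at hC
  -- the general bound after the passage of a hub
  have hub : ∀ v : D.A × I.A, (∃ z ∈ gset q c D, ∃ i, i < p + 1 ∧ Reach D.step i z.2 v.1) →
      (host D I (gset q c D) c HA H q).a v < c := by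
    rintro ⟨v, V⟩ ⟨z, hz, i, hi, hr⟩
    have h1 := hgA z hz v (hr.mono (by omega))
    rw [(mem_gset.mp hz).2.1] at h1
    rw [host_a_lt h1]
    exact h1
  have oldB : D.irrB q x y → K = L → (host D I (gset q c D) c HA H q).irrB q (x, K) (y, L) := by
    rintro h1 rfl ⟨v, V⟩ hv
    obtain ⟨r1, r2, _⟩ := host_reach D I _ c HA H q hgs hv
    have h2 := h1 v r1
    have h3 : mx I.step I.b (q * D.b v) V ≤ mx I.step I.b (q * D.b x) K := by
      refine mx_mono r2 ?_
      calc q + q * D.b v = q * (D.b v + 1) := by ring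
        _ ≤ q * D.b x := Nat.mul_le_mul_left q h2
    show H * mx I.step I.b (q * D.b v) V + D.b v < H * mx I.step I.b (q * D.b x) K + D.b x
    have h4 := Nat.mul_le_mul_left H h3
    omega
  by_cases hg : (x, y) ∈ gset q c D
  · rw [if_pos hg] at hC
    have hC1 : I.C K L ≠ 0 := right_ne_zero_of_mul hC
    obtain ⟨g1, g2, g3⟩ := mem_gset.mp hg
    simp only at g1 g2 g3
    rcases hI K L hC1 with h1 | h1
    · right; left
      have e1 : (host D I (gset q c D) c HA H q).a (x, K) = c + HA * I.a K := by
        rw [host_a_ge (by omega), g2]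
      refine ⟨by rw [e1]; omega, ?_⟩
      rintro ⟨v, V⟩ hv
      obtain ⟨r1, r2, r3⟩ := host_reach D I _ c HA H q hgs hv
      rcases r3 with r3 | r3
      · have hL := h1 L (Reach.refl _ _)
        have h5 : (host D I (gset q c D) c HA H q).a (v, V) ≤ D.a v + HA * I.a V := host_a_le
        simp only at r3
        subst r3
        have h6 := hA v
        have h7 : HA * (I.a V + 1) ≤ HA * I.a K := Nat.mul_le_mul_left HA hL
        rw [e1]
        have h8 : HA * (I.a V + 1) = HA * I.a V + HA := by ring
        omega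
      · have := hub (v, V) r3
        rw [e1]
        omega
    · left
      rintro ⟨v, V⟩ hv
      obtain ⟨r1, r2, _⟩ := host_reach D I _ c HA H q hgs hv
      have h2 : mx I.step I.b (q * D.b v) V < I.b K := by
        apply mx_lt
        intro z hz
        apply h1 z
        refine (r2.trans hz).mono ?_
        calc q + q * D.b v = q * (D.b v + 1) := by ring
          _ ≤ q * H := Nat.mul_le_mul_left q (hB v)
      have h3 : I.b K ≤ mx I.step I.b (q * D.b x) K := le_mx (Reach.refl _ _)
      show H * mx I.step I.b (q * D.b v) V + D.b v < H * mx I.step I.b (q * D.b x) K + D.b x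
      have h4 : H * (mx I.step I.b (q * D.b v) V + 1) ≤ H * mx I.step I.b (q * D.b x) K :=
        Nat.mul_le_mul_left H (h2.trans_le h3)
      have h5 : H * (mx I.step I.b (q * D.b v) V + 1) = H * mx I.step I.b (q * D.b v) V + H := by
        ring
      have h6 := hB v
      omega
  · rw [if_neg hg] at hC
    by_cases hKL : K = L
    · rw [if_pos hKL] at hC
      rcases h x y hC with h1 | ⟨h1, h2⟩ | ⟨h1, h2⟩
      · exact Or.inl (oldB h1 hKL)
      · right; left
        have e1 : (host D I (gset q c D) c HA H q).a (x, K) = D.a x + HA * I.a K :=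
          host_a_ge (by omega)
        refine ⟨by rw [e1]; omega, ?_⟩
        rintro ⟨v, V⟩ hv
        obtain ⟨r1, r2, r3⟩ := host_reach D I _ c HA H q hgs hv
        rcases r3 with r3 | r3
        · have h5 : (host D I (gset q c D) c HA H q).a (v, V) ≤ D.a v + HA * I.a V := host_a_le
          simp only at r3
          subst r3
          subst hKL
          have h6 := h2 v r1
          rw [e1]
          omega
        · have := hub (v, V) r3
          rw [e1]
          omega
      · by_cases hx : D.a x = c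
        · left
          refine oldB ?_ hKL
          by_contra h3
          exact hg (mem_gset.mpr ⟨hC, hx, h3⟩)
        · right; right
          have hlt : D.a x < c := by omega
          rw [host_a_lt hlt]
          refine ⟨hlt, ?_⟩
          rintro ⟨v, V⟩ hv
          obtain ⟨r1, _, _⟩ := host_reach D I _ c HA H q hgs hv
          have h3 := h2 v r1
          rw [host_a_lt hlt, host_a_lt (h3.trans hlt)]
          exact h3
    · exact absurd (if_neg hKL) hC

/-- Index structures of length `(0, q')` with large ratio, for all multiples `q'` of `q`. -/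
def Idx (q : ℕ) : Prop :=
  ∀ H M, ∃ I : Dat, NR 0 (q * H) I ∧ M * Fintype.card I.N < Fintype.card I.A

lemma mid_step {p q c M : ℕ} (hI : Idx q) {D : Dat} (h : Mid p q (c + 1) D)
    (hc : M * Fintype.card D.N < Fintype.card D.A) :
    ∃ D' : Dat, Mid p q c D' ∧ M * Fintype.card D'.N < Fintype.card D'.A := by
  obtain ⟨I, hI1, hI2⟩ := hI (Finset.univ.sup D.b + 1) (M * (gset q c D).card)
  refine ⟨_, mid_host h (HA := Finset.univ.sup D.a + 1)
    (fun x => Nat.lt_succ_of_le (Finset.le_sup (f := D.a) (Finset.mem_univ x)))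
    (fun x => Nat.lt_succ_of_le (Finset.le_sup (f := D.b) (Finset.mem_univ x))) hI1, ?_⟩
  rw [host_card_A, host_card_N]
  have h1 : (M * Fintype.card D.N + 1) * Fintype.card I.A ≤ Fintype.card D.A * Fintype.card I.A :=
    Nat.mul_le_mul_right _ hc
  calc M * (Fintype.card D.N * Fintype.card I.A + (gset q c D).card * Fintype.card I.N)
      = M * Fintype.card D.N * Fintype.card I.A + M * (gset q c D).card * Fintype.card I.N := by
        ring
    _ < M * Fintype.card D.N * Fintype.card I.A + Fintype.card I.A := by omega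
    _ = (M * Fintype.card D.N + 1) * Fintype.card I.A := by ring
    _ ≤ _ := h1

lemma mid_zero {p q : ℕ} {M : ℕ} (hI : Idx q) (c : ℕ) : ∀ D : Dat, Mid p q c D →
    M * Fintype.card D.N < Fintype.card D.A →
    ∃ D' : Dat, Mid p q 0 D' ∧ M * Fintype.card D'.N < Fintype.card D'.A := by
  induction c with
  | zero => intro D h hc; exact ⟨D, h, hc⟩
  | succ c ih =>
    intro D h hc
    obtain ⟨D', h1, h2⟩ := mid_step hI h hc
    exact ih D' h1 h2

/-- RAISING LEMMA (helper20). -/
theorem raise {p q M : ℕ} (hI : Idx q)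
    (h : ∃ D : Dat, NR p q D ∧ M * Fintype.card D.N < Fintype.card D.A) :
    ∃ D : Dat, NR (p + 1) q D ∧ M * Fintype.card D.N < Fintype.card D.A := by
  obtain ⟨D, h1, h2⟩ := h
  obtain ⟨D', h3, h4⟩ := mid_zero (p := p) (q := q) (M := M) hI (Finset.univ.sup D.a + 1) D
    (by
      intro e f hC
      rcases h1 e f hC with h5 | h5
      · exact Or.inr (Or.inr
          ⟨Nat.lt_succ_of_le (Finset.le_sup (f := D.a) (Finset.mem_univ e)), h5⟩)
      · exact Or.inl h5) h2
  refine ⟨D', ?_, h4⟩
  intro e f hC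
  rcases h3 e f hC with h5 | ⟨_, h5⟩ | ⟨h5, _⟩
  · exact Or.inr h5
  · exact Or.inl h5
  · exact absurd h5 (Nat.not_lt_zero _)

/-- The base: one node, `M + 1` elements. -/
def base (M : ℕ) : Dat where
  A := Fin (M + 1)
  N := Unit
  fA := inferInstance
  fN := inferInstance
  dA := inferInstance
  t := fun _ _ => 1
  s := fun _ _ => 1
  a := fun i => i
  b := fun i => M - i

lemma base_nr (M : ℕ) : NR 0 0 (base M) := by
  intro e f hC
  have hne : e ≠ f := by
    rintro rfl
    apply hC
    unfold Dat.C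
    rw [if_pos rfl]
    show (1 : ℤ) - ∑ _n : Unit, 1 * 1 = 0
    simp
  have he : (e : Fin (M + 1)).val < M + 1 := e.2
  have hf : (f : Fin (M + 1)).val < M + 1 := f.2
  rcases lt_or_gt_of_ne (fun h => hne (Fin.ext h) : (e : Fin (M + 1)).val ≠ (f : Fin (M + 1)).val)
    with h | h
  · right
    intro v hv
    rw [← hv.zero]
    show M - (f : Fin (M + 1)).val < M - (e : Fin (M + 1)).val
    omega
  · left
    intro v hv
    rw [← hv.zero]
    exact h

lemma base_card (M : ℕ) : M * Fintype.card (base M).N < Fintype.card (base M).A := by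
  have h1 : Fintype.card (base M).N = 1 := Fintype.card_unit
  have h2 : Fintype.card (base M).A = M + 1 := Fintype.card_fin _
  rw [h1, h2]
  omega

lemma idx_zero : Idx 0 := by
  intro H M
  refine ⟨base M, ?_, base_card M⟩
  rw [zero_mul]
  exact base_nr M

lemma nr_p0 (p M : ℕ) : ∃ D : Dat, NR p 0 D ∧ M * Fintype.card D.N < Fintype.card D.A := by
  induction p with
  | zero => exact ⟨base M, base_nr M, base_card M⟩
  | succ p ih => exact raise idx_zero ih

lemma idx_all (q : ℕ) : Idx q := by
  intro H M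
  obtain ⟨D, h1, h2⟩ := nr_p0 (q * H) M
  exact ⟨D.swap, h1.swap, h2⟩

/-- Near-retracts of every length `(p, q)` with `card A > M * card N`. -/
theorem nr_exists (p q M : ℕ) : ∃ D : Dat, NR p q D ∧ M * Fintype.card D.N < Fintype.card D.A := by
  induction p with
  | zero =>
    obtain ⟨D, h1, h2⟩ := nr_p0 q M
    exact ⟨D.swap, h1.swap, h2⟩
  | succ p ih => exact raise (idx_all q) ih

end Pool.Agent.QC
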