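import Pool.Agent.Lib_helper17.QC.DefsA

/-! QC, block A1 -/

namespace Pool.Agent.QC

/-- the scales -/
def a1M_h40 (E F : ℕ → Type) [∀ m, Fintype (E m)] [∀ m, Fintype (F m)]
    (hE : ∀ m, ℕ → E m → ℕ) (hF : ∀ m, ℕ → F m → ℕ) (κ : ℕ → ℕ) (m : ℕ) : ℕ :=
  1 + m + κ m + ∑ m' : Fin m, ∑ r ∈ Finset.range (m + 1),
    ((∑ y : E m', (m + a1M_h40 E F hE hF κ m' * 4 ^ hE m' r y)) +
      ∑ y : F m', (m + a1M_h40 E F hE hF κ m' * 4 ^ hF m' r y))
termination_by m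
decreasing_by all_goals exact m'.2

theorem scales (E F : ℕ → Type) [∀ m, Fintype (E m)] [∀ m, Fintype (F m)]
    (hE : ∀ m, ℕ → E m → ℕ) (hF : ∀ m, ℕ → F m → ℕ) (κ : ℕ → ℕ) :
    ∃ M : ℕ → ℕ, (∀ m, 1 ≤ M m) ∧ (∀ m, κ m ≤ 2 ^ M m) ∧ (∀ m, m ≤ M m) ∧
      (∀ m m' r, m' < m → r ≤ m → ∀ y : E m', m + M m' * 4 ^ hE m' r y ≤ M m) ∧
      (∀ m m' r, m' < m → r ≤ m → ∀ y : F m', m + M m' * 4 ^ hF m' r y ≤ M m) := by
  have key : ∀ m (m' : Fin m) r, r ≤ m →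
      ((∑ y : E m', (m + a1M_h40 E F hE hF κ m' * 4 ^ hE m' r y)) +
      ∑ y : F m', (m + a1M_h40 E F hE hF κ m' * 4 ^ hF m' r y)) ≤ a1M_h40 E F hE hF κ m := by
    intro m m' r hr
    rw [a1M_h40.eq_1 E F hE hF κ m]
    have h1 := Finset.single_le_sum (f := fun r => ((∑ y : E m', (m + a1M_h40 E F hE hF κ m' *
      4 ^ hE m' r y)) + ∑ y : F m', (m + a1M_h40 E F hE hF κ m' * 4 ^ hF m' r y)))
      (fun _ _ => Nat.zero_le _) (Finset.mem_range.2 (Nat.lt_succ_of_le hr))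
    have h2 := Finset.single_le_sum (f := fun m' : Fin m => ∑ r ∈ Finset.range (m + 1),
      ((∑ y : E m', (m + a1M_h40 E F hE hF κ m' * 4 ^ hE m' r y)) +
        ∑ y : F m', (m + a1M_h40 E F hE hF κ m' * 4 ^ hF m' r y)))
      (fun _ _ => Nat.zero_le _) (Finset.mem_univ m')
    exact (h1.trans h2).trans (Nat.le_add_left _ _)
  have base : ∀ m, 1 + m + κ m ≤ a1M_h40 E F hE hF κ m := by
    intro m
    rw [a1M_h40.eq_1 E F hE hF κ m]
    exact Nat.le_add_right _ _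
  refine ⟨a1M_h40 E F hE hF κ, fun m => ?_, fun m => ?_, fun m => ?_, ?_, ?_⟩
  · have := base m
    omega
  · have h1 := base m
    have h2 : a1M_h40 E F hE hF κ m < 2 ^ a1M_h40 E F hE hF κ m := Nat.lt_two_pow_self
    omega
  · have := base m
    omega
  · intro m m' r hm hr y
    refine le_trans ?_ (key m ⟨m', hm⟩ r hr)
    refine le_trans ?_ (Nat.le_add_right _ _)
    exact Finset.single_le_sum (f := fun y : E m' => m + a1M_h40 E F hE hF κ m' * 4 ^ hE m' r y)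
      (fun _ _ => Nat.zero_le _) (Finset.mem_univ y)
  · intro m m' r hm hr y
    refine le_trans ?_ (key m ⟨m', hm⟩ r hr)
    refine le_trans ?_ (Nat.le_add_left _ _)
    exact Finset.single_le_sum (f := fun y : F m' => m + a1M_h40 E F hE hF κ m' * 4 ^ hF m' r y)
      (fun _ _ => Nat.zero_le _) (Finset.mem_univ y)

end Pool.Agent.QC
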